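import Mathlib

set_option autoImplicit false

/-!
# PX: quantifier words of sentences and Asser's problem, general definitions

`HasWord w φ`: `φ` is in normal form with the quantifier word `w` (outermost first, `true` = for all).
`Hard w`: the word contains (as a subword) for all, for all, exists or for all, exists, for all.
`LocSys`: local systems on `{0, …, n - 1}`; every spectrum is coded by one (see `FoLocal`), every local
system is coded by one sentence for all, exists, for all (see `AEA`) and by one sentence for all, for all,
exists (see `AAE`).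
-/

namespace Pool.Agent.Helper37.PX

open FirstOrder FirstOrder.Language

/-- `φ` is a quantifier free formula behind the quantifiers of the word `w`, the outermost first;
`true` stands for a universal, `false` for an existential quantifier. -/
def HasWord {L : FirstOrder.Language.{0, 0}} : List Bool → {n : ℕ} → L.BoundedFormula Empty n → Prop
  | [], _, φ => φ.IsQF
  | true :: w, n, φ => ∃ ψ : L.BoundedFormula Empty (n + 1), φ = ψ.all ∧ HasWord w ψ
  | false :: w, n, φ => ∃ ψ : L.BoundedFormula Empty (n + 1), φ = ψ.ex ∧ HasWord w ψ

/-- The words that are not of the form exists* for all* or exists* for all exists* (see `hard_iff`). -/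
def Hard (w : List Bool) : Prop :=
  List.Sublist [true, true, false] w ∨ List.Sublist [true, false, true] w

/-- The atomic data of a triple of points (numbered `0, 1, 2`). -/
structure Dat (U B : Type) where
  u : Fin 3 → U → Prop
  b : Fin 3 → Fin 3 → B → Prop
  e : Fin 3 → Fin 3 → Prop

/-- The atomic data of the triple `x, y, z` in the structure with unary relations `u` and binary
relations `b`. -/
def dat {M U B : Type} (u : M → U → Prop) (b : M → M → B → Prop) (x y z : M) : Dat U B :=
  ⟨fun i => u (![x, y, z] i), fun i j => b (![x, y, z] i) (![x, y, z] j),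
    fun i j => ![x, y, z] i = ![x, y, z] j⟩

/-- Relation symbols: unary `U`, binary `B`. -/
inductive ULB (U B : Type) : ℕ → Type
  | un (a : U) : ULB U B 1
  | bi (b : B) : ULB U B 2

/-- The language with unary relation symbols `U` and binary relation symbols `B`. -/
@[reducible]
def LL (U B : Type) : FirstOrder.Language.{0, 0} := ⟨fun _ => Empty, ULB U B⟩

/-- The structure with unary relations `u` and binary relations `b`. -/
@[instance_reducible]
def strOf {M U B : Type} (u : M → U → Prop) (b : M → M → B → Prop) : (LL U B).Structure M where
  funMap := fun f _ => f.elim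
  RelMap := fun {_} R => match R with
    | ULB.un a => fun v => u (v 0) a
    | ULB.bi c => fun v => b (v 0) (v 1) c

/-- The unary relations of a structure. -/
def uOf (U B M : Type) [(LL U B).Structure M] : M → U → Prop :=
  fun x a => Structure.RelMap (L := LL U B) (M := M) (ULB.un a) ![x]

/-- The binary relations of a structure. -/
def bOf (U B M : Type) [(LL U B).Structure M] : M → M → B → Prop :=
  fun x y c => Structure.RelMap (L := LL U B) (M := M) (ULB.bi c) ![x, y]

/-- A local system: unary symbols `U`, binary symbols `B` and local rules.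
`T0`: rule for all pairs `x, z`; its arguments: `x` is first, `x` is last, `z` is first, `z` is last,
`x = z`, unary values at `x`, at `z`, binary values at `(x, z)`.
`T1`: rule for `x, x + 1, z`: unary values at `x`, `x + 1`, `z`, binary values at `(x, z)`, `(x + 1, z)`.
`T2`: rule for `x, z, z + 1`: unary values at `x`, `z`, `z + 1`, binary values at `(x, z)`, `(x, z + 1)`. -/
structure LocSys (U B : Type) where
  T0 : Prop → Prop → Prop → Prop → Prop → (U → Prop) → (U → Prop) → (B → Prop) → Prop
  T1 : (U → Prop) → (U → Prop) → (U → Prop) → (B → Prop) → (B → Prop) → Prop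
  T2 : (U → Prop) → (U → Prop) → (U → Prop) → (B → Prop) → (B → Prop) → Prop

/-- `u`, `b` solve the local system on `{0, …, n - 1}`. -/
def LocSys.IsSol {U B : Type} (S : LocSys U B) (n : ℕ) (u : ℕ → U → Prop) (b : ℕ → ℕ → B → Prop) :
    Prop :=
  (∀ x z, x < n → z < n →
    S.T0 (x = 0) (x + 1 = n) (z = 0) (z + 1 = n) (x = z) (u x) (u z) (b x z)) ∧
  (∀ x z, x + 1 < n → z < n → S.T1 (u x) (u (x + 1)) (u z) (b x z) (b (x + 1) z)) ∧
  (∀ x z, x < n → z + 1 < n → S.T2 (u x) (u z) (u (z + 1)) (b x z) (b x (z + 1)))

/-- The local system has a solution on `{0, …, n - 1}`. -/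
def LocSys.Sol {U B : Type} (S : LocSys U B) (n : ℕ) : Prop := ∃ u b, S.IsSol n u b

/-! ### Position and block of a number -/

/-- `cd x = (p, q)`: `x = q (q + 1) / 2 + p`, `p ≤ q`. -/
def cd : ℕ → ℕ × ℕ
  | 0 => (0, 0)
  | n + 1 => if (cd n).1 = (cd n).2 then (0, (cd n).2 + 1) else ((cd n).1 + 1, (cd n).2)

/-- `rc false x = p` (position), `rc true x = q` (block) for `x = q (q + 1) / 2 + p`, `p ≤ q`. -/
def rc (i : Bool) (x : ℕ) : ℕ := if i then (cd x).2 else (cd x).1

/-- The first element of block `q`. -/
def T (q : ℕ) : ℕ := q * (q + 1) / 2

end Pool.Agent.Helper37.PX
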