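import Mathlib
import Pool.Agent.Helper37.PX.Defs

set_option autoImplicit false

/-!
# PX: the sentence for all x, for all y, exists z (definitions)

Universe: four kinds `0` (numbers `N`), `1` (proxies `W`), `2`, `3` (the axes of the local system).
Intended structure: every kind is a copy of `{0, …, n - 1}`, `n ≥ 5`, see `intU`, `intB`.
`Mat S u b e x y z` is the matrix: universal rules `Un` for `x, y` and the duties `Du` for `x, y, z`; it is
written for an arbitrary type `T`, relations `u`, `b` and an arbitrary relation `e` in the place of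
equality, so that `Mat S d.u d.b d.e 0 1 2` is a predicate on `Dat`. In a model `e` is `(· = ·)`.
-/

namespace Pool.Agent.Helper37.PX

/-- Unary symbols: kinds, kings `0, …, 3`, last, zero (kinds 2, 3), block end, `Rc i c`: the value of
`R i` is `c`, local symbols. -/
inductive AU (U : Type) : Type
  | kd (i : Fin 4)
  | A (c : Fin 4)
  | La
  | Z
  | EB
  | Rc (i : Bool) (c : Fin 4)
  | loc (a : U)

/-- Binary symbols. Intended meaning, for numbers: `R i v y`: `y = rc i v`; `LR i v y`: `y ≤ rc i v`;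
`MR i v w`: `4 ≤ rc i v` and the block of `w` is at most the block of `rc i v`; `P1 v y`: `y = rc false v + 1`;
`S x y`: `y = x + 1`, same kind; `SB`: same block; `Same`: same number (kind 0, kind 1); `lt`: `<`;
`QL x y`: the block of `y` is smaller than the block of `x`; `Id x y`: `y = x`; `LI x y`: `y ≤ x`;
`I1 x y`: `y = x + 1` (kinds 2, 3 against kind 0); `Le`, `Ge`: `≤`, `≥` (kind 2 against kind 3). -/
inductive AB (B : Type) : Type
  | R (i : Bool)
  | LR (i : Bool)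
  | MR (i : Bool)
  | P1
  | S
  | SB
  | Same
  | lt
  | QL
  | Id
  | LI
  | I1
  | Le
  | Ge
  | loc (b : B)

section Defs

variable {U B T : Type} (u : T → AU U → Prop) (b : T → T → AB B → Prop) (e : T → T → Prop)

/-- A king: one of the numbers `0, 1, 2, 3` of kind 0. -/
def King (x : T) : Prop := ∃ c : Fin 4, u x (.A c)

/-- `MR` for one of the two values. -/
def MM (v w : T) : Prop := ∃ i : Bool, b v w (.MR i)

/-- Duty DL of the source `v` and the target `y` (`z` is the predecessor of `y`). -/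
def DL (v y z : T) : Prop :=
  u z (.kd 0) ∧ b z y .S ∧
    (b v y (.LR true) → b v z (.LR true) ∧ ¬ b v z (.R true) ∧
      (b v y (.LR false) ↔ b v z (.LR false) ∧ ¬ b v z (.R false))) ∧
    (b v y .P1 → b v z (.R false))

/-- Duty DA of the source `v` and the target `y` (`z` is the first proxy in the block of `y`). -/
def DA (v y z : T) : Prop :=
  u z (.kd 1) ∧ u z (.Rc false 0) ∧ b y z .SB ∧ ∀ i : Bool, b v y (.LR i) → b v z (.MR i)

/-- Duty DB of the source `v` and the proxy `w` (`z` is the successor of `w`). -/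
def DB (v w z : T) : Prop :=
  u z (.kd 1) ∧ b w z .S ∧ ∀ i : Bool, b v w (.MR i) → b v z (.MR i)

/-- Duty DC of the source `v` and the proxy `w` (`z` is the position of `w` plus one). -/
def DC (v w z : T) : Prop :=
  u z (.kd 0) ∧ b w z .P1 ∧ ∀ i : Bool, b v w (.MR i) → b v z (.LR i) ∧ ¬ b v z (.R i)

/-- Duty E3 of `x` and its successor `y`: the value that changes. -/
def E3 (x y z : T) : Prop :=
  u z (.kd 0) ∧ b x z .P1 ∧ (¬ u x .EB → b y z (.R false)) ∧ (u x .EB → b y z (.R true))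

/-- Same value of `R i` for `x` and `y`. -/
def Eq2 (i : Bool) (x y z : T) : Prop := u z (.kd 0) ∧ b x z (.R i) ∧ b y z (.R i)

/-- Universal rules for a pair `x, y`. -/
structure Un (S : LocSys U B) (x y : T) : Prop where
  /-- kinds -/
  kind : ∃ i, u x (.kd i)
  kind1 : ∀ i j, u x (.kd i) → u x (.kd j) → i = j
  /-- kings; `x`, `y` of kind 0 -/
  kU : u x (.kd 0) → u y (.kd 0) → ∀ c, u x (.A c) → u y (.A c) → e x y
  k1 : ∀ c d, u x (.A c) → u x (.A d) → c = d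
  kR : u x (.kd 0) → u y (.kd 0) → ∀ (i : Bool) (c d : Fin 4), (d : ℕ) = rc i c → u x (.A c) →
    (b x y (.R i) ↔ u y (.A d))
  kP1 : u x (.kd 0) → u y (.kd 0) → ∀ c d : Fin 4, (d : ℕ) = rc false c + 1 → u x (.A c) →
    (b x y .P1 ↔ u y (.A d))
  kLa : ∀ c, u x (.A c) → ¬ u x .La
  kS : u x (.kd 0) → u y (.kd 0) → ∀ c d : Fin 4, (d : ℕ) = c + 1 →
    (u x (.A c) → b x y .S → u y (.A d)) ∧ (u y (.A d) → b x y .S → u x (.A c)) ∧
    (u x (.A c) → u y (.A d) → b x y .S)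
  kS0 : u x (.kd 0) → u y (.kd 0) → u y (.A 0) → ¬ b x y .S
  kC : u x (.kd 0) → ∀ c i j : Fin 4, (i : ℕ) = rc false c → (j : ℕ) = rc true c →
    u x (.Rc false i) → u x (.Rc true j) → u x (.A c)
  /-- tournament on kind 0 -/
  tour : u x (.kd 0) → u y (.kd 0) → ¬ e x y → b x y .lt ∨ b y x .lt
  top : u x (.kd 0) → u y (.kd 0) → u x .La → ¬ e x y → b y x .lt
  /-- sources `x` (kinds 0, 1) and targets `y` (kind 0) -/
  r1 : u x (.kd 0) ∨ u x (.kd 1) → u y (.kd 0) → ∀ i c, b x y (.R i) → u y (.A c) → u x (.Rc i c)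
  r2 : u x (.kd 0) ∨ u x (.kd 1) → u y (.kd 0) → ∀ i c, u x (.Rc i c) → b x y (.R i) → u y (.A c)
  r3 : u x (.kd 0) ∨ u x (.kd 1) → u y (.kd 0) → ∀ i c, u x (.Rc i c) → u y (.A c) → b x y (.R i)
  r4 : u x (.kd 0) ∨ u x (.kd 1) → u y (.kd 0) → ∀ i (c : Fin 4), u x (.Rc i c) → b x y (.LR i) →
    ∃ d ≤ c, u y (.A d)
  rl : u x (.kd 0) ∨ u x (.kd 1) → u y (.kd 0) → ∀ i, b x y (.R i) → b x y (.LR i)
  l01 : u x (.kd 0) ∨ u x (.kd 1) → u y (.kd 0) → b x y (.LR false) → b x y (.LR true)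
  l10 : u x (.kd 0) ∨ u x (.kd 1) → u y (.kd 0) → b x y (.LR false) → b x y (.R true) →
    b x y (.R false)
  l0 : u x (.kd 0) ∨ u x (.kd 1) → u y (.kd 0) → u y (.A 0) → b x y (.LR false)
  p0 : u x (.kd 0) ∨ u x (.kd 1) → u y (.kd 0) → u y (.A 0) → ¬ b x y .P1
  e1 : u x (.kd 0) ∨ u x (.kd 1) → u y (.kd 0) → b x y (.R false) → b x y (.R true) → u x .EB
  e2 : u x (.kd 0) ∨ u x (.kd 1) → u y (.kd 0) → u x .EB → b x y (.R false) → b x y (.R true)
  /-- successors in kinds 0 and 1 -/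
  s1 : (u x (.kd 0) ∧ u y (.kd 0)) ∨ (u x (.kd 1) ∧ u y (.kd 1)) → b x y .S →
    (u x .EB ↔ u y (.Rc false 0))
  /-- kind 0 against kind 1 -/
  sb : u x (.kd 0) → u y (.kd 1) → b x y .Same → b x y .SB
  /-- kinds 2, 3 against kind 0 -/
  i1 : u x (.kd 2) ∨ u x (.kd 3) → u y (.kd 0) → b x y .Id → b x y .LI
  i2 : u x (.kd 2) ∨ u x (.kd 3) → u y (.kd 0) → b x y .Id → (u x .Z ↔ u y (.A 0))
  i3 : u x (.kd 2) ∨ u x (.kd 3) → u y (.kd 0) → b x y .Id → (u x .La ↔ u y .La)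
  i4 : u x (.kd 2) ∨ u x (.kd 3) → u y (.kd 0) → u y (.A 0) → ¬ b x y .I1
  /-- kind 2 against kind 3 -/
  g1 : u x (.kd 2) → u y (.kd 3) → u x .Z → b x y .Le
  g2 : u x (.kd 2) → u y (.kd 3) → u y .Z → b x y .Ge
  g3 : u x (.kd 2) → u y (.kd 3) → b x y .Le → b x y .Ge → ∀ a, (u x (.loc a) ↔ u y (.loc a))
  g4 : u x (.kd 2) → u y (.kd 3) →
    S.T0 (u x .Z) (u x .La) (u y .Z) (u y .La) (b x y .Le ∧ b x y .Ge) (fun a => u x (.loc a))
      (fun a => u y (.loc a)) (fun c => b x y (.loc c))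

/-- Duties of an ordered pair `x, y` (`z` is the witness). -/
structure Du (S : LocSys U B) (x y z : T) : Prop where
  /-- diagonals -/
  dN : u x (.kd 0) → e x y → u z (.kd 2) ∧ u z .Z
  dW : u x (.kd 1) → e x y → u z (.kd 0) ∧ b z x .Same
  dL : u x (.kd 2) ∨ u x (.kd 3) → e x y → u z (.kd 0) ∧ b x z .Id
  /-- kind 0 against kinds 2 and 3: generation -/
  nL : u x (.kd 0) → u y (.kd 2) → ¬ u x .La → u z (.kd 0) ∧ b x z .S
  nL' : u x (.kd 0) → u y (.kd 2) → u x .La → u z (.kd 3) ∧ u z .Z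
  nM : u x (.kd 0) → u y (.kd 3) → u z (.kd 1) ∧ b x z .Same
  /-- kind 0 against kind 0 -/
  nE3 : u x (.kd 0) → u y (.kd 0) → ¬ King u x → b y x .S → E3 u b y x z
  nDL : u x (.kd 0) → u y (.kd 0) → ¬ King u x → b x y (.LR true) ∨ b x y .P1 → ¬ u y (.A 0) →
    DL u b x y z
  nLex : u x (.kd 0) → u y (.kd 0) → ¬ King u x → b y x .lt → ¬ b y x .S → ¬ b x y (.LR true) →
    ¬ b x y .P1 → u z (.kd 0) ∧
      (b x y .QL → b y z (.R true) ∧ b x z (.LR true) ∧ ¬ b x z (.R true)) ∧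
      (¬ b x y .QL → b y z (.R false) ∧ b x z (.LR false) ∧ ¬ b x z (.R false))
  nE4 : u x (.kd 0) → u y (.kd 0) → ¬ King u y → b x y .S → ¬ u x .EB → Eq2 u b true x y z
  nDA : u x (.kd 0) → u y (.kd 0) → ¬ King u x → b y x (.LR true) → DA u b y x z
  nQ : u x (.kd 0) → u y (.kd 0) → ¬ King u y → b x y .lt → ¬ b x y .S → ¬ b y x (.LR true) →
    ¬ b y x .QL → Eq2 u b true x y z
  /-- kind 1 against kind 0 -/
  wDL : u x (.kd 1) → u y (.kd 0) → b x y (.LR true) ∨ b x y .P1 → ¬ u y (.A 0) → DL u b x y z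
  wDC : u x (.kd 1) → u y (.kd 0) → MM b y x → DC u b y x z
  wP : u x (.kd 1) → u y (.kd 0) → b y x .Same → Eq2 u b false x y z
  /-- kind 0 against kind 1 -/
  nwDA : u x (.kd 0) → u y (.kd 1) → ¬ King u x → b y x (.LR true) → DA u b y x z
  nwDB : u x (.kd 0) → u y (.kd 1) → MM b x y → ¬ u y .EB → DB u b x y z
  nwDF : u x (.kd 0) → u y (.kd 1) → b x y .SB → Eq2 u b true x y z
  /-- kind 1 against kind 1 -/
  wwDB : u x (.kd 1) → u y (.kd 1) → MM b x y → ¬ u y .EB → DB u b x y z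
  wwDC : u x (.kd 1) → u y (.kd 1) → MM b y x → DC u b y x z
  wwE3 : u x (.kd 1) → u y (.kd 1) → b y x .S → E3 u b y x z
  wwE4 : u x (.kd 1) → u y (.kd 1) → b x y .S → ¬ u x .EB → Eq2 u b true x y z
  wwX : u x (.kd 1) → u y (.kd 1) → ¬ e x y → ¬ MM b x y → ¬ MM b y x → ¬ b x y .S → ¬ b y x .S →
    u z (.kd 0) ∧ ∃ i : Bool, b x z (.R i) ∧ ¬ b y z (.R i)
  /-- kinds 2, 3 against kind 0 -/
  lI : u x (.kd 2) ∨ u x (.kd 3) → u y (.kd 0) → b x y .LI ∨ b x y .I1 → ¬ u y (.A 0) →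
    u z (.kd 0) ∧ b z y .S ∧ (b x y .LI → b x z .LI ∧ ¬ b x z .Id) ∧ (b x y .I1 → b x z .Id)
  /-- kind 2 against kind 2 and kind 3 against kind 3 -/
  lS : ∀ i : Fin 4, i = 2 ∨ i = 3 → u x (.kd i) → u y (.kd i) → b x y .S →
    u z (.kd 0) ∧ b y z .Id ∧ b x z .I1
  lX : ∀ i : Fin 4, i = 2 ∨ i = 3 → u x (.kd i) → u y (.kd i) → ¬ e x y → ¬ b x y .S →
    u z (.kd 0) ∧ b x z .Id ∧ ¬ b y z .Id
  /-- kind 2 against kind 3: the local system -/
  lm : u x (.kd 2) → u y (.kd 3) → ¬ u x .La → u z (.kd 2) ∧ b x z .S ∧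
    (b z y .Le ↔ b x y .Le ∧ ¬ b x y .Ge) ∧
    S.T1 (fun a => u x (.loc a)) (fun a => u z (.loc a)) (fun a => u y (.loc a))
      (fun c => b x y (.loc c)) (fun c => b z y (.loc c))
  ml : u x (.kd 3) → u y (.kd 2) → ¬ u x .La → u z (.kd 3) ∧ b x z .S ∧
    (b y z .Ge ↔ b y x .Ge ∧ ¬ b y x .Le) ∧
    S.T2 (fun a => u y (.loc a)) (fun a => u x (.loc a)) (fun a => u z (.loc a))
      (fun c => b y x (.loc c)) (fun c => b y z (.loc c))

/-- The matrix of the sentence. -/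
def Mat (S : LocSys U B) (x y z : T) : Prop := Un u b e S x y ∧ Du u b e S x y z

end Defs

/-- The matrix as a predicate on atomic data. -/
def Phi {U B : Type} (S : LocSys U B) (d : Dat (AU U) (AB B)) : Prop := Mat d.u d.b d.e S 0 1 2

theorem phi_dat {U B M : Type} (S : LocSys U B) (u : M → AU U → Prop) (b : M → M → AB B → Prop)
    (x y z : M) : Phi S (dat u b x y z) ↔ Mat u b (fun s t => s = t) S x y z := by
  constructor
  · rintro ⟨h1, h2⟩
    exact ⟨⟨h1.1, h1.2, h1.3, h1.4, h1.5, h1.6, h1.7, h1.8, h1.9, h1.10, h1.11, h1.12, h1.13, h1.14,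
      h1.15, h1.16, h1.17, h1.18, h1.19, h1.20, h1.21, h1.22, h1.23, h1.24, h1.25, h1.26, h1.27,
      h1.28, h1.29, h1.30, h1.31, h1.32, h1.33⟩,
      ⟨h2.1, h2.2, h2.3, h2.4, h2.5, h2.6, h2.7, h2.8, h2.9, h2.10, h2.11, h2.12, h2.13, h2.14,
      h2.15, h2.16, h2.17, h2.18, h2.19, h2.20, h2.21, h2.22, h2.23, h2.24, h2.25, h2.26, h2.27, h2.28⟩⟩
  · rintro ⟨h1, h2⟩
    exact ⟨⟨h1.1, h1.2, h1.3, h1.4, h1.5, h1.6, h1.7, h1.8, h1.9, h1.10, h1.11, h1.12, h1.13, h1.14,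
      h1.15, h1.16, h1.17, h1.18, h1.19, h1.20, h1.21, h1.22, h1.23, h1.24, h1.25, h1.26, h1.27,
      h1.28, h1.29, h1.30, h1.31, h1.32, h1.33⟩,
      ⟨h2.1, h2.2, h2.3, h2.4, h2.5, h2.6, h2.7, h2.8, h2.9, h2.10, h2.11, h2.12, h2.13, h2.14,
      h2.15, h2.16, h2.17, h2.18, h2.19, h2.20, h2.21, h2.22, h2.23, h2.24, h2.25, h2.26, h2.27, h2.28⟩⟩

end Pool.Agent.Helper37.PX
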