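import Mathlib
import Pool.Agent.Helper37.PX.ADefs

set_option autoImplicit false

/-!
# PX: good elements of a model of the sentence for all x, for all y, exists z

`Model S u b`: the sentence holds. `Good u b k a`: `a 0, …, a k` are good elements of kind 0.
-/

namespace Pool.Agent.Helper37.PX

section Defs

variable {U B M : Type} (u : M → AU U → Prop) (b : M → M → AB B → Prop)

/-- The sentence for all x, for all y, exists z, `Mat` holds. -/
def Model (S : LocSys U B) : Prop := ∀ x y : M, ∃ z : M, Mat u b (fun s t => s = t) S x y z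

/-- Sources: elements of kind 0 or 1. -/
def Src (v : M) : Prop := u v (.kd 0) ∨ u v (.kd 1)

/-- `a 0, …, a k` are good: they are the numbers `0, …, k` of kind 0, their successor, predecessor and
values are exactly the intended ones (against ALL elements of kind 0), and the pair of values of a good
element determines it among ALL elements of kind 0. -/
structure Good (k : ℕ) (a : ℕ → M) : Prop where
  kind : ∀ i ≤ k, u (a i) (.kd 0)
  inj : ∀ i ≤ k, ∀ j ≤ k, a i = a j → i = j
  king : ∀ i ≤ k, ∀ c : Fin 4, u (a i) (.A c) ↔ i = c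
  succ : ∀ i < k, b (a i) (a (i + 1)) .S
  succU : ∀ i < k, ∀ y, u y (.kd 0) → b (a i) y .S → y = a (i + 1)
  predU : ∀ i ≤ k, ∀ y, u y (.kd 0) → b y (a i) .S → ∃ j < i, i = j + 1 ∧ y = a j
  val : ∀ i ≤ k, ∀ (s : Bool) (y : M), u y (.kd 0) → (b (a i) y (.R s) ↔ y = a (rc s i))
  code : ∀ i ≤ k, ∀ y, u y (.kd 0) → b y (a (rc false i)) (.R false) →
    b y (a (rc true i)) (.R true) → y = a i
  eb : ∀ i ≤ k, (u (a i) .EB ↔ rc false i = rc true i)

end Defs

end Pool.Agent.Helper37.PX
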