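import Mathlib
import Pool.Agent.Helper37.PX.Defs

set_option autoImplicit false

/-!
# PX: arithmetic of position and block
-/

namespace Pool.Agent.Helper37.PX

theorem rc_succ_eq {x : ℕ} (h : rc false x = rc true x) :
    rc false (x + 1) = 0 ∧ rc true (x + 1) = rc true x + 1 := by
  have h' : (cd x).1 = (cd x).2 := by simpa [rc] using h
  constructor
  · simp [rc, cd, h']
  · simp [rc, cd, h']

theorem rc_succ_ne {x : ℕ} (h : rc false x ≠ rc true x) :
    rc false (x + 1) = rc false x + 1 ∧ rc true (x + 1) = rc true x := by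
  have h' : (cd x).1 ≠ (cd x).2 := by simpa [rc] using h
  constructor
  · simp [rc, cd, h']
  · simp [rc, cd, h']

theorem T_succ (q : ℕ) : T (q + 1) = T q + q + 1 := by
  have h : (q + 1) * (q + 1 + 1) = q * (q + 1) + (q + 1) * 2 := by ring
  unfold T
  rw [h, Nat.add_mul_div_right _ _ (by norm_num)]
  omega

theorem T_zero : T 0 = 0 := rfl

theorem rc_zero (i : Bool) : rc i 0 = 0 := by cases i <;> rfl

theorem rc_le (x : ℕ) : rc false x ≤ rc true x := by
  induction x with
  | zero => simp [rc_zero]
  | succ x ih =>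
    by_cases h : rc false x = rc true x
    · rw [(rc_succ_eq h).1]; exact Nat.zero_le _
    · rw [(rc_succ_ne h).1, (rc_succ_ne h).2]; omega

theorem T_add (x : ℕ) : T (rc true x) + rc false x = x := by
  induction x with
  | zero => simp [rc_zero, T_zero]
  | succ x ih =>
    by_cases h : rc false x = rc true x
    · rw [(rc_succ_eq h).1, (rc_succ_eq h).2, T_succ]; omega
    · rw [(rc_succ_ne h).1, (rc_succ_ne h).2]; omega

theorem T_rc_le (x : ℕ) : T (rc true x) ≤ x := by
  have := T_add x
  omega

theorem T_mono {p q : ℕ} (h : p ≤ q) : T p ≤ T q := by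
  induction q with
  | zero =>
    have : p = 0 := by omega
    rw [this]
  | succ q ih =>
    rcases Nat.lt_or_ge q p with h1 | h1
    · have : p = q + 1 := by omega
      rw [this]
    · have := ih h1
      rw [T_succ]
      omega

theorem le_T (q : ℕ) : q ≤ T q := by
  induction q with
  | zero => simp
  | succ q ih => rw [T_succ]; omega

theorem lt_T_succ (x : ℕ) : x < T (rc true x + 1) := by
  have h1 := T_add x
  have h2 := rc_le x
  rw [T_succ]
  omega

/-- The block is determined by the inequalities. -/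
theorem rc_true_eq {x q : ℕ} (h1 : T q ≤ x) (h2 : x < T (q + 1)) : rc true x = q := by
  have h3 := T_rc_le x
  have h4 := lt_T_succ x
  rcases Nat.lt_trichotomy (rc true x) q with h | h | h
  · have := T_mono (p := rc true x + 1) (q := q) h
    omega
  · exact h
  · have := T_mono (p := q + 1) (q := rc true x) h
    omega

theorem rc_code {p q : ℕ} (h : p ≤ q) : rc false (T q + p) = p ∧ rc true (T q + p) = q := by
  have h1 : rc true (T q + p) = q := rc_true_eq (by omega) (by rw [T_succ]; omega)
  have h2 := T_add (T q + p)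
  rw [h1] at h2
  exact ⟨by omega, h1⟩

theorem rc_true_le (x : ℕ) : rc true x ≤ x := le_trans (le_T _) (T_rc_le x)

theorem rc_le' (i : Bool) (x : ℕ) : rc i x ≤ x := by
  cases i
  · exact le_trans (rc_le x) (rc_true_le x)
  · exact rc_true_le x

theorem rc_le_true (i : Bool) (x : ℕ) : rc i x ≤ rc true x := by
  cases i
  · exact rc_le x
  · exact le_refl _

theorem rc_true_mono {x y : ℕ} (h : x ≤ y) : rc true x ≤ rc true y := by
  by_contra hc
  have h1 := T_mono (p := rc true y + 1) (q := rc true x) (by omega)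
  have h2 := T_rc_le x
  have h3 := lt_T_succ y
  omega

/-- The pair of values determines the number. -/
theorem rc_inj {x y : ℕ} (h1 : rc false x = rc false y) (h2 : rc true x = rc true y) : x = y := by
  rw [← T_add x, ← T_add y, h1, h2]

theorem rc_small :
    (rc false 0 = 0 ∧ rc true 0 = 0) ∧ (rc false 1 = 0 ∧ rc true 1 = 1) ∧
    (rc false 2 = 1 ∧ rc true 2 = 1) ∧ (rc false 3 = 0 ∧ rc true 3 = 2) ∧
    (rc false 4 = 1 ∧ rc true 4 = 2) := by decide

theorem rc_big {x : ℕ} (h : 4 ≤ x) : rc true x + 1 < x := by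
  have h1 := T_rc_le x
  have h2 := rc_true_mono h
  rw [rc_small.2.2.2.2.2] at h2
  obtain ⟨q, hq⟩ : ∃ q, rc true x = q + 2 := ⟨rc true x - 2, by omega⟩
  rw [hq] at h1 ⊢
  rw [T_succ, T_succ] at h1
  have h3 := le_T q
  rcases Nat.eq_zero_or_pos q with h0 | h0
  · subst h0; omega
  · have : 1 ≤ T q := by omega
    omega

theorem rc_rc_lt {x : ℕ} (h : 4 ≤ x) : rc true x < x := by
  have := rc_big h
  omega

theorem two_le_rc {x : ℕ} (h : 3 ≤ x) : 2 ≤ rc true x := by
  have h2 := rc_true_mono h
  rw [rc_small.2.2.2.1.2] at h2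
  exact h2

theorem T_small : T 1 = 1 ∧ T 2 = 3 ∧ T 3 = 6 ∧ T 4 = 10 := by decide

end Pool.Agent.Helper37.PX
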