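import Mathlib
import Pool.Agent.Helper37.PX.AGood
import Pool.Agent.Helper37.PX.Cod

set_option autoImplicit false

/-!
# PX: the intended structure of the sentence for all x, for all y, exists z (definitions)
-/

namespace Pool.Agent.Helper37.PX

/-- Unary relations of the intended structure; elements are pairs (kind, number). -/
def intU {U : Type} (n : ℕ) (u0 : ℕ → U → Prop) (x : Fin 4 × Fin n) : AU U → Prop
  | .kd i => x.1 = i
  | .A c => (x.2 : ℕ) = c
  | .La => (x.2 : ℕ) + 1 = n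
  | .Z => (x.2 : ℕ) = 0
  | .EB => rc false x.2 = rc true x.2
  | .Rc i c => rc i x.2 = c
  | .loc a => u0 x.2 a

/-- Binary relations of the intended structure; they depend only on the numbers. -/
def intB {B : Type} (n : ℕ) (b0 : ℕ → ℕ → B → Prop) (x y : Fin 4 × Fin n) : AB B → Prop
  | .R i => (y.2 : ℕ) = rc i x.2
  | .LR i => (y.2 : ℕ) ≤ rc i x.2
  | .MR i => 4 ≤ rc i x.2 ∧ rc true y.2 ≤ rc true (rc i x.2)
  | .P1 => (y.2 : ℕ) = rc false x.2 + 1
  | .S => (y.2 : ℕ) = x.2 + 1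
  | .SB => rc true x.2 = rc true y.2
  | .Same => (x.2 : ℕ) = y.2
  | .lt => (x.2 : ℕ) < y.2
  | .QL => rc true y.2 < rc true x.2
  | .Id => (y.2 : ℕ) = x.2
  | .LI => (y.2 : ℕ) ≤ x.2
  | .I1 => (y.2 : ℕ) = x.2 + 1
  | .Le => (x.2 : ℕ) ≤ y.2
  | .Ge => (y.2 : ℕ) ≤ x.2
  | .loc c => b0 x.2 y.2 c

end Pool.Agent.Helper37.PX
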