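import Mathlib
import Pool.Agent.Helper37.PX.AInt

set_option autoImplicit false

/-!
# PX-O: duties of the intended structure for the other pairs of kinds

Numbers `i`, `j` of `x`, `y`. (0,2): `nL`, `nL'`. (0,3): `nM`. (1,2), (1,3), (2,1), (3,1): nothing. (2,0), (3,0): `lI`: `z = (0, j - 1)` if
`1 ≤ j ≤ i + 1`. (2,2), (3,3): `i = j`: `dL`; `j = i + 1`: `lS`: `z = (0, j)`; else `lX`: `z = (0, i)`. (2,3): `lm`: `z = (2, i + 1)`, rule `T1` of
the solution. (3,2): `ml`: `z = (3, i + 1)`, rule `T2` (first coordinate `y`).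
-/

namespace Pool.Agent.Helper37.PX

section AIntL

variable {U B : Type} {S : LocSys U B} {n : ℕ} {u0 : ℕ → U → Prop} {b0 : ℕ → ℕ → B → Prop}

/-- `y` of kind `2` or `3`, `x` of kind `0` or `1` (all duties but `nL`, `nL'`, `nM` are void). -/
private theorem AIntL_a (x y z : Fin 4 × Fin n) (hx : x.1 = 0 ∨ x.1 = 1) (hy : y.1 = 2 ∨ y.1 = 3)
    (h1 : x.1 = 0 → y.1 = 2 → ¬ (x.2 : ℕ) + 1 = n → z.1 = 0 ∧ (z.2 : ℕ) = x.2 + 1)
    (h2 : x.1 = 0 → y.1 = 2 → (x.2 : ℕ) + 1 = n → z.1 = 3 ∧ (z.2 : ℕ) = 0)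
    (h3 : x.1 = 0 → y.1 = 3 → z.1 = 1 ∧ (x.2 : ℕ) = z.2) :
    Du (intU n u0) (intB n b0) (fun s t => s = t) S x y z := by
  have hne : x ≠ y := by
    rintro rfl
    rcases hx with h | h <;> rcases hy with h' | h' <;> rw [h] at h' <;> revert h' <;> decide
  have hy0 : ¬ y.1 = 0 := by rcases hy with h | h <;> rw [h] <;> decide
  have hy1 : ¬ y.1 = 1 := by rcases hy with h | h <;> rw [h] <;> decide
  have hx2 : ¬ x.1 = 2 := by rcases hx with h | h <;> rw [h] <;> decide
  have hx3 : ¬ x.1 = 3 := by rcases hx with h | h <;> rw [h] <;> decide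
  constructor
  case dN => exact fun _ h => absurd h hne
  case dW => exact fun _ h => absurd h hne
  case dL => exact fun _ h => absurd h hne
  case nL => exact h1
  case nL' => exact h2
  case nM => exact h3
  case nE3 => exact fun _ h => absurd h hy0
  case nDL => exact fun _ h => absurd h hy0
  case nLex => exact fun _ h => absurd h hy0
  case nE4 => exact fun _ h => absurd h hy0
  case nDA => exact fun _ h => absurd h hy0
  case nQ => exact fun _ h => absurd h hy0
  case wDL => exact fun _ h => absurd h hy0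
  case wDC => exact fun _ h => absurd h hy0
  case wP => exact fun _ h => absurd h hy0
  case nwDA => exact fun _ h => absurd h hy1
  case nwDB => exact fun _ h => absurd h hy1
  case nwDF => exact fun _ h => absurd h hy1
  case wwDB => exact fun _ h => absurd h hy1
  case wwDC => exact fun _ h => absurd h hy1
  case wwE3 => exact fun _ h => absurd h hy1
  case wwE4 => exact fun _ h => absurd h hy1
  case wwX => exact fun _ h => absurd h hy1
  case lI => exact fun _ h => absurd h hy0
  case lS =>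
    rintro i (rfl | rfl) h
    · exact absurd h hx2
    · exact absurd h hx3
  case lX =>
    rintro i (rfl | rfl) h
    · exact absurd h hx2
    · exact absurd h hx3
  case lm => exact fun h => absurd h hx2
  case ml => exact fun h => absurd h hx3

/-- `x` of kind `2` or `3`: all duties but `dL`, `lI`, `lS`, `lX`, `lm`, `ml` are void. -/
private theorem AIntL_b (x y z : Fin 4 × Fin n) (hx : x.1 = 2 ∨ x.1 = 3)
    (h1 : x = y → z.1 = 0 ∧ (z.2 : ℕ) = x.2)
    (h2 : y.1 = 0 → (y.2 : ℕ) ≤ x.2 ∨ (y.2 : ℕ) = x.2 + 1 → ¬ (y.2 : ℕ) = (0 : Fin 4) → z.1 = 0 ∧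
      (y.2 : ℕ) = z.2 + 1)
    (h3 : x.1 = y.1 → (y.2 : ℕ) = x.2 + 1 → z.1 = 0 ∧ (z.2 : ℕ) = y.2)
    (h4 : x.1 = y.1 → ¬ x = y → ¬ (y.2 : ℕ) = x.2 + 1 → z.1 = 0 ∧ (z.2 : ℕ) = x.2)
    (h5 : x.1 = 2 → y.1 = 3 → ¬ (x.2 : ℕ) + 1 = n → z.1 = 2 ∧ (z.2 : ℕ) = x.2 + 1 ∧
      S.T1 (u0 x.2) (u0 z.2) (u0 y.2) (b0 x.2 y.2) (b0 z.2 y.2))
    (h6 : x.1 = 3 → y.1 = 2 → ¬ (x.2 : ℕ) + 1 = n → z.1 = 3 ∧ (z.2 : ℕ) = x.2 + 1 ∧
      S.T2 (u0 y.2) (u0 x.2) (u0 z.2) (b0 y.2 x.2) (b0 y.2 z.2)) :
    Du (intU n u0) (intB n b0) (fun s t => s = t) S x y z := by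
  have hx0 : ¬ x.1 = 0 := by rcases hx with h | h <;> rw [h] <;> decide
  have hx1 : ¬ x.1 = 1 := by rcases hx with h | h <;> rw [h] <;> decide
  constructor
  case dN => exact fun h => absurd h hx0
  case dW => exact fun h => absurd h hx1
  case dL => exact fun _ h => h1 h
  case nL => exact fun h => absurd h hx0
  case nL' => exact fun h => absurd h hx0
  case nM => exact fun h => absurd h hx0
  case nE3 => exact fun h => absurd h hx0
  case nDL => exact fun h => absurd h hx0
  case nLex => exact fun h => absurd h hx0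
  case nE4 => exact fun h => absurd h hx0
  case nDA => exact fun h => absurd h hx0
  case nQ => exact fun h => absurd h hx0
  case wDL => exact fun h => absurd h hx1
  case wDC => exact fun h => absurd h hx1
  case wP => exact fun h => absurd h hx1
  case nwDA => exact fun h => absurd h hx0
  case nwDB => exact fun h => absurd h hx0
  case nwDF => exact fun h => absurd h hx0
  case wwDB => exact fun h => absurd h hx1
  case wwDC => exact fun h => absurd h hx1
  case wwE3 => exact fun h => absurd h hx1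
  case wwE4 => exact fun h => absurd h hx1
  case wwX => exact fun h => absurd h hx1
  case lI =>
    intro _ hy hl h0
    obtain ⟨ha, hb⟩ := h2 hy hl h0
    refine ⟨ha, hb, ?_, ?_⟩
    · intro (hc : (y.2 : ℕ) ≤ x.2)
      constructor
      · show (z.2 : ℕ) ≤ x.2
        omega
      · show ¬ (z.2 : ℕ) = x.2
        omega
    · intro (hc : (y.2 : ℕ) = x.2 + 1)
      show (z.2 : ℕ) = x.2
      omega
  case lS =>
    intro i _ hxi hyi hS
    have hxi' : x.1 = i := hxi
    have hyi' : y.1 = i := hyi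
    have hS' : (y.2 : ℕ) = x.2 + 1 := hS
    obtain ⟨ha, hb⟩ := h3 (hxi'.trans hyi'.symm) hS'
    exact ⟨ha, hb, hb.trans hS'⟩
  case lX =>
    intro i _ hxi hyi hne hS
    have hxi' : x.1 = i := hxi
    have hyi' : y.1 = i := hyi
    obtain ⟨ha, hb⟩ := h4 (hxi'.trans hyi'.symm) hne hS
    refine ⟨ha, hb, ?_⟩
    intro (hc : (z.2 : ℕ) = y.2)
    apply hne
    exact Prod.ext (hxi'.trans hyi'.symm) (Fin.ext (hb.symm.trans hc))
  case lm =>
    intro hx2 hy3 hla
    obtain ⟨ha, hb, hc⟩ := h5 hx2 hy3 hla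
    refine ⟨ha, hb, ?_, hc⟩
    show (z.2 : ℕ) ≤ y.2 ↔ (x.2 : ℕ) ≤ y.2 ∧ ¬ (y.2 : ℕ) ≤ x.2
    omega
  case ml =>
    intro hx3 hy2 hla
    obtain ⟨ha, hb, hc⟩ := h6 hx3 hy2 hla
    refine ⟨ha, hb, ?_, hc⟩
    show (z.2 : ℕ) ≤ y.2 ↔ (x.2 : ℕ) ≤ y.2 ∧ ¬ (y.2 : ℕ) ≤ x.2
    omega

end AIntL

theorem int_duL {U B : Type} {S : LocSys U B} {n : ℕ} (hn : 5 ≤ n) {u0 : ℕ → U → Prop}
    {b0 : ℕ → ℕ → B → Prop} (hs : S.IsSol n u0 b0) (x y : Fin 4 × Fin n)
    (hxy : x.1 = 2 ∨ x.1 = 3 ∨ y.1 = 2 ∨ y.1 = 3) :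
    ∃ z, Du (intU n u0) (intB n b0) (fun s t => s = t) S x y z := by
  obtain ⟨a, i⟩ := x
  obtain ⟨c, j⟩ := y
  by_cases hx : a = 2 ∨ a = 3
  · -- `x` of kind `2` or `3`
    have ha0 : ¬ a = 0 := by rcases hx with h | h <;> rw [h] <;> decide
    by_cases hac : a = c
    · subst hac
      by_cases hS : (j : ℕ) = i + 1
      · refine ⟨(0, j), AIntL_b _ _ _ hx ?_ ?_ ?_ ?_ ?_ ?_⟩
        · intro h
          have h' : i = j := congrArg Prod.snd h
          subst h'
          omega
        · exact fun h => absurd h ha0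
        · exact fun _ _ => ⟨rfl, rfl⟩
        · exact fun _ _ h => absurd hS h
        · intro h h'
          have h1 : a = 2 := h
          have h2 : a = 3 := h'
          rw [h1] at h2
          exact absurd h2 (by decide)
        · intro h h'
          have h1 : a = 3 := h
          have h2 : a = 2 := h'
          rw [h1] at h2
          exact absurd h2 (by decide)
      · refine ⟨(0, i), AIntL_b _ _ _ hx ?_ ?_ ?_ ?_ ?_ ?_⟩
        · exact fun _ => ⟨rfl, rfl⟩
        · exact fun h => absurd h ha0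
        · exact fun _ h => absurd h hS
        · exact fun _ _ _ => ⟨rfl, rfl⟩
        · intro h h'
          have h1 : a = 2 := h
          have h2 : a = 3 := h'
          rw [h1] at h2
          exact absurd h2 (by decide)
        · intro h h'
          have h1 : a = 3 := h
          have h2 : a = 2 := h'
          rw [h1] at h2
          exact absurd h2 (by decide)
    · have hne : ¬ ((a, i) : Fin 4 × Fin n) = (c, j) := fun h => hac (congrArg Prod.fst h)
      by_cases hc0 : c = 0
      · subst hc0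
        refine ⟨(0, ⟨(j : ℕ) - 1, by omega⟩), AIntL_b _ _ _ hx ?_ ?_ ?_ ?_ ?_ ?_⟩
        · exact fun h => absurd h hne
        · intro _ _ h0
          have h0' : ¬ (j : ℕ) = 0 := h0
          refine ⟨rfl, ?_⟩
          show (j : ℕ) = (j : ℕ) - 1 + 1
          omega
        · exact fun h => absurd h hac
        · exact fun h => absurd h hac
        · intro _ h
          have h' : (0 : Fin 4) = 3 := h
          exact absurd h' (by decide)
        · intro _ h
          have h' : (0 : Fin 4) = 2 := h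
          exact absurd h' (by decide)
      · by_cases hla : (i : ℕ) + 1 = n
        · refine ⟨(a, i), AIntL_b _ _ _ hx ?_ ?_ ?_ ?_ ?_ ?_⟩
          · exact fun h => absurd h hne
          · exact fun h => absurd h hc0
          · exact fun h => absurd h hac
          · exact fun h => absurd h hac
          · exact fun _ _ h => absurd hla h
          · exact fun _ _ h => absurd hla h
        · have hi := i.isLt
          have hi' : (i : ℕ) + 1 < n := by omega
          refine ⟨(a, ⟨(i : ℕ) + 1, hi'⟩), AIntL_b _ _ _ hx ?_ ?_ ?_ ?_ ?_ ?_⟩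
          · exact fun h => absurd h hne
          · exact fun h => absurd h hc0
          · exact fun h => absurd h hac
          · exact fun h => absurd h hac
          · exact fun h _ _ => ⟨h, rfl, hs.2.1 i j hi' j.isLt⟩
          · exact fun h _ _ => ⟨h, rfl, hs.2.2 j i j.isLt hi'⟩
  · -- `x` of kind `0` or `1`
    have hx' : a = 0 ∨ a = 1 := by
      fin_cases a
      · exact Or.inl rfl
      · exact Or.inr rfl
      · exact absurd (Or.inl rfl) hx
      · exact absurd (Or.inr rfl) hx
    have hy : c = 2 ∨ c = 3 := by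
      rcases hxy with h | h | h | h
      · exact absurd (Or.inl h) hx
      · exact absurd (Or.inr h) hx
      · exact Or.inl h
      · exact Or.inr h
    have hn0 : 0 < n := by omega
    rcases hy with hc | hc
    · subst hc
      by_cases hla : (i : ℕ) + 1 = n
      · refine ⟨(3, ⟨0, hn0⟩), AIntL_a _ _ _ hx' (Or.inl rfl) ?_ ?_ ?_⟩
        · exact fun _ _ h => absurd hla h
        · exact fun _ _ _ => ⟨rfl, rfl⟩
        · intro _ h
          have h' : (2 : Fin 4) = 3 := h
          exact absurd h' (by decide)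
      · have hi := i.isLt
        have hi' : (i : ℕ) + 1 < n := by omega
        refine ⟨(0, ⟨(i : ℕ) + 1, hi'⟩), AIntL_a _ _ _ hx' (Or.inl rfl) ?_ ?_ ?_⟩
        · exact fun _ _ _ => ⟨rfl, rfl⟩
        · exact fun _ _ h => absurd h hla
        · intro _ h
          have h' : (2 : Fin 4) = 3 := h
          exact absurd h' (by decide)
    · subst hc
      refine ⟨(1, i), AIntL_a _ _ _ hx' (Or.inr rfl) ?_ ?_ ?_⟩
      · intro _ h
        have h' : (3 : Fin 4) = 2 := h
        exact absurd h' (by decide)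
      · intro _ h
        have h' : (3 : Fin 4) = 2 := h
        exact absurd h' (by decide)
      · exact fun _ _ => ⟨rfl, rfl⟩

end Pool.Agent.Helper37.PX
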