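import Mathlib
import Pool.Agent.Helper37.PX.AInt

set_option autoImplicit false

/-!
# PX-M: duties of the intended structure for two elements of kind 0

`x = (0, i)`, `y = (0, j)`. `i = j`: `z = (2, 0)` (all other premises are false: `rc_big` for numbers `≥ 4`, kings are excluded by the
premises). Let `i ≠ j`. Only the duties `nE3` … `nQ` can have true premises.
* `j < i` (premises of `nE4`, `nDA`, `nQ` are false: `LR true y x` means `i ≤ rc true j ≤ j`): if `i ≤ 3` all premises false, any `z`. If
  `i ≥ 4`: if `i = j + 1`: `z` = number `rc false j + 1` (`nE3`; `nDL`, `nLex` have false premises: `j ≤ rc true i` and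
  `j = rc false i + 1` are impossible by `rc_big`, as `rc false i ≤ rc true i`, except that for `i = 4`, `5` one has to look at the values);
  `rc_succ_eq`, `rc_succ_ne` for the values of `i`. Else if `j ≤ rc true i` or `j = rc false i + 1`: if `j = 0` any `z` (note
  `0 ≤ rc true i`, so the premise of `nLex` is false), else `z` = number `j - 1` (`nDL`). Else `nLex`: if
  `rc true j < rc true i`: `z` = number `rc true j`; otherwise `rc true j = rc true i` (`rc_true_mono`), `rc false j < rc false i`
  (`T_add`), `z` = number `rc false j`.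
* `i < j` (premises of `nE3`, `nDL`, `nLex` are false: `x` is no king, so `rc true i + 1 < i`): if `j = i + 1`: for `j ≥ 4` and `rc false i ≠ rc true i`:
  `z` = number `rc true i` (`nE4`); the premise of `nDA` is false (`i ≥ 4`, `i ≤ rc true (i+1)`). Else if `i ≥ 4` and `i ≤ rc true j`: `nDA`: `z = (1, T (rc true i))`,
  a number of the same block with position 0 (`rc_code`), `T (rc true i) ≤ i`; `MR`: `4 ≤ i ≤ rc s j`, `rc_true_mono`. Else `nQ` (`j ≥ 4`, blocks equal as
  `QL` is false and `rc_true_mono`): `z` = number `rc true i`.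
(Numbers used for `z` are at most `max i j < n`.) It may be practical to prove the whole statement as
`∃ z, Du …` with `refine ⟨z, ?_⟩; constructor` and a common proof block for the false premises.
-/

namespace Pool.Agent.Helper37.PX

private theorem not_king {U : Type} {n : ℕ} {u0 : ℕ → U → Prop} {x : Fin 4 × Fin n}
    (h : ¬ King (intU n u0) x) : 4 ≤ (x.2 : ℕ) := by
  by_contra hc
  exact h ⟨⟨(x.2 : ℕ), by omega⟩, rfl⟩

private theorem k01 {p : Prop} (h : (0 : Fin 4) = 1) : p := absurd h (by decide)

private theorem k02 {p : Prop} (h : (0 : Fin 4) = 2) : p := absurd h (by decide)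

private theorem k03 {p : Prop} (h : (0 : Fin 4) = 3) : p := absurd h (by decide)

private theorem k023 {p : Prop} (h : (0 : Fin 4) = 2 ∨ (0 : Fin 4) = 3) : p :=
  absurd h (by decide)

/-- The duties of two elements of kind 0 in terms of numbers. -/
private theorem mkN {U B : Type} {S : LocSys U B} {n : ℕ} {u0 : ℕ → U → Prop}
    {b0 : ℕ → ℕ → B → Prop} (i j : Fin n) (k : Fin 4) (w : Fin n)
    (hdN : (i : ℕ) = j → k = 2 ∧ (w : ℕ) = 0)
    (hE3 : 4 ≤ (i : ℕ) → (i : ℕ) = j + 1 → k = 0 ∧ (w : ℕ) = rc false j + 1 ∧
      (¬ rc false j = rc true j → (w : ℕ) = rc false i) ∧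
      (rc false j = rc true j → (w : ℕ) = rc true i))
    (hDL : 4 ≤ (i : ℕ) → ((j : ℕ) ≤ rc true i ∨ (j : ℕ) = rc false i + 1) → (j : ℕ) ≠ 0 →
      k = 0 ∧ (j : ℕ) = w + 1 ∧ ((j : ℕ) = w + 1 → (w : ℕ) = j - 1))
    (hLex : 4 ≤ (i : ℕ) → (j : ℕ) < i → ¬ (i : ℕ) = j + 1 → ¬ (j : ℕ) ≤ rc true i →
      ¬ (j : ℕ) = rc false i + 1 → k = 0 ∧
      (rc true j < rc true i → (w : ℕ) = rc true j ∧ (w : ℕ) ≤ rc true i ∧
        ¬ (w : ℕ) = rc true i) ∧
      (¬ rc true j < rc true i → (w : ℕ) = rc false j ∧ (w : ℕ) ≤ rc false i ∧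
        ¬ (w : ℕ) = rc false i))
    (hE4 : 4 ≤ (j : ℕ) → (j : ℕ) = i + 1 → ¬ rc false i = rc true i →
      k = 0 ∧ (w : ℕ) = rc true i ∧ (w : ℕ) = rc true j)
    (hDA : 4 ≤ (i : ℕ) → (i : ℕ) ≤ rc true j → k = 1 ∧ rc false w = 0 ∧
      rc true i = rc true w ∧ ∀ s : Bool, (i : ℕ) ≤ rc s j → 4 ≤ rc s j ∧
        rc true w ≤ rc true (rc s j))
    (hQ : 4 ≤ (j : ℕ) → (i : ℕ) < j → ¬ (j : ℕ) = i + 1 → ¬ (i : ℕ) ≤ rc true j →
      ¬ rc true i < rc true j → k = 0 ∧ (w : ℕ) = rc true i ∧ (w : ℕ) = rc true j) :
    Du (intU n u0) (intB n b0) (fun s t => s = t) S ((0 : Fin 4), i) ((0 : Fin 4), j) (k, w) where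
  dN := fun _ h => hdN (congrArg (fun t : Fin 4 × Fin n => (t.2 : ℕ)) h)
  dW := fun h => k01 h
  dL := fun h => k023 h
  nL := fun _ h => k02 h
  nL' := fun _ h => k02 h
  nM := fun _ h => k03 h
  nE3 := fun _ _ hk h => hE3 (not_king hk) h
  nDL := fun _ _ hk h h0 => by
    obtain ⟨h1, h2, -⟩ := hDL (not_king hk) h h0
    have h2' : (j : ℕ) = w + 1 := h2
    refine ⟨h1, h2, fun h3 => ⟨?_, ?_, ?_⟩, fun h3 => ?_⟩
    · show (w : ℕ) ≤ rc true i
      have : (j : ℕ) ≤ rc true i := h3
      omega
    · show ¬ (w : ℕ) = rc true i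
      have : (j : ℕ) ≤ rc true i := h3
      omega
    · show (j : ℕ) ≤ rc false i ↔ (w : ℕ) ≤ rc false i ∧ ¬ (w : ℕ) = rc false i
      omega
    · show (w : ℕ) = rc false i
      have : (j : ℕ) = rc false i + 1 := h3
      omega
  nLex := fun _ _ hk h1 h2 h3 h4 => hLex (not_king hk) h1 h2 h3 h4
  nE4 := fun _ _ hk h h2 => hE4 (not_king hk) h h2
  nDA := fun _ _ hk h => hDA (not_king hk) h
  nQ := fun _ _ hk h1 h2 h3 h4 => hQ (not_king hk) h1 h2 h3 h4
  wDL := fun h => k01 h
  wDC := fun h => k01 h
  wP := fun h => k01 h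
  nwDA := fun _ h => k01 h
  nwDB := fun _ h => k01 h
  nwDF := fun _ h => k01 h
  wwDB := fun h => k01 h
  wwDC := fun h => k01 h
  wwE3 := fun h => k01 h
  wwE4 := fun h => k01 h
  wwX := fun h => k01 h
  lI := fun h => k023 h
  lS := fun l hl h => by
    have h' : (0 : Fin 4) = l := h
    subst h'
    exact absurd hl (by decide)
  lX := fun l hl h => by
    have h' : (0 : Fin 4) = l := h
    subst h'
    exact absurd hl (by decide)
  lm := fun h => k02 h
  ml := fun h => k03 h

theorem int_duN {U B : Type} {S : LocSys U B} {n : ℕ} (hn : 5 ≤ n) {u0 : ℕ → U → Prop}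
    {b0 : ℕ → ℕ → B → Prop} (x y : Fin 4 × Fin n) (hx : x.1 = 0) (hy : y.1 = 0) :
    ∃ z, Du (intU n u0) (intB n b0) (fun s t => s = t) S x y z := by
  obtain ⟨kx, i⟩ := x
  obtain ⟨ky, j⟩ := y
  obtain rfl : kx = 0 := hx
  obtain rfl : ky = 0 := hy
  have hi := i.isLt
  have hj := j.isLt
  have bi : 4 ≤ (i : ℕ) → rc true i + 1 < (i : ℕ) := fun h => rc_big h
  have bj : 4 ≤ (j : ℕ) → rc true j + 1 < (j : ℕ) := fun h => rc_big h
  have li := rc_le (i : ℕ)
  have lj := rc_le (j : ℕ)
  have ti := rc_true_le (i : ℕ)
  have tj := rc_true_le (j : ℕ)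
  rcases Nat.lt_trichotomy (j : ℕ) (i : ℕ) with hji | hji | hji
  · -- j < i
    by_cases h4 : 4 ≤ (i : ℕ)
    · have hbi := bi h4
      by_cases h1 : (i : ℕ) = j + 1
      · -- nE3
        have hw : rc false j + 1 < n := by omega
        refine ⟨((0 : Fin 4), ⟨rc false j + 1, hw⟩), mkN i j 0 _ ?_ ?_ ?_ ?_ ?_ ?_ ?_⟩
        · intro h; omega
        · intro _ _
          refine ⟨rfl, rfl, fun h => ?_, fun h => ?_⟩
          · show rc false j + 1 = rc false i
            rw [h1, (rc_succ_ne h).1]
          · show rc false j + 1 = rc true i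
            rw [h1, (rc_succ_eq h).2, h]
        · intro _ h _
          exfalso
          rcases h with h | h
          · omega
          · by_cases he : rc false (j : ℕ) = rc true j
            · rw [h1, (rc_succ_eq he).1] at h
              omega
            · rw [h1, (rc_succ_ne he).1] at h
              by_cases hj3 : (j : ℕ) = 3
              · rw [hj3, rc_small.2.2.2.1.1] at h
                omega
              · have := bj (by omega)
                omega
        · intro _ _ h; omega
        · intro _ h; omega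
        · intro _ h; omega
        · intro _ h; omega
      · by_cases h2 : (j : ℕ) ≤ rc true i ∨ (j : ℕ) = rc false i + 1
        · refine ⟨((0 : Fin 4), ⟨(j : ℕ) - 1, by omega⟩), mkN i j 0 _ ?_ ?_ ?_ ?_ ?_ ?_ ?_⟩
          · intro h; omega
          · intro _ h; omega
          · intro _ _ h0
            refine ⟨rfl, ?_, ?_⟩
            · show (j : ℕ) = (j : ℕ) - 1 + 1
              omega
            · intro _; rfl
          · intro _ _ _ h5 h6; omega
          · intro _ h; omega
          · intro _ h; omega
          · intro _ h; omega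
        · by_cases h3 : rc true j < rc true i
          · refine ⟨((0 : Fin 4), ⟨rc true j, by omega⟩), mkN i j 0 _ ?_ ?_ ?_ ?_ ?_ ?_ ?_⟩
            · intro h; omega
            · intro _ h; omega
            · intro _ h; omega
            · intro _ _ _ _ _
              refine ⟨rfl, fun _ => ⟨rfl, ?_, ?_⟩, fun h => absurd h3 h⟩
              · show rc true j ≤ rc true i
                omega
              · show ¬ rc true j = rc true i
                omega
            · intro _ h; omega
            · intro _ h; omega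
            · intro _ h; omega
          · have h5 : rc true (j : ℕ) = rc true (i : ℕ) := by
              have := rc_true_mono (x := (j : ℕ)) (y := (i : ℕ)) (by omega)
              omega
            have h6 := T_add (j : ℕ)
            have h7 := T_add (i : ℕ)
            rw [h5] at h6
            refine ⟨((0 : Fin 4), ⟨rc false j, by omega⟩), mkN i j 0 _ ?_ ?_ ?_ ?_ ?_ ?_ ?_⟩
            · intro h; omega
            · intro _ h; omega
            · intro _ h; omega
            · intro _ _ _ _ _
              refine ⟨rfl, fun h => absurd h h3, fun _ => ⟨rfl, ?_, ?_⟩⟩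
              · show rc false j ≤ rc false i
                omega
              · show ¬ rc false j = rc false i
                omega
            · intro _ h; omega
            · intro _ h; omega
            · intro _ h; omega
    · refine ⟨((0 : Fin 4), i), mkN i j 0 _ ?_ ?_ ?_ ?_ ?_ ?_ ?_⟩
      · intro h; omega
      · intro h; omega
      · intro h; omega
      · intro h; omega
      · intro h; omega
      · intro h; omega
      · intro h; omega
  · -- i = j
    refine ⟨((2 : Fin 4), ⟨0, by omega⟩), mkN i j 2 _ ?_ ?_ ?_ ?_ ?_ ?_ ?_⟩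
    · intro _; exact ⟨rfl, rfl⟩
    · intro _ h; omega
    · intro h4 h
      have := bi h4
      omega
    · intro _ h; omega
    · intro _ h; omega
    · intro h4 h
      have := bi h4
      rw [hji] at h
      omega
    · intro _ h; omega
  · -- i < j
    by_cases h1 : (j : ℕ) = i + 1
    · refine ⟨((0 : Fin 4), ⟨rc true i, by omega⟩), mkN i j 0 _ ?_ ?_ ?_ ?_ ?_ ?_ ?_⟩
      · intro h; omega
      · intro _ h; omega
      · intro h4 h
        have := bi h4
        omega
      · intro _ h; omega
      · intro _ _ h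
        refine ⟨rfl, rfl, ?_⟩
        show rc true i = rc true j
        rw [h1, (rc_succ_ne h).2]
      · intro h4 h
        have := bj (by omega)
        omega
      · intro _ _ h; omega
    · by_cases h2 : 4 ≤ (i : ℕ) ∧ (i : ℕ) ≤ rc true j
      · obtain ⟨h4, h2⟩ := h2
        have hbi := bi h4
        have hT := T_rc_le (i : ℕ)
        have hc := rc_code (p := 0) (q := rc true i) (Nat.zero_le _)
        rw [Nat.add_zero] at hc
        refine ⟨((1 : Fin 4), ⟨T (rc true i), by omega⟩), mkN i j 1 _ ?_ ?_ ?_ ?_ ?_ ?_ ?_⟩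
        · intro h; omega
        · intro _ h; omega
        · intro _ h; omega
        · intro _ h; omega
        · intro _ h; omega
        · intro _ _
          refine ⟨rfl, hc.1, hc.2.symm, fun s hs => ⟨by omega, ?_⟩⟩
          show rc true (T (rc true i)) ≤ rc true (rc s j)
          rw [hc.2]
          exact rc_true_mono hs
        · intro _ _ _ h; omega
      · refine ⟨((0 : Fin 4), ⟨rc true i, by omega⟩), mkN i j 0 _ ?_ ?_ ?_ ?_ ?_ ?_ ?_⟩
        · intro h; omega
        · intro _ h; omega
        · intro h4 h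
          have := bi h4
          omega
        · intro _ h; omega
        · intro _ h; omega
        · intro h4 h; omega
        · intro _ _ _ _ h
          have := rc_true_mono (x := (i : ℕ)) (y := (j : ℕ)) (by omega)
          refine ⟨rfl, rfl, ?_⟩
          show rc true i = rc true j
          omega

end Pool.Agent.Helper37.PX
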