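import Mathlib
import Pool.Agent.Helper37.PX.AInt

set_option autoImplicit false

/-!
# PX-L: the intended structure satisfies the universal rules

Elements are pairs (kind, number); unfold `intU`, `intB`; facts on `rc`: `Cod.lean`. `kR`, `kP1`, `kC`: the number of a king is `0, 1, 2, 3`
(`fin_cases`, `rc_small`). `s1`: `rc_succ_eq`, `rc_succ_ne`. `g4`: the rule `T0` of the solution, its arguments rewritten by `propext`
(`Le ∧ Ge` is equality).
-/

namespace Pool.Agent.Helper37.PX

theorem int_un {U B : Type} {S : LocSys U B} {n : ℕ} (hn : 5 ≤ n) {u0 : ℕ → U → Prop}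
    {b0 : ℕ → ℕ → B → Prop} (hs : S.IsSol n u0 b0) (x y : Fin 4 × Fin n) :
    Un (intU n u0) (intB n b0) (fun s t => s = t) S x y := by
  obtain ⟨k, x⟩ := x
  obtain ⟨l, y⟩ := y
  have hx := x.2
  have hy := y.2
  constructor
  case kind => exact ⟨k, rfl⟩
  case kind1 => intro i j h1 h2; simp only [intU] at h1 h2; rw [← h1, ← h2]
  case kU =>
    intro h1 h2 c h3 h4
    simp only [intU] at h1 h2 h3 h4
    have h5 : x = y := Fin.ext (by omega)
    rw [h1, h2, h5]
  case k1 => intro c d h1 h2; simp only [intU] at h1 h2; exact Fin.ext (by omega)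
  case kR =>
    intro _ _ i c d h3 h4
    simp only [intU, intB] at h4 ⊢
    rw [h4, h3]
  case kP1 =>
    intro _ _ c d h3 h4
    simp only [intU, intB] at h4 ⊢
    rw [h4, h3]
  case kLa => intro c h1 h2; simp only [intU] at h1 h2; have := c.2; omega
  case kS =>
    intro _ _ c d h3
    simp only [intU, intB]
    refine ⟨?_, ?_, ?_⟩ <;> intros <;> omega
  case kS0 =>
    intro _ _ h1 h2
    simp only [intU, intB, Fin.val_zero] at h1 h2
    omega
  case kC =>
    intro _ c i j h1 h2 h3 h4
    simp only [intU] at h3 h4 ⊢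
    exact rc_inj (by rw [h3, h1]) (by rw [h4, h2])
  case tour =>
    intro h1 h2 h3
    simp only [intU, intB] at h1 h2 h3 ⊢
    have h4 : (x : ℕ) ≠ y := by
      intro h5
      apply h3
      rw [h1, h2, Fin.ext h5]
    omega
  case top =>
    intro h1 h2 h6 h3
    simp only [intU, intB] at h1 h2 h3 h6 ⊢
    have h4 : (x : ℕ) ≠ y := by
      intro h5
      apply h3
      rw [h1, h2, Fin.ext h5]
    omega
  case r1 => intro _ _ i c h1 h2; simp only [intU, intB] at h1 h2 ⊢; omega
  case r2 => intro _ _ i c h1 h2; simp only [intU, intB] at h1 h2 ⊢; omega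
  case r3 => intro _ _ i c h1 h2; simp only [intU, intB] at h1 h2 ⊢; omega
  case r4 =>
    intro _ _ i c h1 h2
    simp only [intU, intB] at h1 h2 ⊢
    have h3 := c.2
    refine ⟨⟨y, by omega⟩, ?_, rfl⟩
    rw [Fin.le_def]
    simp only
    omega
  case rl => intro _ _ i h1; simp only [intB] at h1 ⊢; omega
  case l01 => intro _ _ h1; simp only [intB] at h1 ⊢; have := rc_le x; omega
  case l10 => intro _ _ h1 h2; simp only [intB] at h1 h2 ⊢; have := rc_le x; omega
  case l0 => intro _ _ h1; simp only [intU, intB, Fin.val_zero] at h1 ⊢; omega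
  case p0 => intro _ _ h1 h2; simp only [intU, intB, Fin.val_zero] at h1 h2; omega
  case e1 => intro _ _ h1 h2; simp only [intU, intB] at h1 h2 ⊢; omega
  case e2 => intro _ _ h1 h2; simp only [intU, intB] at h1 h2 ⊢; omega
  case s1 =>
    intro _ h1
    simp only [intU, intB, Fin.val_zero] at h1 ⊢
    rw [h1]
    constructor
    · intro h2
      exact (rc_succ_eq h2).1
    · intro h2
      by_contra h3
      have := (rc_succ_ne h3).1
      omega
  case sb => intro _ _ h1; simp only [intB] at h1 ⊢; rw [h1]
  case i1 => intro _ _ h1; simp only [intB] at h1 ⊢; omega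
  case i2 => intro _ _ h1; simp only [intU, intB, Fin.val_zero] at h1 ⊢; omega
  case i3 => intro _ _ h1; simp only [intU, intB] at h1 ⊢; omega
  case i4 => intro _ _ h1 h2; simp only [intU, intB, Fin.val_zero] at h1 h2; omega
  case g1 => intro _ _ h1; simp only [intU, intB] at h1 ⊢; omega
  case g2 => intro _ _ h1; simp only [intU, intB] at h1 ⊢; omega
  case g3 =>
    intro _ _ h1 h2 a
    simp only [intU, intB] at h1 h2 ⊢
    have h3 : (x : ℕ) = y := by omega
    rw [h3]
  case g4 =>
    intro _ _
    have h1 := hs.1 x y hx hy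
    have h2 : (intB n b0 (k, x) (l, y) .Le ∧ intB n b0 (k, x) (l, y) .Ge) = ((x : ℕ) = y) := by
      simp only [intB]
      apply propext
      omega
    rw [h2]
    exact h1

end Pool.Agent.Helper37.PX
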