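import Mathlib
import Pool.Agent.Helper37.PX.AInt

set_option autoImplicit false

/-!
# PX-N: duties of the intended structure for pairs of kinds (1,0), (0,1), (1,1)

Numbers `i`, `j` of `x`, `y`. Note: `MR s v w` gives `q(w) ≤ q(rc s v)`, `4 ≤ rc s v ≤ q(v)`, so `q(w) < q(v)`, and even
`w + 1 < v` (`w < T (q(w) + 1) ≤ T (q(rc s v) + 1)`, `q(rc s v) + 1 < rc s v ≤ q(v)` by `rc_big`, `T_rc_le`); also `q(w) + 1 < rc s v`.
* (1,0): `x = (1, i)`, `y = (0, j)`. `wDC` (`MM y x`): `z` = number `rc false i + 1`; then the premises of `wDL` (`j ≤ rc true i` or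
  `j = rc false i + 1`) and of `wP` (`j = i`) are false, because `rc true i + 1 < rc s j ≤ j` and `q(i) < q(j)`. Otherwise `wDL`: `z` = number `j - 1` (`j ≥ 1`); if also `i = j` (`wP`): then
  `j ≤ rc true j` or `j = rc false j + 1` forces `j ≤ 3` (`rc_big`) and `z` = number `j - 1` is `rc false j` (`j = 1, 2`; `j = 3` impossible). Otherwise `wP`: `z` = number `rc false j`.
* (0,1): `x = (0, i)`, `y = (1, j)`. `nwDB` (`MM x y`, `rc false j ≠ rc true j`): `z = (1, j + 1)`, same block (`rc_succ_ne`), `j + 1 < n`; the premise of `nwDA`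
  (`i ≤ rc true j`) and of `nwDF` (same block) are false. Otherwise `nwDA` (`4 ≤ i ≤ rc true j`): `z = (1, T (rc true i))`; premise of `nwDF` false
  (`rc true i < i ≤ rc true j`). Otherwise `nwDF`: `z` = number `rc true i`.
* (1,1): `i = j`: `z = (0, i)` (`dW`), other premises false. `MM x y` (so `j + 1 < i`): `wwDB`: `z = (1, j + 1)` if `y` is no block end; other premises false. `MM y x`: `wwDC`: `z` = number
  `rc false i + 1`. `j = i + 1`: `wwE4`: `z` = number `rc true i`. `i = j + 1`: `wwE3`: `z` = number `rc false j + 1`. Else `wwX`: `rc_inj`.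
-/

namespace Pool.Agent.Helper37.PX

section W

variable {U B : Type} {S : LocSys U B} {n : ℕ} {u0 : ℕ → U → Prop} {b0 : ℕ → ℕ → B → Prop}

private theorem mr1 {s : Bool} {v w : ℕ} (h4 : 4 ≤ rc s v) (h : rc true w ≤ rc true (rc s v)) :
    rc true w + 1 < rc s v := by
  have := rc_big h4
  omega

private theorem mr2 {s : Bool} {v w : ℕ} (h4 : 4 ≤ rc s v) (h : rc true w ≤ rc true (rc s v)) :
    rc true w + 1 < rc true v := by
  have := mr1 h4 h
  have := rc_le_true s v
  omega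

private theorem mr3 {s : Bool} {v w : ℕ} (h4 : 4 ≤ rc s v) (h : rc true w ≤ rc true (rc s v)) :
    w + 1 < v := by
  have h1 := mr2 h4 h
  have h2 := lt_T_succ w
  have h3 := T_rc_le v
  have h5 := T_mono (p := rc true w + 1 + 1) (q := rc true v) (by omega)
  rw [T_succ] at h5
  omega

private theorem mk10 (i j : Fin n) (z : Fin 4 × Fin n)
    (h1 : (j : ℕ) ≤ rc true i ∨ (j : ℕ) = rc false i + 1 → (j : ℕ) ≠ 0 →
      z.1 = 0 ∧ (j : ℕ) = z.2 + 1)
    (h2 : ∀ s : Bool, 4 ≤ rc s j → rc true i ≤ rc true (rc s j) →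
      z.1 = 0 ∧ (z.2 : ℕ) = rc false i + 1)
    (h3 : (j : ℕ) = i → z.1 = 0 ∧ (z.2 : ℕ) = rc false i) :
    Du (intU n u0) (intB n b0) (fun s t => s = t) S (1, i) (0, j) z := by
  constructor
  case wDL =>
    intro _ _ h h0
    obtain ⟨h4, h5⟩ := h1 h h0
    have h6 := rc_le (i : ℕ)
    refine ⟨h4, h5, fun h7 => ?_, fun h7 => ?_⟩
    · have h8 : (j : ℕ) ≤ rc true i := h7
      refine ⟨show (z.2 : ℕ) ≤ rc true i by omega, show ¬ (z.2 : ℕ) = rc true i by omega, ?_⟩
      show (j : ℕ) ≤ rc false i ↔ (z.2 : ℕ) ≤ rc false i ∧ ¬ (z.2 : ℕ) = rc false i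
      omega
    · have h8 : (j : ℕ) = rc false i + 1 := h7
      show (z.2 : ℕ) = rc false i
      omega
  case wDC =>
    rintro _ _ ⟨s, h4, h5⟩
    obtain ⟨h6, h7⟩ := h2 s h4 h5
    refine ⟨h6, h7, ?_⟩
    rintro t ⟨h8, h9⟩
    have h10 : rc true (i : ℕ) + 1 < rc t (j : ℕ) := mr1 h8 h9
    have h11 := rc_le (i : ℕ)
    exact ⟨show (z.2 : ℕ) ≤ rc t j by omega, show ¬ (z.2 : ℕ) = rc t j by omega⟩
  case wP =>
    intro _ _ h
    have h4 : (j : ℕ) = i := h
    obtain ⟨h6, h7⟩ := h3 h4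
    refine ⟨h6, show (z.2 : ℕ) = rc false i from h7, show (z.2 : ℕ) = rc false j from ?_⟩
    rw [h7, h4]
  case lS =>
    intro c hc g _
    have g' : (1 : Fin 4) = c := g
    subst g'
    rcases hc with hc | hc <;> exact absurd hc (by decide)
  case lX =>
    intro c hc g _
    have g' : (1 : Fin 4) = c := g
    subst g'
    rcases hc with hc | hc <;> exact absurd hc (by decide)
  all_goals (clear h1 h2 h3; intros; simp_all [intU])

private theorem mk01 (i j : Fin n) (z : Fin 4 × Fin n)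
    (h1 : 4 ≤ (i : ℕ) → (i : ℕ) ≤ rc true j → z.1 = 1 ∧ rc false z.2 = 0 ∧ rc true z.2 = rc true i)
    (h2 : ∀ s : Bool, 4 ≤ rc s i → rc true j ≤ rc true (rc s i) → rc false (j : ℕ) ≠ rc true j →
      z.1 = 1 ∧ (z.2 : ℕ) = j + 1)
    (h3 : rc true (i : ℕ) = rc true j → z.1 = 0 ∧ (z.2 : ℕ) = rc true i) :
    Du (intU n u0) (intB n b0) (fun s t => s = t) S (0, i) (1, j) z := by
  constructor
  case nwDA =>
    intro _ _ h h0
    have hi : 4 ≤ (i : ℕ) := by
      by_contra hc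
      exact h ⟨⟨(i : ℕ), by omega⟩, rfl⟩
    obtain ⟨h4, h5, h6⟩ := h1 hi h0
    refine ⟨h4, h5, h6.symm, ?_⟩
    intro s h7
    have h8 : (i : ℕ) ≤ rc s j := h7
    have h9 : 4 ≤ rc s (j : ℕ) := by omega
    exact ⟨h9, (show rc true (z.2 : ℕ) ≤ rc true (rc s j) from h6 ▸ rc_true_mono h8)⟩
  case nwDB =>
    rintro _ _ ⟨s, h4, h5⟩ h0
    have hne : rc false (j : ℕ) ≠ rc true j := h0
    obtain ⟨h6, h7⟩ := h2 s h4 h5 hne
    refine ⟨h6, h7, ?_⟩
    rintro t ⟨h8, h9⟩
    refine ⟨h8, show rc true (z.2 : ℕ) ≤ rc true (rc t i) from ?_⟩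
    rw [h7, (rc_succ_ne hne).2]
    exact h9
  case nwDF =>
    intro _ _ h
    have h4 : rc true (i : ℕ) = rc true j := h
    obtain ⟨h6, h7⟩ := h3 h4
    refine ⟨h6, show (z.2 : ℕ) = rc true i from h7, show (z.2 : ℕ) = rc true j from ?_⟩
    rw [h7, h4]
  case lS =>
    intro c hc g _
    have g' : (0 : Fin 4) = c := g
    subst g'
    rcases hc with hc | hc <;> exact absurd hc (by decide)
  case lX =>
    intro c hc g _
    have g' : (0 : Fin 4) = c := g
    subst g'
    rcases hc with hc | hc <;> exact absurd hc (by decide)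
  all_goals (clear h1 h2 h3; intros; simp_all [intU])

private theorem mk11 (i j : Fin n) (z : Fin 4 × Fin n)
    (h0 : i = j → z.1 = 0 ∧ (z.2 : ℕ) = i)
    (h1 : ∀ s : Bool, 4 ≤ rc s i → rc true j ≤ rc true (rc s i) → rc false (j : ℕ) ≠ rc true j →
      z.1 = 1 ∧ (z.2 : ℕ) = j + 1)
    (h2 : ∀ s : Bool, 4 ≤ rc s j → rc true i ≤ rc true (rc s j) →
      z.1 = 0 ∧ (z.2 : ℕ) = rc false i + 1)
    (h3 : (i : ℕ) = j + 1 → z.1 = 0 ∧ (z.2 : ℕ) = rc false j + 1)
    (h4 : (j : ℕ) = i + 1 → rc false (i : ℕ) ≠ rc true i → z.1 = 0 ∧ (z.2 : ℕ) = rc true i)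
    (h5 : i ≠ j → (∀ s : Bool, ¬ (4 ≤ rc s i ∧ rc true j ≤ rc true (rc s i))) →
      (∀ s : Bool, ¬ (4 ≤ rc s j ∧ rc true i ≤ rc true (rc s j))) → (j : ℕ) ≠ i + 1 →
      (i : ℕ) ≠ j + 1 → z.1 = 0 ∧ ∃ s : Bool, (z.2 : ℕ) = rc s i ∧ (z.2 : ℕ) ≠ rc s j) :
    Du (intU n u0) (intB n b0) (fun s t => s = t) S (1, i) (1, j) z := by
  constructor
  case dW =>
    intro _ h
    have h6 : i = j := congrArg Prod.snd h
    obtain ⟨h7, h8⟩ := h0 h6
    refine ⟨h7, show (z.2 : ℕ) = i from h8⟩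
  case wwDB =>
    rintro _ _ ⟨s, h4, h5⟩ h0
    have hne : rc false (j : ℕ) ≠ rc true j := h0
    obtain ⟨h6, h7⟩ := h1 s h4 h5 hne
    refine ⟨h6, h7, ?_⟩
    rintro t ⟨h8, h9⟩
    refine ⟨h8, show rc true (z.2 : ℕ) ≤ rc true (rc t i) from ?_⟩
    rw [h7, (rc_succ_ne hne).2]
    exact h9
  case wwDC =>
    rintro _ _ ⟨s, h4, h5⟩
    obtain ⟨h6, h7⟩ := h2 s h4 h5
    refine ⟨h6, h7, ?_⟩
    rintro t ⟨h8, h9⟩
    have h10 : rc true (i : ℕ) + 1 < rc t (j : ℕ) := mr1 h8 h9
    have h11 := rc_le (i : ℕ)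
    exact ⟨show (z.2 : ℕ) ≤ rc t j by omega, show ¬ (z.2 : ℕ) = rc t j by omega⟩
  case wwE3 =>
    intro _ _ h
    have h6 : (i : ℕ) = j + 1 := h
    obtain ⟨h7, h8⟩ := h3 h6
    refine ⟨h7, h8, fun h9 => ?_, fun h9 => ?_⟩
    · have h10 : rc false (j : ℕ) ≠ rc true j := h9
      show (z.2 : ℕ) = rc false i
      rw [h8, h6, (rc_succ_ne h10).1]
    · have h10 : rc false (j : ℕ) = rc true j := h9
      show (z.2 : ℕ) = rc true i
      rw [h8, h6, (rc_succ_eq h10).2, h10]
  case wwE4 =>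
    intro _ _ h h9
    have h6 : (j : ℕ) = i + 1 := h
    have h10 : rc false (i : ℕ) ≠ rc true i := h9
    obtain ⟨h7, h8⟩ := h4 h6 h10
    refine ⟨h7, show (z.2 : ℕ) = rc true i from h8, show (z.2 : ℕ) = rc true j from ?_⟩
    rw [h8, h6, (rc_succ_ne h10).2]
  case wwX =>
    intro _ _ g0 g1 g2 g3 g4
    obtain ⟨h7, s, h8, h9⟩ := h5 (fun h => g0 (by rw [h])) (fun s hs => g1 ⟨s, hs⟩)
      (fun s hs => g2 ⟨s, hs⟩) g3 g4
    exact ⟨h7, s, h8, h9⟩
  case lS =>
    intro c hc g _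
    have g' : (1 : Fin 4) = c := g
    subst g'
    rcases hc with hc | hc <;> exact absurd hc (by decide)
  case lX =>
    intro c hc g _
    have g' : (1 : Fin 4) = c := g
    subst g'
    rcases hc with hc | hc <;> exact absurd hc (by decide)
  all_goals (clear h0 h1 h2 h3 h4 h5; intros; simp_all [intU])

private theorem ex10 (i j : Fin n) :
    ∃ z, Du (intU n u0) (intB n b0) (fun s t => s = t) S (1, i) (0, j) z := by
  by_cases hM : ∃ s : Bool, 4 ≤ rc s j ∧ rc true i ≤ rc true (rc s j)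
  · obtain ⟨s, h4, h5⟩ := hM
    have h6 := mr1 h4 h5
    have h7 := mr2 h4 h5
    have h8 := rc_le (i : ℕ)
    have h9 := rc_true_le (j : ℕ)
    have h10 := j.2
    refine ⟨(0, ⟨rc false i + 1, by omega⟩), mk10 i j _ ?_ ?_ ?_⟩
    · intro h11 _
      omega
    · intro _ _ _
      exact ⟨rfl, rfl⟩
    · intro h11
      rw [h11] at h7
      omega
  · have hM' : ∀ s : Bool, 4 ≤ rc s j → rc true i ≤ rc true (rc s j) → False :=
      fun s h4 h5 => hM ⟨s, h4, h5⟩
    by_cases hD : ((j : ℕ) ≤ rc true i ∨ (j : ℕ) = rc false i + 1) ∧ (j : ℕ) ≠ 0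
    · obtain ⟨hD1, hD2⟩ := hD
      have h10 := j.2
      refine ⟨(0, ⟨(j : ℕ) - 1, by omega⟩), mk10 i j _ ?_ ?_ ?_⟩
      · intro _ _
        exact ⟨rfl, show (j : ℕ) = (j : ℕ) - 1 + 1 by omega⟩
      · intro s h4 h5
        exact (hM' s h4 h5).elim
      · intro h11
        refine ⟨rfl, show (j : ℕ) - 1 = rc false i from ?_⟩
        have h12 := rc_le (i : ℕ)
        have h13 : (i : ℕ) < 4 := by
          by_contra hc
          have := rc_big (x := (i : ℕ)) (by omega)
          omega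
        obtain ⟨⟨a0, a1⟩, ⟨a2, a3⟩, ⟨a4, a5⟩, ⟨a6, a7⟩, _⟩ := rc_small
        have h14 : (i : ℕ) = 0 ∨ (i : ℕ) = 1 ∨ (i : ℕ) = 2 ∨ (i : ℕ) = 3 := by omega
        rcases h14 with h14 | h14 | h14 | h14 <;> rw [h14] at h11 hD1 ⊢ <;> omega
    · have h10 := j.2
      have h11 := rc_le' false (j : ℕ)
      refine ⟨(0, ⟨rc false j, by omega⟩), mk10 i j _ ?_ ?_ ?_⟩
      · intro h h'
        exact (hD ⟨h, h'⟩).elim
      · intro s h4 h5
        exact (hM' s h4 h5).elim
      · intro h12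
        refine ⟨rfl, show rc false (j : ℕ) = rc false i from ?_⟩
        rw [h12]

private theorem ex01 (i j : Fin n) :
    ∃ z, Du (intU n u0) (intB n b0) (fun s t => s = t) S (0, i) (1, j) z := by
  have hi := i.2
  have hj := j.2
  by_cases hM : (∃ s : Bool, 4 ≤ rc s i ∧ rc true j ≤ rc true (rc s i)) ∧
      rc false (j : ℕ) ≠ rc true j
  · obtain ⟨⟨s, h4, h5⟩, hne⟩ := hM
    have h6 := mr1 h4 h5
    have h7 := mr2 h4 h5
    have h8 := mr3 h4 h5
    have h9 := rc_true_le (i : ℕ)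
    refine ⟨(1, ⟨(j : ℕ) + 1, by omega⟩), mk01 i j _ ?_ ?_ ?_⟩
    · intro _ h11
      omega
    · intro _ _ _ _
      exact ⟨rfl, rfl⟩
    · intro h11
      omega
  · have hM' : ∀ s : Bool, 4 ≤ rc s i → rc true j ≤ rc true (rc s i) →
        rc false (j : ℕ) ≠ rc true j → False := fun s h4 h5 h6 => hM ⟨⟨s, h4, h5⟩, h6⟩
    by_cases hA : 4 ≤ (i : ℕ) ∧ (i : ℕ) ≤ rc true j
    · obtain ⟨hA1, hA2⟩ := hA
      have h9 := T_rc_le (i : ℕ)
      have h10 := rc_code (p := 0) (q := rc true (i : ℕ)) (Nat.zero_le _)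
      rw [Nat.add_zero] at h10
      refine ⟨(1, ⟨T (rc true i), by omega⟩), mk01 i j _ ?_ ?_ ?_⟩
      · intro _ _
        exact ⟨rfl, h10.1, h10.2⟩
      · intro s h4 h5 h6
        exact (hM' s h4 h5 h6).elim
      · intro h11
        have := rc_rc_lt hA1
        omega
    · have h9 := rc_true_le (i : ℕ)
      refine ⟨(0, ⟨rc true i, by omega⟩), mk01 i j _ ?_ ?_ ?_⟩
      · intro h11 h12
        exact (hA ⟨h11, h12⟩).elim
      · intro s h4 h5 h6
        exact (hM' s h4 h5 h6).elim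
      · intro _
        exact ⟨rfl, rfl⟩

private theorem ex11 (i j : Fin n) :
    ∃ z, Du (intU n u0) (intB n b0) (fun s t => s = t) S (1, i) (1, j) z := by
  have hi := i.2
  have hj := j.2
  by_cases hM : ∃ s : Bool, 4 ≤ rc s i ∧ rc true j ≤ rc true (rc s i)
  · obtain ⟨s, h4, h5⟩ := hM
    have h8 := mr3 h4 h5
    refine ⟨(1, ⟨(j : ℕ) + 1, by omega⟩), mk11 i j _ ?_ ?_ ?_ ?_ ?_ ?_⟩
    · intro h
      rw [h] at h8
      omega
    · intro _ _ _ _
      exact ⟨rfl, rfl⟩
    · intro t h9 h10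
      have := mr3 h9 h10
      omega
    · intro h
      omega
    · intro h
      omega
    · intro _ h
      exact (h s ⟨h4, h5⟩).elim
  · have hM1 : ∀ s : Bool, 4 ≤ rc s i → rc true j ≤ rc true (rc s i) → False :=
      fun s h4 h5 => hM ⟨s, h4, h5⟩
    by_cases hN : ∃ s : Bool, 4 ≤ rc s j ∧ rc true i ≤ rc true (rc s j)
    · obtain ⟨s, h4, h5⟩ := hN
      have h6 := mr2 h4 h5
      have h8 := mr3 h4 h5
      have h9 := rc_le (i : ℕ)
      have h10 := rc_true_le (j : ℕ)
      refine ⟨(0, ⟨rc false i + 1, by omega⟩), mk11 i j _ ?_ ?_ ?_ ?_ ?_ ?_⟩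
      · intro h
        rw [h] at h8
        omega
      · intro t h11 h12
        exact (hM1 t h11 h12).elim
      · intro _ _ _
        exact ⟨rfl, rfl⟩
      · intro h
        omega
      · intro h
        omega
      · intro _ _ h
        exact (h s ⟨h4, h5⟩).elim
    · have hN1 : ∀ s : Bool, 4 ≤ rc s j → rc true i ≤ rc true (rc s j) → False :=
        fun s h4 h5 => hN ⟨s, h4, h5⟩
      by_cases h0 : i = j
      · refine ⟨(0, i), mk11 i j _ ?_ ?_ ?_ ?_ ?_ ?_⟩
        · intro _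
          exact ⟨rfl, rfl⟩
        · intro t h11 h12
          exact (hM1 t h11 h12).elim
        · intro t h11 h12
          exact (hN1 t h11 h12).elim
        · intro h
          rw [h0] at h
          omega
        · intro h
          rw [h0] at h
          omega
        · intro h
          exact (h h0).elim
      · by_cases h1 : (i : ℕ) = j + 1
        · have h2 := rc_le' false (j : ℕ)
          refine ⟨(0, ⟨rc false j + 1, by omega⟩), mk11 i j _ ?_ ?_ ?_ ?_ ?_ ?_⟩
          · intro h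
            exact (h0 h).elim
          · intro t h11 h12
            exact (hM1 t h11 h12).elim
          · intro t h11 h12
            exact (hN1 t h11 h12).elim
          · intro _
            exact ⟨rfl, rfl⟩
          · intro h
            omega
          · intro _ _ _ _ h
            exact (h h1).elim
        · by_cases h2 : (j : ℕ) = i + 1
          · have h3 := rc_le' true (i : ℕ)
            refine ⟨(0, ⟨rc true i, by omega⟩), mk11 i j _ ?_ ?_ ?_ ?_ ?_ ?_⟩
            · intro h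
              exact (h0 h).elim
            · intro t h11 h12
              exact (hM1 t h11 h12).elim
            · intro t h11 h12
              exact (hN1 t h11 h12).elim
            · intro h
              exact (h1 h).elim
            · intro _ _
              exact ⟨rfl, rfl⟩
            · intro _ _ _ h
              exact (h h2).elim
          · have h3 : ∃ s : Bool, rc s i ≠ rc s j := by
              by_contra hc
              push Not at hc
              exact h0 (Fin.ext (rc_inj (hc false) (hc true)))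
            obtain ⟨s, hs⟩ := h3
            have h4 := rc_le' s (i : ℕ)
            refine ⟨(0, ⟨rc s i, by omega⟩), mk11 i j _ ?_ ?_ ?_ ?_ ?_ ?_⟩
            · intro h
              exact (h0 h).elim
            · intro t h11 h12
              exact (hM1 t h11 h12).elim
            · intro t h11 h12
              exact (hN1 t h11 h12).elim
            · intro h
              exact (h1 h).elim
            · intro h
              exact (h2 h).elim
            · intro _ _ _ _ _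
              exact ⟨rfl, s, rfl, hs⟩

end W


theorem int_duW {U B : Type} {S : LocSys U B} {n : ℕ} (hn : 5 ≤ n) {u0 : ℕ → U → Prop}
    {b0 : ℕ → ℕ → B → Prop} (x y : Fin 4 × Fin n)
    (hxy : (x.1 = 1 ∧ y.1 = 0) ∨ (x.1 = 0 ∧ y.1 = 1) ∨ (x.1 = 1 ∧ y.1 = 1)) :
    ∃ z, Du (intU n u0) (intB n b0) (fun s t => s = t) S x y z := by
  obtain ⟨kx, i⟩ := x
  obtain ⟨ky, j⟩ := y
  rcases hxy with ⟨h1, h2⟩ | ⟨h1, h2⟩ | ⟨h1, h2⟩
  · obtain rfl : kx = 1 := h1
    obtain rfl : ky = 0 := h2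
    exact ex10 i j
  · obtain rfl : kx = 0 := h1
    obtain rfl : ky = 1 := h2
    exact ex01 i j
  · obtain rfl : kx = 1 := h1
    obtain rfl : ky = 1 := h2
    exact ex11 i j

end Pool.Agent.Helper37.PX
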