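import Mathlib
import Pool.Agent.Helper37.PX.AGood
import Pool.Agent.Helper37.PX.Cod

set_option autoImplicit false

/-!
# PX-F: sources with a small good value have no other value (the key lemma)

Setting: a model (`h`), good elements `a 0, …, a k`, `3 ≤ k`. `NK u v`: `v` is not a king of kind 0.

`exact` is proved by strong induction on `j` (for all `i`, `v`, `y` together). For `4 ≤ j` and an element
`y ≠ a t` (all `t ≤ k`) with `LR i v y` there is a chain of proxies `w` with the positions `a 0, …, a (j - 1)`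
and `MR i v w`; none of them is an end of a block because otherwise `y` would have the code of a good
element; duty DC at the last proxy gives a contradiction to `R i v (a j)`.
-/

namespace Pool.Agent.Helper37.PX

variable {U B M : Type} {u : M → AU U → Prop} {b : M → M → AB B → Prop} {S : LocSys U B} {k : ℕ}
  {a : ℕ → M}

/-- Not a king of kind 0. -/
def NK (u : M → AU U → Prop) (v : M) : Prop := u v (.kd 0) → ¬ King u v

theorem Model.un (h : Model u b S) (x y : M) : Un u b (fun s t => s = t) S x y :=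
  (h x y).choose_spec.1

theorem rc_lt_four (i : Bool) (c : Fin 4) : rc i c < 4 := by
  revert i c; decide

theorem rc_false_succ_lt_four (c : Fin 4) : rc false c + 1 < 4 := by
  revert c; decide

theorem dl_exists (h : Model u b S) {v : M} (hv : Src u v) (hK : NK u v) {y : M}
    (hy : u y (.kd 0)) (h0 : ¬ u y (.A 0)) (hl : b v y (.LR true) ∨ b v y .P1) :
    ∃ z, DL u b v y z := by
  obtain ⟨z, _, hD⟩ := h v y
  rcases hv with hv | hv
  · exact ⟨z, hD.nDL hv hy (hK hv) hl h0⟩
  · exact ⟨z, hD.wDL hv hy hl h0⟩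

theorem Good.not_zero (hG : Good u b k a) {j : ℕ} (hj : j + 1 ≤ k) : ¬ u (a (j + 1)) (.A 0) := by
  intro hc
  have := (hG.king (j + 1) hj 0).1 hc
  simp at this

theorem lr_true (h : Model u b S) {v y : M} (hv : Src u v) (hy : u y (.kd 0)) {i : Bool}
    (hl : b v y (.LR i)) : b v y (.LR true) := by
  cases i
  · exact (h.un v y).l01 hv hy hl
  · exact hl

theorem dl_good (h : Model u b S) (hG : Good u b k a) {v : M} (hv : Src u v) (hK : NK u v) {j : ℕ}
    (hj : j + 1 ≤ k) (hl : b v (a (j + 1)) (.LR true) ∨ b v (a (j + 1)) .P1) :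
    DL u b v (a (j + 1)) (a j) := by
  obtain ⟨z, hz⟩ := dl_exists h hv hK (hG.kind _ hj) (hG.not_zero hj) hl
  obtain ⟨j', _, h2, h3⟩ := hG.predU (j + 1) hj z hz.1 hz.2.1
  have h4 : j' = j := by omega
  rw [h4] at h3
  rw [← h3]
  exact hz

theorem down (h : Model u b S) (hG : Good u b k a) {v : M} (hv : Src u v) (hK : NK u v) {j : ℕ}
    (hj : j + 1 ≤ k) (i : Bool) (hl : b v (a (j + 1)) (.LR i)) :
    b v (a j) (.LR i) ∧ ¬ b v (a j) (.R i) := by
  have hL := lr_true h hv (hG.kind _ hj) hl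
  have hD := (dl_good h hG hv hK hj (Or.inl hL)).2.2.1 hL
  cases i
  · exact hD.2.2.1 hl
  · exact ⟨hD.1, hD.2.1⟩

theorem below (h : Model u b S) (hG : Good u b k a) {v : M} (hv : Src u v) (hK : NK u v) {j t : ℕ}
    (hj : j ≤ k) (ht : t < j) (i : Bool) (hl : b v (a j) (.LR i)) :
    b v (a t) (.LR i) ∧ ¬ b v (a t) (.R i) := by
  induction j with
  | zero => omega
  | succ j ih =>
    have h1 := down h hG hv hK hj i hl
    rcases Nat.lt_or_ge t j with h2 | h2
    · exact ih (by omega) h2 h1.1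
    · have : t = j := by omega
      rw [this]
      exact h1

/-- A king of kind 0 has exactly one value. -/
theorem king_val (h : Model u b S) (hG : Good u b k a) {v : M} (hv : u v (.kd 0)) {c : Fin 4}
    (hc : u v (.A c)) {j : ℕ} (hj : j ≤ k) (i : Bool) : b v (a j) (.R i) ↔ j = rc i c := by
  have h1 := (h.un v (a j)).kR hv (hG.kind j hj) i c ⟨rc i c, rc_lt_four i c⟩ rfl hc
  rw [h1, hG.king j hj]

theorem not_nk {v : M} (hK : ¬ NK u v) : u v (.kd 0) ∧ ∃ c : Fin 4, u v (.A c) := by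
  unfold NK King at hK
  by_contra hc
  apply hK
  intro h1 h2
  exact hc ⟨h1, h2⟩

theorem r_inj (h : Model u b S) (hG : Good u b k a) (hk : 3 ≤ k) {v : M} (hv : Src u v) {j t : ℕ}
    (hj : j ≤ k) (ht : t ≤ k) (i : Bool) (h1 : b v (a j) (.R i)) (h2 : b v (a t) (.R i)) : j = t := by
  by_cases hK : NK u v
  · rcases Nat.lt_trichotomy j t with h3 | h3 | h3
    · exact absurd h1 (below h hG hv hK ht h3 i ((h.un v (a t)).rl hv (hG.kind t ht) i h2)).2
    · exact h3
    · exact absurd h2 (below h hG hv hK hj h3 i ((h.un v (a j)).rl hv (hG.kind j hj) i h1)).2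
  · obtain ⟨hv0, c, hc⟩ := not_nk hK
    rw [(king_val h hG hv0 hc hj i).1 h1, (king_val h hG hv0 hc ht i).1 h2]

theorem pos_exists (h : Model u b S) (hG : Good u b k a) {v : M} (hv : Src u v) (hK : NK u v)
    {l : ℕ} (hl : l ≤ k) (h1 : b v (a l) (.R true)) : ∃ t ≤ l, b v (a t) (.R false) := by
  have hLl : b v (a l) (.LR true) := (h.un v (a l)).rl hv (hG.kind l hl) true h1
  have hL : ∀ t ≤ l, b v (a t) (.LR true) := by
    intro t ht
    rcases Nat.lt_or_ge t l with h2 | h2
    · exact (below h hG hv hK hl h2 true hLl).1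
    · have : t = l := by omega
      rw [this]
      exact hLl
  by_contra hc
  have hn : ∀ t ≤ l, ¬ b v (a t) (.R false) := fun t ht h2 => hc ⟨t, ht, h2⟩
  have hF : ∀ t ≤ l, b v (a t) (.LR false) := by
    intro t
    induction t with
    | zero =>
      intro _
      exact (h.un v (a 0)).l0 hv (hG.kind 0 (Nat.zero_le _)) ((hG.king 0 (Nat.zero_le _) 0).2 rfl)
    | succ t ih =>
      intro ht
      have h2 := ih (by omega)
      have h3 := (dl_good h hG hv hK (j := t) (by omega) (Or.inl (hL _ ht))).2.2.1 (hL _ ht)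
      exact h3.2.2.2 ⟨h2, hn t (by omega)⟩
  exact hn l le_rfl ((h.un v (a l)).l10 hv (hG.kind l hl) (hF l le_rfl) h1)

/-- `P1` from the functionality of the position. -/
theorem p1_step (h : Model u b S) (hG : Good u b k a) {j : ℕ} (hj : j < k)
    {v : M} (hv : Src u v) (h1 : b v (a j) (.R false))
    (hf : ∀ y, u y (.kd 0) → b v y (.R false) → y = a j) (hk : 3 ≤ k) {y : M}
    (hy : u y (.kd 0)) (h2 : b v y .P1) : y = a (j + 1) := by
  by_cases hK : NK u v
  · have h0 : ¬ u y (.A 0) := fun hc => (h.un v y).p0 hv hy hc h2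
    obtain ⟨z, hz⟩ := dl_exists h hv hK hy h0 (Or.inr h2)
    have h3 := hf z hz.1 (hz.2.2.2 h2)
    have h4 := hz.2.1
    rw [h3] at h4
    exact hG.succU j hj y hy h4
  · obtain ⟨hv0, c, hc⟩ := not_nk hK
    have h3 := (king_val h hG hv0 hc (le_of_lt hj) false).1 h1
    have h4 := ((h.un v y).kP1 hv0 hy c ⟨rc false c + 1, rc_false_succ_lt_four c⟩ rfl hc).1 h2
    have h5 : u (a (j + 1)) (.A ⟨rc false c + 1, rc_false_succ_lt_four c⟩) := by
      rw [hG.king (j + 1) hj]
      simp only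
      omega
    exact (h.un y (a (j + 1))).kU hy (hG.kind _ hj) _ h4 h5

/-- The functionality of a value from the statement of `exact` for it. -/
theorem funct_aux (h : Model u b S) (hG : Good u b k a) (hk : 3 ≤ k) {j : ℕ} (hj : j ≤ k)
    {i : Bool} {v : M} (hv : Src u v) (h1 : b v (a j) (.R i))
    (hE : ∀ y, u y (.kd 0) → b v y (.LR i) → ∃ t ≤ j, y = a t) {y : M}
    (hy : u y (.kd 0)) (h2 : b v y (.R i)) : y = a j := by
  obtain ⟨t, ht, h3⟩ := hE y hy ((h.un v y).rl hv hy i h2)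
  rw [h3] at h2
  have := r_inj h hG hk hv hj (le_trans ht hj) i h1 h2
  rw [h3, this]

theorem exact_small (h : Model u b S) (hG : Good u b k a) (hk : 3 ≤ k) {j : ℕ} (hj : j < 4)
    (i : Bool) (v : M) (hv : Src u v) (h1 : b v (a j) (.R i)) (y : M) (hy : u y (.kd 0))
    (h2 : b v y (.LR i)) : ∃ t ≤ j, y = a t := by
  have hjk : j ≤ k := by omega
  have h3 : u (a j) (.A ⟨j, hj⟩) := by rw [hG.king j hjk]
  have h4 := (h.un v (a j)).r1 hv (hG.kind j hjk) i ⟨j, hj⟩ h1 h3
  obtain ⟨d, hd, h5⟩ := (h.un v y).r4 hv hy i ⟨j, hj⟩ h4 h2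
  have hd' : (d : ℕ) ≤ j := hd
  have h6 : u (a (d : ℕ)) (.A d) := by rw [hG.king _ (le_trans hd' hjk)]
  exact ⟨d, hd', (h.un y (a (d : ℕ))).kU hy (hG.kind _ (le_trans hd' hjk)) _ h5 h6⟩

theorem king_good (h : Model u b S) (hG : Good u b k a) (hk : 3 ≤ k) {y : M} (hy : u y (.kd 0))
    (hK : King u y) : ∃ t ≤ k, y = a t := by
  obtain ⟨c, hc⟩ := hK
  have hck : (c : ℕ) ≤ k := by have := c.2; omega
  have h6 : u (a (c : ℕ)) (.A c) := by rw [hG.king _ hck]
  exact ⟨c, hck, (h.un y (a (c : ℕ))).kU hy (hG.kind _ hck) _ hc h6⟩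

theorem exact (h : Model u b S) (hG : Good u b k a) (hk : 3 ≤ k) : ∀ j ≤ k, T j ≤ k + 1 →
    ∀ (i : Bool) (v : M), Src u v → b v (a j) (.R i) → ∀ y, u y (.kd 0) → b v y (.LR i) →
    ∃ t ≤ j, y = a t := by
  intro j
  induction j using Nat.strong_induction_on with
  | _ j ih =>
  intro hj hT i v hv h1 y hy hl
  rcases Nat.lt_or_ge j 4 with hj4 | hj4
  · exact exact_small h hG hk hj4 i v hv h1 y hy hl
  -- functionality for smaller values
  have hF : ∀ l < j, ∀ (s : Bool) (x : M), Src u x → b x (a l) (.R s) → ∀ z, u z (.kd 0) →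
      b x z (.R s) → z = a l := by
    intro l hlj s x hx h2 z hz h3
    refine funct_aux h hG hk (by omega) hx h2 ?_ hz h3
    exact ih l hlj (by omega) (le_trans (T_mono (le_of_lt hlj)) hT) s x hx h2
  have hNK : NK u v := by
    intro hv0 hKv
    obtain ⟨c, hc⟩ := hKv
    have h3 := (king_val h hG hv0 hc hj i).1 h1
    have h4 := rc_lt_four i c
    omega
  by_contra hne
  have hne' : ∀ t ≤ k, y ≠ a t := by
    intro t ht hy'
    rcases Nat.lt_or_ge j t with h2 | h2
    · rw [hy'] at hl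
      exact (below h hG hv hNK ht h2 i hl).2 h1
    · exact hne ⟨t, h2, hy'⟩
  have hKy : ¬ King u y := by
    intro hK
    obtain ⟨t, ht, h2⟩ := king_good h hG hk hy hK
    exact hne' t ht h2
  have hNKy : NK u y := fun _ => hKy
  have hL := lr_true h hv hy hl
  have hDA : ∃ z, DA u b v y z := by
    obtain ⟨z, _, hD⟩ := h y v
    rcases hv with hv | hv
    · exact ⟨z, hD.nDA hy hv hKy hL⟩
    · exact ⟨z, hD.nwDA hy hv hKy hL⟩
  -- the chain of proxies
  have hchain : ∀ l, l + 1 ≤ j → ∃ w, u w (.kd 1) ∧ b w (a l) (.R false) ∧ b v w (.MR i) ∧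
      ∀ q < j, b w (a q) (.R true) → b y (a q) (.R true) := by
    intro l
    induction l with
    | zero =>
      intro _
      obtain ⟨w, hw1, hw2, hw3, hw4⟩ := hDA
      refine ⟨w, hw1, ?_, hw4 i hl, ?_⟩
      · exact (h.un w (a 0)).r3 (Or.inr hw1) (hG.kind 0 (Nat.zero_le _)) false 0 hw2
          ((hG.king 0 (Nat.zero_le _) 0).2 rfl)
      · intro q hq h2
        obtain ⟨z, _, hD⟩ := h y w
        obtain ⟨hz1, hz2, hz3⟩ := hD.nwDF hy hw1 hw3
        rw [hF q hq true w (Or.inr hw1) h2 z hz1 hz3] at hz2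
        exact hz2
    | succ l ihl =>
      intro hl2
      obtain ⟨w, hw1, hw2, hw3, hw4⟩ := ihl (by omega)
      have hEB : ¬ u w .EB := by
        intro hE
        have h2 := (h.un w (a l)).e2 (Or.inr hw1) (hG.kind l (by omega)) hE hw2
        have h3 := hw4 l (by omega) h2
        obtain ⟨t, ht, h4⟩ := pos_exists h hG (Or.inl hy) hNKy (by omega : l ≤ k) h3
        have h5 := rc_code ht
        have h6 : T l + t ≤ k := by
          have h7 := T_mono (p := l + 1) (q := j) (by omega)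
          rw [T_succ] at h7
          omega
        refine hne' _ h6 (hG.code _ h6 y hy ?_ ?_)
        · rw [h5.1]; exact h4
        · rw [h5.2]; exact h3
      have hDB : ∃ z, DB u b v w z := by
        obtain ⟨z, _, hD⟩ := h v w
        rcases hv with hv | hv
        · exact ⟨z, hD.nwDB hv hw1 ⟨i, hw3⟩ hEB⟩
        · exact ⟨z, hD.wwDB hv hw1 ⟨i, hw3⟩ hEB⟩
      obtain ⟨w', hz1, hz2, hz3⟩ := hDB
      refine ⟨w', hz1, ?_, hz3 i hw3, ?_⟩
      · obtain ⟨t, _, hD⟩ := h w' w
        obtain ⟨ht1, ht2, ht3, _⟩ := hD.wwE3 hz1 hw1 hz2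
        have h8 : t = a (l + 1) := p1_step h hG (by omega) (Or.inr hw1) hw2
          (hF l (by omega) false w (Or.inr hw1) hw2) hk ht1 ht2
        rw [← h8]
        exact ht3 hEB
      · intro q hq h2
        obtain ⟨t, _, hD⟩ := h w w'
        obtain ⟨ht1, ht2, ht3⟩ := hD.wwE4 hw1 hz1 hz2 hEB
        rw [hF q hq true w' (Or.inr hz1) h2 t ht1 ht3] at ht2
        exact hw4 q hq ht2
  obtain ⟨l, hl1⟩ : ∃ l, j = l + 1 := ⟨j - 1, by omega⟩
  obtain ⟨w, hw1, hw2, hw3, _⟩ := hchain l (by omega)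
  have hDC : ∃ z, DC u b v w z := by
    obtain ⟨z, _, hD⟩ := h w v
    rcases hv with hv | hv
    · exact ⟨z, hD.wDC hw1 hv ⟨i, hw3⟩⟩
    · exact ⟨z, hD.wwDC hw1 hv ⟨i, hw3⟩⟩
  obtain ⟨z, hz1, hz2, hz3⟩ := hDC
  have h8 : z = a (l + 1) := p1_step h hG (by omega) (Or.inr hw1) hw2
    (hF l (by omega) false w (Or.inr hw1) hw2) hk hz1 hz2
  have h9 := (hz3 i hw3).2
  rw [h8, ← hl1] at h9
  exact h9 h1

theorem funct (h : Model u b S) (hG : Good u b k a) (hk : 3 ≤ k) {j : ℕ} (hj : j ≤ k)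
    (hT : T j ≤ k + 1) (i : Bool) {v : M} (hv : Src u v) (h1 : b v (a j) (.R i)) {y : M}
    (hy : u y (.kd 0)) (h2 : b v y (.R i)) : y = a j :=
  funct_aux h hG hk hj hv h1 (exact h hG hk j hj hT i v hv h1) hy h2

/-- `P1` of a source whose position is the good element `a j`, `j < k` (kings included). -/
theorem p1_good (h : Model u b S) (hG : Good u b k a) (hk : 3 ≤ k) {j : ℕ} (hj : j < k)
    (hT : T j ≤ k + 1) {v : M} (hv : Src u v) (h1 : b v (a j) (.R false)) {y : M}
    (hy : u y (.kd 0)) (h2 : b v y .P1) : y = a (j + 1) :=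
  p1_step h hG hj hv h1
    (fun _ hy' h' => funct h hG hk (le_of_lt hj) hT false hv h1 hy' h') hk hy h2

/-- If `P1 v (a (j+1))` then the position of `v` is `a j` (kings included). -/
theorem p1_back (h : Model u b S) (hG : Good u b k a) (hk : 3 ≤ k) {j : ℕ} (hj : j + 1 ≤ k)
    {v : M} (hv : Src u v) (h2 : b v (a (j + 1)) .P1) : b v (a j) (.R false) := by
  by_cases hK : NK u v
  · exact (dl_good h hG hv hK hj (Or.inr h2)).2.2.2 h2
  · obtain ⟨hv0, c, hc⟩ := not_nk hK
    have h4 := ((h.un v (a (j + 1))).kP1 hv0 (hG.kind _ hj) c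
      ⟨rc false c + 1, rc_false_succ_lt_four c⟩ rfl hc).1 h2
    rw [hG.king (j + 1) hj] at h4
    simp only at h4
    rw [king_val h hG hv0 hc (by omega) false]
    omega

end Pool.Agent.Helper37.PX
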