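import Mathlib
import Pool.Agent.Helper37.PX.Fun

set_option autoImplicit false

/-!
# PX-G: the next good element

Setting: a model, good `a 0, …, a k`, `3 ≤ k`; `p = rc false (k+1)`, `q = rc true (k+1)`; `T q ≤ k + 1` (`T_rc_le`), `p ≤ q`,
so `funct`, `exact` apply to the values `a p`, `a q` (`q ≤ k`: `rc_big`), `2 ≤ q`.

`code_unique`: two elements `y`, `y'` of kind 0 with values `a p`, `a q` are equal. Neither is good: if `y = a t` then `rc` of `t`
is `(p, q)` (`val`, `inj`), so `t = k + 1`. So no kings (kings of kind 0 are `a 0, …, a 3` by `kU`). If `y ≠ y'`, `tour`: WLOG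
`lt y' y`. Premises of `nLex` for the pair `(y, y')`: `¬ LR true y y'` (`exact`: `y'` would be good), `¬ P1 y y'` (`p1_good`),
`¬ S y' y`: else `nE3` (pair `(y, y')`): `t` with `P1 y' t`, so `t = a (p+1)` (`p1_good`; `p + 1 ≤ k`); if `¬ EB y'`:
`R false y (a (p+1))`, against `funct`; if `EB y'`: `R true y (a (p+1))` so `q = p + 1`, but `e2` for `y'`, `a p`: `R true y' (a p)`,
so `p = q`. Now `nLex` gives `z` with `R true y' z ∧ ¬ R true y z` or `R false y' z ∧ ¬ R false y z`; `z = a q` or `z = a p` by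
`funct` at `y'`: contradiction.

`codes_of_succ`: `z` of kind 0 with `S (a k) z` has the values `a p`, `a q`. `z` is not good (`predU`), so no king. `nE3` (pair
`(z, a k)`): `t`, `P1 (a k) t`, so `t = a (rc false k + 1)` (`p1_good`, `val`). If `¬ EB (a k)`: `rc_succ_ne` (with `eb`),
`R false z t`; `nE4` (pair `(a k, z)`): `t'` with `R true (a k) t'`, `R true z t'`, `t' = a (rc true k)`. If `EB (a k)`:
`rc_succ_eq`; `s1`: `Rc false 0 z`, `r3`: `R false z (a 0)`; `R true z t`, `t = a (rc false k + 1) = a q`.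

`pred_unique`: `z` with values `a p`, `a q`, not good, `S y z` (`y` kind 0) implies `y = a k`. `nE3` (pair `(z, y)`): `t` with
`P1 y t`. If `¬ EB y`: `R false z t` so `t = a p`; `s1`: `¬ Rc false 0 z`, so `p ≠ 0` (`r1`); `p1_back`: `R false y (a (p-1))`;
`nE4` (pair `(y, z)`): `R true y (a q)`. `k` has code `(p-1, q)` (`rc_succ_eq`, `rc_succ_ne`), so `y = a k` by `code`. If `EB y`:
`s1`: `Rc false 0 z`, `r3`: `R false z (a 0)`, so `p = 0` (`r_inj`); `R true z t`, `t = a q`, `p1_back`: `R false y (a (q-1))`, `e2`: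
`R true y (a (q-1))`; `k` has code `(q-1, q-1)`, `y = a k` by `code`.

`step`: `z` by `nL` (pair `(a k, l)`), `codes_of_succ`; the good family is `Function.update a (k+1) z`.
-/

namespace Pool.Agent.Helper37.PX

variable {U B M : Type} {u : M → AU U → Prop} {b : M → M → AB B → Prop} {S : LocSys U B} {k : ℕ}
  {a : ℕ → M}

theorem stepNum {k : ℕ} (hk : 3 ≤ k) : rc false (k + 1) ≤ rc true (k + 1) ∧ rc true (k + 1) + 1 ≤ k ∧
    T (rc true (k + 1)) ≤ k + 1 ∧ T (rc false (k + 1)) ≤ k + 1 ∧ rc false k ≤ rc true k ∧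
    rc true k < k ∧ T (rc true k) ≤ k + 1 ∧ T (rc false k) ≤ k + 1 := by
  have h1 := rc_le (k + 1)
  have h2 := rc_big (x := k + 1) (by omega)
  have h3 := T_rc_le (k + 1)
  have h4 := T_mono h1
  have h5 := rc_le k
  have h6 := T_rc_le k
  have h7 := T_mono h5
  have h8 : rc true k < k := by
    rcases Nat.lt_or_ge k 4 with h | h
    · have : k = 3 := by omega
      subst this
      rw [rc_small.2.2.2.1.2]
      omega
    · exact rc_rc_lt h
  refine ⟨h1, by omega, h3, by omega, h5, h8, by omega, by omega⟩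

theorem not_king (h : Model u b S) (hG : Good u b k a) (hk : 3 ≤ k) {y : M} (hy : u y (.kd 0))
    (hya : ∀ i ≤ k, y ≠ a i) : ¬ King u y := by
  rintro ⟨c, hc⟩
  have hck : (c : ℕ) ≤ k := by omega
  obtain ⟨z, hU, -⟩ := h y (a c)
  exact hya c hck (hU.kU hy (hG.kind c hck) c hc ((hG.king c hck c).2 rfl))

theorem codes_not_good (hG : Good u b k a) (hk : 3 ≤ k) {y : M}
    (h1 : b y (a (rc false (k + 1))) (.R false)) (h2 : b y (a (rc true (k + 1))) (.R true)) :
    ∀ i ≤ k, y ≠ a i := by
  rintro i hi rfl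
  obtain ⟨n1, n2, -, -, -, -, -, -⟩ := stepNum hk
  have e1 := (hG.val i hi false _ (hG.kind _ (by omega))).1 h1
  have e2 := (hG.val i hi true _ (hG.kind _ (by omega))).1 h2
  have hl1 := rc_le' false i
  have hl2 := rc_le' true i
  have e3 := hG.inj _ (by omega) _ (by omega) e1
  have e4 := hG.inj _ (by omega) _ (by omega) e2
  have := rc_inj e3 e4
  omega

/-- The codes of `y`, `y'` with the same values: the case `lt y' y`. -/
theorem code_unique_aux (h : Model u b S) (hG : Good u b k a) (hk : 3 ≤ k) {y y' : M}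
    (hy : u y (.kd 0)) (hy' : u y' (.kd 0))
    (h1 : b y (a (rc false (k + 1))) (.R false)) (h2 : b y (a (rc true (k + 1))) (.R true))
    (h3 : b y' (a (rc false (k + 1))) (.R false)) (h4 : b y' (a (rc true (k + 1))) (.R true))
    (hlt : b y' y .lt) : False := by
  obtain ⟨n1, n2, n3, n4, n5, n6, n7, n8⟩ := stepNum hk
  have hya := codes_not_good hG hk h1 h2
  have hya' := codes_not_good hG hk h3 h4
  have hK := not_king h hG hk hy hya
  have hL : ¬ b y y' (.LR true) := by
    intro hl
    obtain ⟨t, ht, e⟩ := exact h hG hk (rc true (k + 1)) (by omega) n3 true y (Or.inl hy) h2 y' hy' hl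
    exact hya' t (by omega) e
  have hP : ¬ b y y' .P1 := by
    intro hp
    have e := p1_good h hG hk (j := rc false (k + 1)) (by omega) n4 (Or.inl hy) h1 hy' hp
    exact hya' _ (by omega) e
  obtain ⟨z, hU, hD⟩ := h y y'
  have hS : ¬ b y' y .S := by
    intro hS
    obtain ⟨z0, zP, zF, zT⟩ := hD.nE3 hy hy' hK hS
    have ez := p1_good h hG hk (j := rc false (k + 1)) (by omega) n4 (Or.inl hy') h3 z0 zP
    by_cases hE : u y' .EB
    · have e1 := zT hE
      rw [ez] at e1
      have e2 := r_inj h hG hk (Or.inl hy) (by omega) (by omega) true h2 e1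
      obtain ⟨w, hU', -⟩ := h y' (a (rc false (k + 1)))
      have e3 := hU'.e2 (Or.inl hy') (hG.kind _ (by omega)) hE h3
      have e4 := r_inj h hG hk (Or.inl hy') (by omega) (by omega) true h4 e3
      omega
    · have e1 := zF hE
      rw [ez] at e1
      have e2 := r_inj h hG hk (Or.inl hy) (by omega) (by omega) false h1 e1
      omega
  obtain ⟨z0, zQ, zP⟩ := hD.nLex hy hy' hK hlt hS hL hP
  by_cases hQ : b y y' .QL
  · obtain ⟨e1, -, e2⟩ := zQ hQ
    have e3 := funct h hG hk (j := rc true (k + 1)) (by omega) n3 true (Or.inl hy') h4 z0 e1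
    rw [e3] at e2
    exact e2 h2
  · obtain ⟨e1, -, e2⟩ := zP hQ
    have e3 := funct h hG hk (j := rc false (k + 1)) (by omega) n4 false (Or.inl hy') h3 z0 e1
    rw [e3] at e2
    exact e2 h1

theorem code_unique (h : Model u b S) (hG : Good u b k a) (hk : 3 ≤ k) {y y' : M}
    (hy : u y (.kd 0)) (hy' : u y' (.kd 0))
    (h1 : b y (a (rc false (k + 1))) (.R false)) (h2 : b y (a (rc true (k + 1))) (.R true))
    (h3 : b y' (a (rc false (k + 1))) (.R false)) (h4 : b y' (a (rc true (k + 1))) (.R true)) :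
    y = y' := by
  by_contra hne
  obtain ⟨z, hU, -⟩ := h y y'
  rcases hU.tour hy hy' hne with hl | hl
  · exact code_unique_aux h hG hk hy' hy h3 h4 h1 h2 hl
  · exact code_unique_aux h hG hk hy hy' h1 h2 h3 h4 hl

theorem codes_of_succ (h : Model u b S) (hG : Good u b k a) (hk : 3 ≤ k) {z : M}
    (hz : u z (.kd 0)) (hS : b (a k) z .S) : (∀ i ≤ k, z ≠ a i) ∧
    b z (a (rc false (k + 1))) (.R false) ∧ b z (a (rc true (k + 1))) (.R true) := by
  obtain ⟨n1, n2, n3, n4, n5, n6, n7, n8⟩ := stepNum hk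
  have hk0 := hG.kind k le_rfl
  have hza : ∀ i ≤ k, z ≠ a i := by
    rintro i hi rfl
    obtain ⟨j, hj, -, e⟩ := hG.predU i hi (a k) hk0 hS
    have := hG.inj k le_rfl j (by omega) e
    omega
  have hK := not_king h hG hk hz hza
  obtain ⟨t, hU, hD⟩ := h z (a k)
  obtain ⟨t0, tP, tF, tT⟩ := hD.nE3 hz hk0 hK hS
  have hv : b (a k) (a (rc false k)) (.R false) :=
    (hG.val k le_rfl false _ (hG.kind _ (by omega))).2 rfl
  have et := p1_good h hG hk (j := rc false k) (by omega) n8 (Or.inl hk0) hv t0 tP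
  refine ⟨hza, ?_⟩
  by_cases hE : u (a k) .EB
  · have e0 := (hG.eb k le_rfl).1 hE
    obtain ⟨e1, e2⟩ := rc_succ_eq e0
    have e3 := tT hE
    rw [et, e0, ← e2] at e3
    refine ⟨?_, e3⟩
    rw [e1]
    obtain ⟨w, hU', -⟩ := h (a k) z
    have e4 := (hU'.s1 (Or.inl ⟨hk0, hz⟩) hS).1 hE
    obtain ⟨w', hU'', -⟩ := h z (a 0)
    exact hU''.r3 (Or.inl hz) (hG.kind 0 (by omega)) false 0 e4
      ((hG.king 0 (by omega) 0).2 rfl)
  · have e0 : rc false k ≠ rc true k := fun e => hE ((hG.eb k le_rfl).2 e)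
    obtain ⟨e1, e2⟩ := rc_succ_ne e0
    have e3 := tF hE
    rw [et, ← e1] at e3
    refine ⟨e3, ?_⟩
    rw [e2]
    obtain ⟨w, hU', hD'⟩ := h (a k) z
    obtain ⟨w0, w1, w2⟩ := hD'.nE4 hk0 hz hK hS hE
    have e4 := (hG.val k le_rfl true w w0).1 w1
    rw [e4] at w2
    exact w2

theorem pred_unique (h : Model u b S) (hG : Good u b k a) (hk : 3 ≤ k) {z y : M}
    (hz : u z (.kd 0)) (hza : ∀ i ≤ k, z ≠ a i) (h1 : b z (a (rc false (k + 1))) (.R false))
    (h2 : b z (a (rc true (k + 1))) (.R true)) (hy : u y (.kd 0)) (hS : b y z .S) : y = a k := by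
  obtain ⟨n1, n2, n3, n4, n5, n6, n7, n8⟩ := stepNum hk
  have hK := not_king h hG hk hz hza
  obtain ⟨t, hU, hD⟩ := h z y
  obtain ⟨t0, tP, tF, tT⟩ := hD.nE3 hz hy hK hS
  obtain ⟨w, hU', hD'⟩ := h y z
  have hs1 := hU'.s1 (Or.inl ⟨hy, hz⟩) hS
  have hA0 : u (a 0) (.A 0) := (hG.king 0 (by omega) 0).2 rfl
  obtain ⟨w', hU'', -⟩ := h z (a 0)
  by_cases hE : u y .EB
  · have e1 := hU''.r3 (Or.inl hz) (hG.kind 0 (by omega)) false 0 (hs1.1 hE) hA0
    have e2 := r_inj h hG hk (Or.inl hz) (by omega) (by omega) false h1 e1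
    have e3 := funct h hG hk (j := rc true (k + 1)) (by omega) n3 true (Or.inl hz) h2 t0 (tT hE)
    have e4 : rc false k = rc true k := by
      by_contra hne
      obtain ⟨f1, f2⟩ := rc_succ_ne hne
      omega
    obtain ⟨f1, f2⟩ := rc_succ_eq e4
    rw [e3, f2] at tP
    have e5 := p1_back h hG hk (by omega) (Or.inl hy) tP
    obtain ⟨w'', hU3, -⟩ := h y (a (rc true k))
    have e6 := hU3.e2 (Or.inl hy) (hG.kind _ (by omega)) hE e5
    rw [← e4] at e5
    exact hG.code k le_rfl y hy e5 e6
  · have e1 : rc false (k + 1) ≠ 0 := by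
      intro e
      rw [e] at h1
      exact hE (hs1.2 (hU''.r1 (Or.inl hz) (hG.kind 0 (by omega)) false 0 h1 hA0))
    have e3 := funct h hG hk (j := rc false (k + 1)) (by omega) n4 false (Or.inl hz) h1 t0 (tF hE)
    have e4 : rc false k ≠ rc true k := by
      intro he
      obtain ⟨f1, f2⟩ := rc_succ_eq he
      omega
    obtain ⟨f1, f2⟩ := rc_succ_ne e4
    rw [e3, f1] at tP
    have e5 := p1_back h hG hk (by omega) (Or.inl hy) tP
    obtain ⟨w0, w1, w2⟩ := hD'.nE4 hy hz hK hS hE
    have e6 := funct h hG hk (j := rc true (k + 1)) (by omega) n3 true (Or.inl hz) h2 w0 w2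
    rw [e6, f2] at w1
    exact hG.code k le_rfl y hy e5 w1

theorem step (h : Model u b S) (hG : Good u b k a) (hk : 3 ≤ k) (hL : ∃ l, u l (.kd 2))
    (hla : ¬ u (a k) .La) : ∃ z, Good u b (k + 1) (Function.update a (k + 1) z) := by
  obtain ⟨n1, n2, n3, n4, n5, n6, n7, n8⟩ := stepNum hk
  obtain ⟨l, hl⟩ := hL
  obtain ⟨z, -, hD⟩ := h (a k) l
  have hk0 := hG.kind k le_rfl
  obtain ⟨hz, hS⟩ := hD.nL hk0 hl hla
  obtain ⟨hza, hc1, hc2⟩ := codes_of_succ h hG hk hz hS
  have hK := not_king h hG hk hz hza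
  have hup : ∀ i ≤ k, Function.update a (k + 1) z i = a i := by
    intro i hi
    exact Function.update_of_ne (by omega) _ _
  have hnew : Function.update a (k + 1) z (k + 1) = z := Function.update_self _ _ _
  refine ⟨z, ⟨?_, ?_, ?_, ?_, ?_, ?_, ?_, ?_, ?_⟩⟩
  · intro i hi
    rcases Nat.lt_or_ge k i with h' | h'
    · have : i = k + 1 := by omega
      subst this
      rw [hnew]
      exact hz
    · rw [hup i h']
      exact hG.kind i h'
  · intro i hi j hj
    rcases Nat.lt_or_ge k i with h' | h'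
    · have : i = k + 1 := by omega
      subst this
      rcases Nat.lt_or_ge k j with h'' | h''
      · intro _
        omega
      · rw [hnew, hup j h'']
        intro e
        exact absurd e (hza j h'')
    · rcases Nat.lt_or_ge k j with h'' | h''
      · have : j = k + 1 := by omega
        subst this
        rw [hnew, hup i h']
        intro e
        exact absurd e.symm (hza i h')
      · rw [hup i h', hup j h'']
        exact hG.inj i h' j h''
  · intro i hi c
    rcases Nat.lt_or_ge k i with h' | h'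
    · have : i = k + 1 := by omega
      subst this
      rw [hnew]
      constructor
      · intro hc
        exact absurd ⟨c, hc⟩ hK
      · intro hc
        have := c.isLt
        omega
    · rw [hup i h']
      exact hG.king i h' c
  · intro i hi
    rcases Nat.lt_or_ge i k with h' | h'
    · rw [hup i (by omega), hup (i + 1) (by omega)]
      exact hG.succ i h'
    · have : i = k := by omega
      subst this
      rw [hup i le_rfl, hnew]
      exact hS
  · intro i hi y hy hSy
    rcases Nat.lt_or_ge i k with h' | h'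
    · rw [hup i (by omega)] at hSy
      rw [hup (i + 1) (by omega)]
      exact hG.succU i h' y hy hSy
    · have : i = k := by omega
      subst this
      rw [hup i le_rfl] at hSy
      rw [hnew]
      obtain ⟨-, d1, d2⟩ := codes_of_succ h hG hk hy hSy
      exact code_unique h hG hk hy hz d1 d2 hc1 hc2
  · intro i hi y hy hSy
    rcases Nat.lt_or_ge k i with h' | h'
    · have : i = k + 1 := by omega
      subst this
      rw [hnew] at hSy
      refine ⟨k, by omega, rfl, ?_⟩
      rw [hup k le_rfl]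
      exact pred_unique h hG hk hz hza hc1 hc2 hy hSy
    · rw [hup i h'] at hSy
      obtain ⟨j, hj, e1, e2⟩ := hG.predU i h' y hy hSy
      refine ⟨j, hj, e1, ?_⟩
      rw [hup j (by omega)]
      exact e2
  · intro i hi s y hy
    rcases Nat.lt_or_ge k i with h' | h'
    · have : i = k + 1 := by omega
      subst this
      rw [hnew]
      have hs := rc_le_true s (k + 1)
      rw [hup (rc s (k + 1)) (by omega)]
      have hcs : b z (a (rc s (k + 1))) (.R s) := by
        cases s
        · exact hc1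
        · exact hc2
      have hTs : T (rc s (k + 1)) ≤ k + 1 := (T_mono hs).trans n3
      constructor
      · intro hR
        exact funct h hG hk (by omega) hTs s (Or.inl hz) hcs hy hR
      · intro e
        rw [e]
        exact hcs
    · rw [hup i h']
      have hs := rc_le' s i
      rw [hup (rc s i) (by omega)]
      exact hG.val i h' s y hy
  · intro i hi y hy h1 h2
    rcases Nat.lt_or_ge k i with h' | h'
    · have : i = k + 1 := by omega
      subst this
      rw [hup _ (by omega)] at h1 h2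
      rw [hnew]
      exact code_unique h hG hk hy hz h1 h2 hc1 hc2
    · have hs1 := rc_le' false i
      have hs2 := rc_le' true i
      rw [hup _ (by omega)] at h1 h2
      rw [hup i h']
      exact hG.code i h' y hy h1 h2
  · intro i hi
    rcases Nat.lt_or_ge k i with h' | h'
    · have : i = k + 1 := by omega
      subst this
      rw [hnew]
      constructor
      · intro hE
        obtain ⟨w, hU, -⟩ := h z (a (rc false (k + 1)))
        have e1 := hU.e2 (Or.inl hz) (hG.kind _ (by omega)) hE hc1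
        exact r_inj h hG hk (Or.inl hz) (by omega) (by omega) true e1 hc2
      · intro e
        obtain ⟨w, hU, -⟩ := h z (a (rc false (k + 1)))
        have hc2' := hc2
        rw [← e] at hc2'
        exact hU.e1 (Or.inl hz) (hG.kind _ (by omega)) hc1 hc2'
    · rw [hup i h']
      exact hG.eb i h'

end Pool.Agent.Helper37.PX
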