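import Mathlib
import Pool.Agent.Helper37.PX.Step

set_option autoImplicit false

/-!
# PX-H: kind 0 consists of good elements

`start`: from any element: kinds 1, 2, 3: `dW`, `dL` (pair `(x, x)`) give an element of kind 0; kind 0: `dN` (pair `(x, x)`) gives
`l` of kind 2 with `Z`; `dL` (pair `(l, l)`): `y` of kind 0 with `Id l y`; `i2`: `A 0 y`.
`base`: `a 0` with `A 0`; `nL` (pair `(a i, l)`, `kLa`): successors; `kS`: `A 1`, `A 2`, `A 3`. `Good` for `k = 3`: `kU`, `k1`, `kS`,
`kS0`, `kR`, `kC` with `r1`; `eb` by `e1`, `e2` (`rc_small`).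
`full`: start with `base`, iterate `step` as long as the last element is not `La` (finiteness: `a 0, …, a k` are different, so
`k + 1 ≤ Nat.card M`); kings are not `La`, so `4 ≤ k`; keep `∀ i < k, ¬ La (a i)`. Let `La (a k)`, `y` of kind 0, not good. `top`: `lt y (a k)`. Premises of
`nLex` for the pair `(a k, y)`: `predU`, `exact` (`LR true (a k) y`; value `a (rc true k)`), `p1_good`. It gives `z`. If
`QL (a k) y`: `R true y z`, `LR true (a k) z`, `¬ R true (a k) z`: `z = a s`, `s < rc true k` (`exact`, `val`); `pos_exists` (`y` is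
no king): `R false y (a t)`, `t ≤ s`; `code` for `T s + t < T (s+1) ≤ T (rc true k) ≤ k`. Contradiction. If `¬ QL (a k) y`:
`R false y z`, `z = a t`, `t < rc false k`; `nQ` (pair `(y, a k)`, premises as before): `R true y (a (rc true k))`; `code` for
`T (rc true k) + t < k`. Contradiction.
-/

namespace Pool.Agent.Helper37.PX

variable {U B M : Type} {u : M → AU U → Prop} {b : M → M → AB B → Prop} {S : LocSys U B}

private theorem fin4 : ∀ c : Fin 4, c = 0 ∨ c = 1 ∨ c = 2 ∨ c = 3 := by decide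

theorem start [Nonempty M] (h : Model u b S) : (∃ l, u l (.kd 2) ∧ u l .Z) ∧
    ∃ y, u y (.kd 0) ∧ u y (.A 0) := by
  have h0 : ∃ y, u y (.kd 0) := by
    obtain ⟨x⟩ := ‹Nonempty M›
    obtain ⟨z, hU, hD⟩ := h x x
    obtain ⟨i, hi⟩ := hU.kind
    rcases fin4 i with rfl | rfl | rfl | rfl
    · exact ⟨x, hi⟩
    · exact ⟨z, (hD.dW hi rfl).1⟩
    · exact ⟨z, (hD.dL (Or.inl hi) rfl).1⟩
    · exact ⟨z, (hD.dL (Or.inr hi) rfl).1⟩
  obtain ⟨y, hy⟩ := h0
  obtain ⟨l, -, hD⟩ := h y y
  obtain ⟨hl, hZ⟩ := hD.dN hy rfl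
  refine ⟨⟨l, hl, hZ⟩, ?_⟩
  obtain ⟨y', -, hD'⟩ := h l l
  obtain ⟨hy', hI⟩ := hD'.dL (Or.inl hl) rfl
  obtain ⟨w, hU, -⟩ := h l y'
  exact ⟨y', hy', (hU.i2 (Or.inl hl) hy' hI).1 hZ⟩

/-- All kings exist. -/
private theorem kings_exist [Nonempty M] (h : Model u b S) (c : Fin 4) :
    ∃ y, u y (.kd 0) ∧ u y (.A c) := by
  obtain ⟨⟨l, hl, -⟩, y0, hy0, hA0⟩ := start h
  have nxt : ∀ (c d : Fin 4), (d : ℕ) = c + 1 → (∃ y, u y (.kd 0) ∧ u y (.A c)) →
      ∃ y, u y (.kd 0) ∧ u y (.A d) := by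
    rintro c d hcd ⟨y, hy, hA⟩
    obtain ⟨z, hU, hD⟩ := h y l
    obtain ⟨hz, hS⟩ := hD.nL hy hl (hU.kLa c hA)
    obtain ⟨w, hU', -⟩ := h y z
    exact ⟨z, hz, ((hU'.kS hy hz c d hcd).1 hA hS)⟩
  have e0 : ∃ y, u y (.kd 0) ∧ u y (.A 0) := ⟨y0, hy0, hA0⟩
  have e1 := nxt 0 1 rfl e0
  have e2 := nxt 1 2 rfl e1
  have e3 := nxt 2 3 rfl e2
  rcases fin4 c with rfl | rfl | rfl | rfl
  · exact e0
  · exact e1
  · exact e2
  · exact e3

theorem base [Nonempty M] (h : Model u b S) : ∃ a : ℕ → M, Good u b 3 a := by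
  choose f hf0 hfA using fun c : Fin 4 => kings_exist h c
  let a : ℕ → M := fun i => if hi : i < 4 then f ⟨i, hi⟩ else f 0
  have ha : ∀ i (hi : i < 4), a i = f ⟨i, hi⟩ := fun i hi => dif_pos hi
  have hk : ∀ i ≤ 3, u (a i) (.kd 0) := by
    intro i hi
    rw [ha i (by omega)]
    exact hf0 _
  have hA : ∀ (i : ℕ) (hi : i < 4), u (a i) (.A ⟨i, hi⟩) := by
    intro i hi
    rw [ha i hi]
    exact hfA _
  have huniq : ∀ (i : ℕ) (hi : i < 4) (y : M), u y (.kd 0) → u y (.A ⟨i, hi⟩) → y = a i := by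
    intro i hi y hy hyA
    obtain ⟨w, hU, -⟩ := h y (a i)
    exact hU.kU hy (hk i (by omega)) _ hyA (hA i hi)
  have hking : ∀ i ≤ 3, ∀ c : Fin 4, u (a i) (.A c) ↔ i = c := by
    intro i hi c
    constructor
    · intro hc
      obtain ⟨w, hU, -⟩ := h (a i) (a i)
      have := hU.k1 _ _ hc (hA i (by omega))
      rw [this]
    · intro hc
      have : c = ⟨i, by omega⟩ := Fin.ext hc.symm
      rw [this]
      exact hA i (by omega)
  have hval : ∀ i ≤ 3, ∀ (s : Bool) (y : M), u y (.kd 0) → (b (a i) y (.R s) ↔ y = a (rc s i)) := by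
    intro i hi s y hy
    have hle := rc_le' s i
    obtain ⟨w, hU, -⟩ := h (a i) y
    have e := hU.kR (hk i hi) hy s ⟨i, by omega⟩ ⟨rc s i, by omega⟩ rfl (hA i (by omega))
    rw [e]
    constructor
    · intro h'
      exact huniq _ (by omega) y hy h'
    · intro h'
      rw [h']
      exact hA _ (by omega)
  have hinj : ∀ i ≤ 3, ∀ j ≤ 3, a i = a j → i = j := by
    intro i hi j hj e
    have h1 := (hking i hi ⟨j, by omega⟩).1 (by rw [e]; exact hA j (by omega))
    exact h1
  refine ⟨a, ⟨hk, hinj, hking, ?_, ?_, ?_, hval, ?_, ?_⟩⟩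
  · intro i hi
    obtain ⟨w, hU, -⟩ := h (a i) (a (i + 1))
    exact (hU.kS (hk i (by omega)) (hk (i + 1) (by omega)) ⟨i, by omega⟩ ⟨i + 1, by omega⟩
      rfl).2.2 (hA i (by omega)) (hA (i + 1) (by omega))
  · intro i hi y hy hS
    obtain ⟨w, hU, -⟩ := h (a i) y
    have e := (hU.kS (hk i (by omega)) hy ⟨i, by omega⟩ ⟨i + 1, by omega⟩ rfl).1
      (hA i (by omega)) hS
    exact huniq _ (by omega) y hy e
  · intro i hi y hy hS
    obtain ⟨w, hU, -⟩ := h y (a i)
    rcases Nat.eq_zero_or_pos i with h0 | h0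
    · subst h0
      exact absurd hS (hU.kS0 hy (hk 0 (by omega)) (hA 0 (by omega)))
    · obtain ⟨j, rfl⟩ : ∃ j, i = j + 1 := ⟨i - 1, by omega⟩
      refine ⟨j, by omega, rfl, ?_⟩
      have e := (hU.kS hy (hk (j + 1) hi) ⟨j, by omega⟩ ⟨j + 1, by omega⟩ rfl).2.1
        (hA (j + 1) (by omega)) hS
      exact huniq _ (by omega) y hy e
  · intro i hi y hy h1 h2
    have hle := rc_le' false i
    have hle' := rc_le' true i
    obtain ⟨w, hU, -⟩ := h y (a (rc false i))
    obtain ⟨w', hU', -⟩ := h y (a (rc true i))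
    have e1 := hU.r1 (Or.inl hy) (hk _ (by omega)) false ⟨rc false i, by omega⟩ h1 (hA _ (by omega))
    have e2 := hU'.r1 (Or.inl hy) (hk _ (by omega)) true ⟨rc true i, by omega⟩ h2 (hA _ (by omega))
    have e3 := hU.kC hy ⟨i, by omega⟩ ⟨rc false i, by omega⟩ ⟨rc true i, by omega⟩ rfl rfl e1 e2
    exact huniq _ (by omega) y hy e3
  · intro i hi
    have hle := rc_le' false i
    have hle' := rc_le' true i
    obtain ⟨w, hU, -⟩ := h (a i) (a (rc false i))
    have e1 : b (a i) (a (rc false i)) (.R false) := (hval i hi false _ (hk _ (by omega))).2 rfl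
    constructor
    · intro hE
      have e2 := hU.e2 (Or.inl (hk i hi)) (hk _ (by omega)) hE e1
      have e3 := (hval i hi true _ (hk _ (by omega))).1 e2
      exact hinj _ (by omega) _ (by omega) e3
    · intro e
      have e2 : b (a i) (a (rc false i)) (.R true) := by
        rw [e]
        exact (hval i hi true _ (hk _ (by omega))).2 rfl
      exact hU.e1 (Or.inl (hk i hi)) (hk _ (by omega)) e1 e2

private theorem good_card [Finite M] {k : ℕ} {a : ℕ → M} (hG : Good u b k a) : k + 1 ≤ Nat.card M := by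
  have hinj : Function.Injective (fun i : Fin (k + 1) => a i) := by
    intro i j e
    exact Fin.ext (hG.inj i (by omega) j (by omega) e)
  have := Nat.card_le_card_of_injective _ hinj
  simpa using this

private theorem exists_last [Finite M] [Nonempty M] (h : Model u b S) : ∃ (k : ℕ) (a : ℕ → M), 3 ≤ k ∧
    Good u b k a ∧ (∀ i < k, ¬ u (a i) .La) ∧ u (a k) .La := by
  by_contra hcon
  push Not at hcon
  obtain ⟨⟨l, hl, -⟩, -⟩ := start h
  have key : ∀ n, ∃ a : ℕ → M, Good u b (3 + n) a ∧ ∀ i < 3 + n, ¬ u (a i) .La := by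
    intro n
    induction n with
    | zero =>
      obtain ⟨a, hG⟩ := base h
      refine ⟨a, hG, ?_⟩
      intro i hi
      obtain ⟨w, hU, -⟩ := h (a i) (a i)
      exact hU.kLa ⟨i, by omega⟩ ((hG.king i (by omega) _).2 rfl)
    | succ n ih =>
      obtain ⟨a, hG, hLa⟩ := ih
      have hlast := hcon (3 + n) a (by omega) hG hLa
      obtain ⟨z, hG'⟩ := step h hG (by omega) ⟨l, hl⟩ hlast
      refine ⟨_, hG', ?_⟩
      intro i hi
      rw [Function.update_of_ne (by omega)]
      rcases Nat.lt_or_ge i (3 + n) with h' | h'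
      · exact hLa i h'
      · have : i = 3 + n := by omega
        rw [this]
        exact hlast
  obtain ⟨a, hG, -⟩ := key (Nat.card M)
  have := good_card hG
  omega

theorem full [Finite M] [Nonempty M] (h : Model u b S) : ∃ (k : ℕ) (a : ℕ → M), 4 ≤ k ∧
    Good u b k a ∧ (∀ i ≤ k, (u (a i) .La ↔ i = k)) ∧ ∀ y, u y (.kd 0) → ∃ i ≤ k, y = a i := by
  obtain ⟨k, a, hk3, hG, hLa, hLak⟩ := exists_last h
  have hk : 4 ≤ k := by
    rcases Nat.lt_or_ge k 4 with h' | h'
    · have : k = 3 := by omega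
      subst this
      obtain ⟨w, hU, -⟩ := h (a 3) (a 3)
      exact absurd hLak (hU.kLa 3 ((hG.king 3 le_rfl 3).2 rfl))
    · exact h'
  refine ⟨k, a, hk, hG, ?_, ?_⟩
  · intro i hi
    constructor
    · intro hL
      by_contra hne
      exact hLa i (by omega) hL
    · rintro rfl
      exact hLak
  · intro y hy
    by_contra hcon
    have hya : ∀ i ≤ k, y ≠ a i := by
      intro i hi e
      exact hcon ⟨i, hi, e⟩
    have hk0 := hG.kind k le_rfl
    have hKk : ¬ King u (a k) := by
      rintro ⟨c, hc⟩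
      have := (hG.king k le_rfl c).1 hc
      have := c.isLt
      omega
    have hKy := not_king h hG hk3 hy hya
    have hr1 : rc true k < k := rc_rc_lt hk
    have hr2 : rc false k ≤ rc true k := rc_le k
    have hT1 : T (rc true k) ≤ k := T_rc_le k
    have hT2 : T (rc false k) ≤ T (rc true k) := T_mono hr2
    have hvt : b (a k) (a (rc true k)) (.R true) :=
      (hG.val k le_rfl true _ (hG.kind _ (by omega))).2 rfl
    have hvf : b (a k) (a (rc false k)) (.R false) :=
      (hG.val k le_rfl false _ (hG.kind _ (by omega))).2 rfl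
    obtain ⟨z, hU, hD⟩ := h (a k) y
    have hlt : b y (a k) .lt := hU.top hk0 hy hLak (fun e => hya k le_rfl e.symm)
    have hS : ¬ b y (a k) .S := by
      intro hS
      obtain ⟨j, hj, -, e⟩ := hG.predU k le_rfl y hy hS
      exact hya j (by omega) e
    have hL : ¬ b (a k) y (.LR true) := by
      intro hl
      obtain ⟨t, ht, e⟩ := exact h hG hk3 (rc true k) (by omega) (by omega) true (a k)
        (Or.inl hk0) hvt y hy hl
      exact hya t (by omega) e
    have hP : ¬ b (a k) y .P1 := by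
      intro hp
      exact hya _ (by omega) (p1_good h hG hk3 (j := rc false k) (by omega) (by omega)
        (Or.inl hk0) hvf hy hp)
    obtain ⟨z0, zQ, zP⟩ := hD.nLex hk0 hy hKk hlt hS hL hP
    by_cases hQ : b (a k) y .QL
    · obtain ⟨e1, e2, e3⟩ := zQ hQ
      obtain ⟨s, hs, rfl⟩ := exact h hG hk3 (rc true k) (by omega) (by omega) true (a k)
        (Or.inl hk0) hvt z z0 e2
      have hsne : s ≠ rc true k := by
        intro e
        rw [e] at e3
        exact e3 hvt
      have hs' : s < rc true k := by omega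
      obtain ⟨t, ht, e4⟩ := pos_exists h hG (Or.inl hy) (fun _ => hKy) (l := s) (by omega) e1
      obtain ⟨c1, c2⟩ := rc_code ht
      have hT3 : T (s + 1) ≤ T (rc true k) := T_mono hs'
      have hT4 := T_succ s
      have hle : T s + t ≤ k := by omega
      refine hya (T s + t) hle (hG.code _ hle y hy ?_ ?_)
      · rw [c1]
        exact e4
      · rw [c2]
        exact e1
    · obtain ⟨e1, e2, e3⟩ := zP hQ
      obtain ⟨t, ht, rfl⟩ := exact h hG hk3 (rc false k) (by omega) (by omega) false (a k)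
        (Or.inl hk0) hvf z z0 e2
      have htne : t ≠ rc false k := by
        intro e
        rw [e] at e3
        exact e3 hvf
      have ht' : t < rc false k := by omega
      obtain ⟨z', -, hD'⟩ := h y (a k)
      obtain ⟨w0, w1, w2⟩ := hD'.nQ hy hk0 hKk hlt hS hL hQ
      have ew := (hG.val k le_rfl true z' w0).1 w2
      rw [ew] at w1
      obtain ⟨c1, c2⟩ := rc_code (p := t) (q := rc true k) (by omega)
      have hTa := T_add k
      have hle : T (rc true k) + t ≤ k := by omega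
      refine hya (T (rc true k) + t) hle (hG.code _ hle y hy ?_ ?_)
      · rw [c1]
        exact e1
      · rw [c2]
        exact w1

end Pool.Agent.Helper37.PX
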