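import Mathlib
import Pool.Agent.Helper37.PX.Full

set_option autoImplicit false

/-!
# PX-J: kinds 2 and 3 are copies of `0, …, k`

Setting: all elements of kind 0 are the good `a 0, …, a k` (`hA`), `La (a k)`; `κ` is `2` or `3`.
`id_exists`: `dL` (pair `(x, x)`). `id_below`: `LI x (a (j+1))` implies `LI x (a j)`, `¬ Id x (a j)`: `lI` (pair `(x, a (j+1))`,
`king`: `¬ A 0`), `predU`. So by `i1` the number `j` with `Id x (a j)` is unique.
`S x x'` implies number of `x'` = number of `x` + 1: `lS` (pair `(x, x')`): `z = a m` with `Id x' z`, `I1 x z`; `m ≠ 0` (`i4`), `lI` (pair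
`(x, a m)`): `z' = a (m-1)` with `Id x z'`. Different `x`, `x'` of kind `κ` have different numbers: if `S x x'` or `S x' x` this is
clear; else `lX` (pair `(x, x')`).
`line`: enumeration `x 0, …, x k` of kind `κ`: `x 0` is the zero (`hz`, `i2`, `king`), then `hs` (the element of number `i < k` is not
`La` by `i3` and `hla`).
-/

namespace Pool.Agent.Helper37.PX

variable {U B M : Type} {u : M → AU U → Prop} {b : M → M → AB B → Prop} {S : LocSys U B} {k : ℕ}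
  {a : ℕ → M}

/-- Kind `κ` is the line `x 0, …, x k`. -/
structure Line (u : M → AU U → Prop) (b : M → M → AB B → Prop) (κ : Fin 4) (k : ℕ) (x : ℕ → M) :
    Prop where
  kind : ∀ i ≤ k, u (x i) (.kd κ)
  inj : ∀ i ≤ k, ∀ j ≤ k, x i = x j → i = j
  all : ∀ y, u y (.kd κ) → ∃ i ≤ k, y = x i
  succU : ∀ i < k, ∀ y, u y (.kd κ) → b (x i) y .S → y = x (i + 1)
  zero : ∀ i ≤ k, (u (x i) .Z ↔ i = 0)
  last : ∀ i ≤ k, (u (x i) .La ↔ i = k)

/-- Every element of kind `κ` has a number. -/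
private theorem CntL_id_exists (h : Model u b S)
    (hA : ∀ y, u y (.kd 0) → ∃ i ≤ k, y = a i) {κ : Fin 4} (hκ : κ = 2 ∨ κ = 3) {x : M}
    (hx : u x (.kd κ)) : ∃ j ≤ k, b x (a j) .Id := by
  obtain ⟨z, -, hD⟩ := h x x
  have hx' : u x (.kd 2) ∨ u x (.kd 3) := by
    rcases hκ with rfl | rfl
    · exact Or.inl hx
    · exact Or.inr hx
  obtain ⟨hz0, hzI⟩ := hD.dL hx' rfl
  obtain ⟨i, hi, rfl⟩ := hA z hz0
  exact ⟨i, hi, hzI⟩

private theorem CntL_kk {κ : Fin 4} (hκ : κ = 2 ∨ κ = 3) {x : M} (hx : u x (.kd κ)) :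
    u x (.kd 2) ∨ u x (.kd 3) := by
  rcases hκ with rfl | rfl
  · exact Or.inl hx
  · exact Or.inr hx

private theorem CntL_succ_ne (hG : Good u b k a) {j : ℕ} (hj : j + 1 ≤ k) :
    ¬ u (a (j + 1)) (.A 0) := by
  intro h
  have := (hG.king (j + 1) hj 0).1 h
  simp at this

private theorem CntL_pred (hG : Good u b k a) {j : ℕ} (hj : j + 1 ≤ k) {z : M}
    (hz : u z (.kd 0)) (hs : b z (a (j + 1)) .S) : z = a j := by
  obtain ⟨j', -, h1, h2⟩ := hG.predU (j + 1) hj z hz hs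
  have : j' = j := by omega
  rw [h2, this]

private theorem CntL_down (h : Model u b S) (hG : Good u b k a) {x : M}
    (hx : u x (.kd 2) ∨ u x (.kd 3)) {j : ℕ} (hj : j + 1 ≤ k) (hl : b x (a (j + 1)) .LI) :
    b x (a j) .LI ∧ ¬ b x (a j) .Id := by
  obtain ⟨z, -, hD⟩ := h x (a (j + 1))
  obtain ⟨h0, hs, h1, -⟩ := hD.lI hx (hG.kind _ hj) (Or.inl hl) (CntL_succ_ne hG hj)
  have hz := CntL_pred hG hj h0 hs
  rw [hz] at h1
  exact h1 hl

private theorem CntL_below (h : Model u b S) (hG : Good u b k a) {x : M}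
    (hx : u x (.kd 2) ∨ u x (.kd 3)) : ∀ (d j : ℕ), j + d + 1 ≤ k → b x (a (j + d + 1)) .LI →
    b x (a j) .LI ∧ ¬ b x (a j) .Id := by
  intro d
  induction d with
  | zero =>
    intro j hj hl
    exact CntL_down h hG hx hj hl
  | succ d ih =>
    intro j hj hl
    have h1 := CntL_down h hG hx (j := j + d + 1) (by omega) hl
    exact ih j (by omega) h1.1

private theorem CntL_lt (h : Model u b S) (hG : Good u b k a) {x : M}
    (hx : u x (.kd 2) ∨ u x (.kd 3)) {i j : ℕ} (hij : i < j) (hj : j ≤ k)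
    (h1 : b x (a i) .Id) (h2 : b x (a j) .Id) : False := by
  obtain ⟨d, rfl⟩ : ∃ d, j = i + d + 1 := ⟨j - i - 1, by omega⟩
  obtain ⟨z, hU, -⟩ := h x (a (i + d + 1))
  have hl := hU.i1 hx (hG.kind _ hj) h2
  exact (CntL_below h hG hx d i hj hl).2 h1

private theorem CntL_unique (h : Model u b S) (hG : Good u b k a) {x : M}
    (hx : u x (.kd 2) ∨ u x (.kd 3)) {i j : ℕ} (hi : i ≤ k) (hj : j ≤ k)
    (h1 : b x (a i) .Id) (h2 : b x (a j) .Id) : i = j := by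
  rcases Nat.lt_trichotomy i j with hlt | heq | hgt
  · exact (CntL_lt h hG hx hlt hj h1 h2).elim
  · exact heq
  · exact (CntL_lt h hG hx hgt hi h2 h1).elim

private theorem CntL_S (h : Model u b S) (hG : Good u b k a)
    (hA : ∀ y, u y (.kd 0) → ∃ i ≤ k, y = a i) {κ : Fin 4} (hκ : κ = 2 ∨ κ = 3) {x x' : M}
    (hx : u x (.kd κ)) (hx' : u x' (.kd κ)) (hS : b x x' .S) {i : ℕ} (hi : i ≤ k)
    (h1 : b x (a i) .Id) : i + 1 ≤ k ∧ b x' (a (i + 1)) .Id := by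
  obtain ⟨z, -, hD⟩ := h x x'
  obtain ⟨hz0, hzI, hz1⟩ := hD.lS κ hκ hx hx' hS
  obtain ⟨m, hm, rfl⟩ := hA z hz0
  have hxx := CntL_kk hκ hx
  obtain ⟨z', hU', hD'⟩ := h x (a m)
  rcases m with _ | m
  · exact absurd hz1 (hU'.i4 hxx hz0 ((hG.king 0 (Nat.zero_le k) 0).2 rfl))
  · obtain ⟨h0, hs, -, h3⟩ := hD'.lI hxx hz0 (Or.inr hz1) (CntL_succ_ne hG hm)
    have hz' := CntL_pred hG hm h0 hs
    have h4 := h3 hz1
    rw [hz'] at h4
    have h5 := CntL_unique h hG hxx hi (by omega) h1 h4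
    rw [h5]
    exact ⟨hm, hzI⟩

private theorem CntL_eq (h : Model u b S) (hG : Good u b k a)
    (hA : ∀ y, u y (.kd 0) → ∃ i ≤ k, y = a i) {κ : Fin 4} (hκ : κ = 2 ∨ κ = 3) {x x' : M}
    (hx : u x (.kd κ)) (hx' : u x' (.kd κ)) {i : ℕ} (hi : i ≤ k) (h1 : b x (a i) .Id)
    (h2 : b x' (a i) .Id) : x = x' := by
  by_contra hne
  have hxx := CntL_kk hκ hx
  have hxx' := CntL_kk hκ hx'
  by_cases hS : b x x' .S
  · obtain ⟨h3, h4⟩ := CntL_S h hG hA hκ hx hx' hS hi h1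
    have := CntL_unique h hG hxx' hi h3 h2 h4
    omega
  · obtain ⟨z, -, hD⟩ := h x x'
    obtain ⟨hz0, hz1, hz2⟩ := hD.lX κ hκ hx hx' hne hS
    obtain ⟨m, hm, rfl⟩ := hA z hz0
    have := CntL_unique h hG hxx hi hm h1 hz1
    rw [← this] at hz2
    exact hz2 h2

private theorem CntL_exists (h : Model u b S) (hG : Good u b k a)
    (hla : ∀ i ≤ k, (u (a i) .La ↔ i = k))
    (hA : ∀ y, u y (.kd 0) → ∃ i ≤ k, y = a i) {κ : Fin 4} (hκ : κ = 2 ∨ κ = 3)
    (hz : ∃ x, u x (.kd κ) ∧ u x .Z)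
    (hs : ∀ x, u x (.kd κ) → ¬ u x .La → ∃ z, u z (.kd κ) ∧ b x z .S) :
    ∀ i, i ≤ k → ∃ x, u x (.kd κ) ∧ b x (a i) .Id := by
  intro i
  induction i with
  | zero =>
    intro _
    obtain ⟨x, hx, hZ⟩ := hz
    obtain ⟨j, hj, hI⟩ := CntL_id_exists h hA hκ hx
    obtain ⟨z, hU, -⟩ := h x (a j)
    have h1 := (hU.i2 (CntL_kk hκ hx) (hG.kind j hj) hI).1 hZ
    have h2 := (hG.king j hj 0).1 h1
    have h3 : j = 0 := by simpa using h2
    rw [h3] at hI
    exact ⟨x, hx, hI⟩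
  | succ i ih =>
    intro hi
    obtain ⟨x, hx, hI⟩ := ih (by omega)
    have hLa : ¬ u x .La := by
      intro hL
      obtain ⟨z, hU, -⟩ := h x (a i)
      have h1 := (hU.i3 (CntL_kk hκ hx) (hG.kind i (by omega)) hI).1 hL
      have h2 := (hla i (by omega)).1 h1
      omega
    obtain ⟨z, hz, hS⟩ := hs x hx hLa
    exact ⟨z, hz, (CntL_S h hG hA hκ hx hz hS (by omega) hI).2⟩

theorem line (h : Model u b S) (hk : 4 ≤ k) (hG : Good u b k a) (hla : ∀ i ≤ k, (u (a i) .La ↔ i = k))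
    (hA : ∀ y, u y (.kd 0) → ∃ i ≤ k, y = a i) (κ : Fin 4) (hκ : κ = 2 ∨ κ = 3)
    (hz : ∃ x, u x (.kd κ) ∧ u x .Z)
    (hs : ∀ x, u x (.kd κ) → ¬ u x .La → ∃ z, u z (.kd κ) ∧ b x z .S) :
    ∃ x : ℕ → M, Line u b κ k x := by
  classical
  have hex := CntL_exists h hG hla hA hκ hz hs
  obtain ⟨x0, -⟩ := hz
  let x : ℕ → M := fun i => if hi : i ≤ k then (hex i hi).choose else x0
  have hxk : ∀ i ≤ k, u (x i) (.kd κ) := by
    intro i hi
    simp only [x, dif_pos hi]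
    exact (hex i hi).choose_spec.1
  have hxI : ∀ i ≤ k, b (x i) (a i) .Id := by
    intro i hi
    simp only [x, dif_pos hi]
    exact (hex i hi).choose_spec.2
  refine ⟨x, ⟨hxk, ?_, ?_, ?_, ?_, ?_⟩⟩
  · intro i hi j hj hij
    have h1 := hxI j hj
    rw [← hij] at h1
    exact CntL_unique h hG (CntL_kk hκ (hxk i hi)) hi hj (hxI i hi) h1
  · intro y hy
    obtain ⟨j, hj, hI⟩ := CntL_id_exists h hA hκ hy
    exact ⟨j, hj, CntL_eq h hG hA hκ hy (hxk j hj) hj hI (hxI j hj)⟩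
  · intro i hi y hy hS
    obtain ⟨h1, h2⟩ := CntL_S h hG hA hκ (hxk i hi.le) hy hS hi.le (hxI i hi.le)
    exact CntL_eq h hG hA hκ hy (hxk _ h1) h1 h2 (hxI _ h1)
  · intro i hi
    obtain ⟨z, hU, -⟩ := h (x i) (a i)
    rw [hU.i2 (CntL_kk hκ (hxk i hi)) (hG.kind i hi) (hxI i hi), hG.king i hi 0]
    simp
  · intro i hi
    obtain ⟨z, hU, -⟩ := h (x i) (a i)
    rw [hU.i3 (CntL_kk hκ (hxk i hi)) (hG.kind i hi) (hxI i hi)]
    exact hla i hi

theorem card_line {κ : Fin 4} {x : ℕ → M} (hx : Line u b κ k x) :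
    Nat.card {y : M // u y (.kd κ)} = k + 1 := by
  have e : Fin (k + 1) ≃ {y : M // u y (.kd κ)} := by
    refine Equiv.ofBijective (fun i => ⟨x i, hx.kind i (by omega)⟩) ⟨?_, ?_⟩
    · intro i j hij
      have h1 := congrArg Subtype.val hij
      exact Fin.ext (hx.inj i (by omega) j (by omega) h1)
    · rintro ⟨y, hy⟩
      obtain ⟨i, hi, hyi⟩ := hx.all y hy
      exact ⟨⟨i, by omega⟩, Subtype.ext hyi.symm⟩
  rw [← Nat.card_congr e, Nat.card_eq_fintype_card, Fintype.card_fin]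

end Pool.Agent.Helper37.PX
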