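import Mathlib
import Pool.Agent.Helper37.PX.Full

set_option autoImplicit false

/-!
# PX-I: kind 1 has `k + 1` elements

Setting: all elements of kind 0 are the good `a 0, …, a k` (`hA`), `4 ≤ k`.
`r_uniq`: for a source `w` of kind 1: `R i w (a s)`, `R i w (a t)` imply `s = t` (`r_inj`).
`w_code`: for `w` of kind 1: `dW` (pair `(w, w)`): `z = a m` with `Same (a m) w`; `sb`, `nwDF` (pair `(a m, w)`): `z'` with
`R true w z'`, `R true (a m) z'`, so `z' = a (rc true m)`; `wP` (pair `(w, a m)`): `R false w (a (rc false m))`.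
So `num w = m` is determined by the values of `w` (`rc_inj`).
`w_exists`: for `m ≤ k` there is `w` of kind 1 with values those of `m`: `nM` (pair `(a m, μ)`, `μ` any element of kind 3, which
exists by `nL'` for the pair `(a k, l)`, `l` of kind 2): `Same (a m) w`, then as above.
`w_succ`: `w`, `w'` of kind 1, `S w w'`, `w` has values `(p, q)`, `w'` has values `(p', q')`: if `¬ EB w`, then `p' = p + 1`,
`q' = q` (`wwE3` pair `(w', w)`: `P1 w t`, `R false w' t`; `t = a s` for some `s ≤ k`, `s ≠ 0` (`p0`), `p1_back`: `R false w (a (s-1))`,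
so `s = p + 1`; `wwE4` pair `(w, w')`); if `EB w` then `q = p` (`e2`) and `q' = p + 1`.
`w_mr`: `v`, `w` of kind 1, `MR i v w`, `w` has values `(p, q)`, `R i v (a r)`: then `q + 1 < r`. Induction on `q - p`: if `EB w`
(equivalent to `p = q` by `e1`, `e2`): `wwDC` (pair `(w, v)`): `z = a s` with `P1 w z` (so `s = p + 1` as above), `LR i v (a s)`,
`¬ R i v (a s)`: if `r < s`, `below` gives `¬ R i v (a r)`; so `s < r`. If `¬ EB w`: `wwDB` (pair `(v, w)`): `w'` with `S w w'`,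
`MR i v w'`; `w_succ`: values `(p + 1, q)`, induction (`p + 1 ≤ q` as the values of `w'` are `rc` of a number: `w_code`, `rc_le`).
`w_inj`: `w ≠ w'` of kind 1 have different values: both `S w w'`, `S w' w` by `w_succ`; `MM w w'` by `w_mr`
(`q' + 1 < r ≤ q`, `rc_le_true`); else `wwX` (pair `(w, w')`): `z` with `R i w z`, `¬ R i w' z`.
`card_w`: bijection of `{w // kind 1}` with `Fin (k + 1)`.
-/

namespace Pool.Agent.Helper37.PX

variable {U B M : Type} {u : M → AU U → Prop} {b : M → M → AB B → Prop} {S : LocSys U B} {k : ℕ}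
  {a : ℕ → M}

private theorem CntW_nk (h : Model u b S) {w : M} (hw : u w (.kd 1)) : NK u w := by
  intro h0
  have := (h.un w w).kind1 0 1 h0 hw
  exact absurd this (by decide)

/-- `P1` of a proxy. -/
private theorem CntW_p1 (h : Model u b S) (hk : 4 ≤ k) (hG : Good u b k a)
    (hA : ∀ y, u y (.kd 0) → ∃ i ≤ k, y = a i) {w t : M} (hw : u w (.kd 1)) {p : ℕ} (hp : p ≤ k)
    (hwp : b w (a p) (.R false)) (ht : u t (.kd 0)) (h1 : b w t .P1) : p + 1 ≤ k ∧ t = a (p + 1) := by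
  obtain ⟨s, hs, rfl⟩ := hA t ht
  rcases s with _ | s
  · exact absurd h1 ((h.un w (a 0)).p0 (Or.inr hw) ht ((hG.king 0 (Nat.zero_le _) 0).2 rfl))
  · have h2 := p1_back h hG (by omega) hs (Or.inr hw) h1
    have h3 := r_inj h hG (by omega) (Or.inr hw) hp (by omega) false hwp h2
    rw [h3]
    exact ⟨hs, rfl⟩

/-- The proxy of a good element has its values. -/
private theorem CntW_same (h : Model u b S) (hG : Good u b k a) {w : M} (hw : u w (.kd 1)) {m : ℕ}
    (hm : m ≤ k) (hS : b (a m) w .Same) : ∀ i, b w (a (rc i m)) (.R i) := by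
  intro i
  cases i
  · obtain ⟨z, -, hD⟩ := h w (a m)
    obtain ⟨z0, z1, z2⟩ := hD.wP hw (hG.kind m hm) hS
    have e := (hG.val m hm false z z0).1 z2
    rw [e] at z1
    exact z1
  · obtain ⟨z, hU, hD⟩ := h (a m) w
    obtain ⟨z0, z1, z2⟩ := hD.nwDF (hG.kind m hm) hw (hU.sb (hG.kind m hm) hw hS)
    have e := (hG.val m hm true z z0).1 z1
    rw [e] at z2
    exact z2

theorem w_code (h : Model u b S) (hk : 4 ≤ k) (hG : Good u b k a)
    (hA : ∀ y, u y (.kd 0) → ∃ i ≤ k, y = a i) {w : M} (hw : u w (.kd 1)) :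
    ∃ m ≤ k, ∀ i, b w (a (rc i m)) (.R i) := by
  obtain ⟨z, -, hD⟩ := h w w
  obtain ⟨z0, z1⟩ := hD.dW hw rfl
  obtain ⟨m, hm, rfl⟩ := hA z z0
  exact ⟨m, hm, CntW_same h hG hw hm z1⟩

theorem w_exists (h : Model u b S) (hk : 4 ≤ k) (hG : Good u b k a)
    (hA : ∀ y, u y (.kd 0) → ∃ i ≤ k, y = a i) (h3 : ∃ x, u x (.kd 3)) {m : ℕ} (hm : m ≤ k) :
    ∃ w, u w (.kd 1) ∧ ∀ i, b w (a (rc i m)) (.R i) := by
  obtain ⟨x, hx⟩ := h3
  obtain ⟨z, -, hD⟩ := h (a m) x
  obtain ⟨z0, z1⟩ := hD.nM (hG.kind m hm) hx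
  exact ⟨z, z0, CntW_same h hG z0 hm z1⟩

/-- Numbers of a proxy and its successor. -/
private theorem CntW_succ (h : Model u b S) (hk : 4 ≤ k) (hG : Good u b k a)
    (hA : ∀ y, u y (.kd 0) → ∃ i ≤ k, y = a i) {m m' : ℕ} (hm : m ≤ k) (hm' : m' ≤ k) {w w' : M}
    (hw : u w (.kd 1)) (hw' : u w' (.kd 1)) (h1 : ∀ i, b w (a (rc i m)) (.R i))
    (h2 : ∀ i, b w' (a (rc i m')) (.R i)) (hS : b w w' .S) :
    m' = m + 1 ∧ (¬ u w .EB → rc false m' = rc false m + 1 ∧ rc true m' = rc true m) := by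
  have hr : ∀ i, rc i m ≤ k := fun i => (rc_le' i m).trans hm
  have hr' : ∀ i, rc i m' ≤ k := fun i => (rc_le' i m').trans hm'
  obtain ⟨t, -, hD⟩ := h w' w
  obtain ⟨t0, tP, tF, tT⟩ := hD.wwE3 hw' hw hS
  obtain ⟨hp, rfl⟩ := CntW_p1 h hk hG hA hw (hr false) (h1 false) t0 tP
  have hTm := T_add m
  have hTm' := T_add m'
  by_cases hE : u w .EB
  · have e1 := (h.un w (a (rc false m))).e2 (Or.inr hw) (hG.kind _ (hr false)) hE (h1 false)
    have e2 := r_inj h hG (by omega) (Or.inr hw) (hr false) (hr true) true e1 (h1 true)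
    have e3 := r_inj h hG (by omega) (Or.inr hw') hp (hr' true) true (tT hE) (h2 true)
    have e4 := ((h.un w w').s1 (Or.inr ⟨hw, hw'⟩) hS).1 hE
    have e5 := (h.un w' (a 0)).r3 (Or.inr hw') (hG.kind 0 (Nat.zero_le _)) false 0 e4
      ((hG.king 0 (Nat.zero_le _) 0).2 rfl)
    have e6 := r_inj h hG (by omega) (Or.inr hw') (Nat.zero_le _) (hr' false) false e5 (h2 false)
    refine ⟨?_, fun hn => absurd hE hn⟩
    rw [← e6, ← e3, T_succ] at hTm'
    rw [← e2] at hTm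
    omega
  · have e1 := r_inj h hG (by omega) (Or.inr hw') hp (hr' false) false (tF hE) (h2 false)
    obtain ⟨z, -, hD'⟩ := h w w'
    obtain ⟨z0, z1, z2⟩ := hD'.wwE4 hw hw' hS hE
    obtain ⟨s, hs, rfl⟩ := hA z z0
    have e2 := r_inj h hG (by omega) (Or.inr hw) hs (hr true) true z1 (h1 true)
    have e3 := r_inj h hG (by omega) (Or.inr hw') hs (hr' true) true z2 (h2 true)
    have e4 : rc true m' = rc true m := by rw [← e3, e2]
    refine ⟨?_, fun _ => ⟨e1.symm, e4⟩⟩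
    rw [e4, ← e1] at hTm'
    omega

private theorem CntW_mr (h : Model u b S) (hk : 4 ≤ k) (hG : Good u b k a)
    (hA : ∀ y, u y (.kd 0) → ∃ i ≤ k, y = a i) (i : Bool) {v : M} (hv : u v (.kd 1)) {r : ℕ}
    (hr : r ≤ k) (hvr : b v (a r) (.R i)) : ∀ (n m : ℕ), rc true m - rc false m ≤ n → m ≤ k →
    ∀ w : M, u w (.kd 1) →
    (∀ i, b w (a (rc i m)) (.R i)) → b v w (.MR i) → rc true m + 1 < r := by
  intro n
  induction n with
  | zero =>
    intro m hn hm w hw hwm hMR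
    have hpq : rc false m = rc true m := by
      have := rc_le m
      omega
    have hrm : rc false m ≤ k := (rc_le' false m).trans hm
    obtain ⟨z, -, hD⟩ := h w v
    obtain ⟨z0, z1, z2⟩ := hD.wwDC hw hv ⟨i, hMR⟩
    obtain ⟨hp, rfl⟩ := CntW_p1 h hk hG hA hw hrm (hwm false) z0 z1
    obtain ⟨z3, z4⟩ := z2 i hMR
    rw [hpq] at z3 z4 hp
    rcases Nat.lt_trichotomy r (rc true m + 1) with h' | h' | h'
    · exact absurd hvr (below h hG (Or.inr hv) (CntW_nk h hv) hp h' i z3).2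
    · rw [h'] at hvr
      exact absurd hvr z4
    · exact h'
  | succ n ih =>
    intro m hn hm w hw hwm hMR
    by_cases hle : rc true m - rc false m ≤ n
    · exact ih m hle hm w hw hwm hMR
    have hE : ¬ u w .EB := by
      intro hE
      have hrm : ∀ i, rc i m ≤ k := fun i => (rc_le' i m).trans hm
      have e1 := (h.un w (a (rc false m))).e2 (Or.inr hw) (hG.kind _ (hrm false)) hE (hwm false)
      have e2 := r_inj h hG (by omega) (Or.inr hw) (hrm false) (hrm true) true e1 (hwm true)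
      omega
    obtain ⟨z, -, hD⟩ := h v w
    obtain ⟨z0, z1, z2⟩ := hD.wwDB hv hw ⟨i, hMR⟩ hE
    obtain ⟨m', hm', hzm⟩ := w_code h hk hG hA z0
    obtain ⟨-, e1⟩ := CntW_succ h hk hG hA hm hm' hw z0 hwm hzm z1
    obtain ⟨e2, e3⟩ := e1 hE
    have e4 := ih m' (by omega) hm' z z0 hzm (z2 i hMR)
    omega

theorem w_mr (h : Model u b S) (hk : 4 ≤ k) (hG : Good u b k a)
    (hA : ∀ y, u y (.kd 0) → ∃ i ≤ k, y = a i) (i : Bool) {v : M} (hv : u v (.kd 1)) {r : ℕ}
    (hr : r ≤ k) (hvr : b v (a r) (.R i)) : ∀ (m : ℕ), m ≤ k → ∀ w : M, u w (.kd 1) →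
    (∀ i, b w (a (rc i m)) (.R i)) → b v w (.MR i) → rc true m + 1 < r := by
  intro m hm w hw hwm hMR
  exact CntW_mr h hk hG hA i hv hr hvr _ m le_rfl hm w hw hwm hMR

theorem w_inj (h : Model u b S) (hk : 4 ≤ k) (hG : Good u b k a)
    (hA : ∀ y, u y (.kd 0) → ∃ i ≤ k, y = a i) {m : ℕ} (hm : m ≤ k) {w w' : M}
    (hw : u w (.kd 1)) (hw' : u w' (.kd 1)) (h1 : ∀ i, b w (a (rc i m)) (.R i))
    (h2 : ∀ i, b w' (a (rc i m)) (.R i)) : w = w' := by
  by_contra hne
  have hr : ∀ i, rc i m ≤ k := fun i => (rc_le' i m).trans hm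
  obtain ⟨z, -, hD⟩ := h w w'
  have hM1 : ¬ MM b w w' := by
    rintro ⟨i, hi⟩
    have e1 := w_mr h hk hG hA i hw (hr i) (h1 i) m hm w' hw' h2 hi
    have e2 := rc_le_true i m
    omega
  have hM2 : ¬ MM b w' w := by
    rintro ⟨i, hi⟩
    have e1 := w_mr h hk hG hA i hw' (hr i) (h2 i) m hm w hw h1 hi
    have e2 := rc_le_true i m
    omega
  have hS1 : ¬ b w w' .S := by
    intro hS
    have := (CntW_succ h hk hG hA hm hm hw hw' h1 h2 hS).1
    omega
  have hS2 : ¬ b w' w .S := by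
    intro hS
    have := (CntW_succ h hk hG hA hm hm hw' hw h2 h1 hS).1
    omega
  obtain ⟨z0, i, z1, z2⟩ := hD.wwX hw hw' hne hM1 hM2 hS1 hS2
  obtain ⟨s, hs, rfl⟩ := hA z z0
  have e := r_inj h hG (by omega) (Or.inr hw) hs (hr i) i z1 (h1 i)
  rw [e] at z2
  exact z2 (h2 i)

theorem card_w (h : Model u b S) (hk : 4 ≤ k) (hG : Good u b k a)
    (hA : ∀ y, u y (.kd 0) → ∃ i ≤ k, y = a i) (h3 : ∃ x, u x (.kd 3)) :
    Nat.card {w : M // u w (.kd 1)} = k + 1 := by
  have hex : ∀ i : Fin (k + 1), ∃ w, u w (.kd 1) ∧ ∀ s, b w (a (rc s i)) (.R s) := fun i =>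
    w_exists h hk hG hA h3 (m := (i : ℕ)) (by omega)
  choose f hf0 hf1 using hex
  have e : Fin (k + 1) ≃ {w : M // u w (.kd 1)} := by
    refine Equiv.ofBijective (fun i => ⟨f i, hf0 i⟩) ⟨?_, ?_⟩
    · intro i j hij
      have h1 : f i = f j := congrArg Subtype.val hij
      have hv : ∀ s, rc s (i : ℕ) = rc s (j : ℕ) := by
        intro s
        have h2 := hf1 j s
        rw [← h1] at h2
        have hi : rc s (i : ℕ) ≤ k := (rc_le' s _).trans (by omega)
        have hj : rc s (j : ℕ) ≤ k := (rc_le' s _).trans (by omega)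
        exact r_inj h hG (by omega) (Or.inr (hf0 i)) hi hj s (hf1 i s) h2
      exact Fin.ext (rc_inj (hv false) (hv true))
    · rintro ⟨w, hw⟩
      obtain ⟨m, hm, hwm⟩ := w_code h hk hG hA hw
      refine ⟨⟨m, by omega⟩, Subtype.ext ?_⟩
      exact w_inj h hk hG hA hm (hf0 _) hw (hf1 ⟨m, by omega⟩) hwm
  rw [← Nat.card_congr e, Nat.card_eq_fintype_card, Fintype.card_fin]

end Pool.Agent.Helper37.PX
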