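import Mathlib
import Pool.Agent.Helper37.PX.CntW
import Pool.Agent.Helper37.PX.CntL

set_option autoImplicit false

/-!
# PX-K: finite models have `4 n` elements and give a solution of the local system on `n` points

`full` gives `k`, `a`; `n = k + 1`. Kind 0 has `k + 1` elements. `l` of kind 2 with `Z` by `start`; `μ` of kind 3 with `Z` by `nL'`
(pair `(a k, l)`). `line` for `κ = 2`: `hs` by `lm` (pair `(x, μ)`); for `κ = 3`: `hs` by `ml` (pair `(x, l)`). Lines `x`, `y`.
`card_w`. `M` is the disjoint union of the four kinds (`kind`, `kind1`): `Nat.card M = 4 * (k + 1)`.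
`Le (x i) (y j) ↔ i ≤ j` and `Ge (x i) (y j) ↔ j ≤ i` together by induction on `i + j` (`g1`, `g2`, `lm`, `ml` with `succU`).
Solution: `u' i s = u (x i) (.loc s)`, `b' i j c = b (x i) (y j) (.loc c)`; `u (y i) (.loc s) ↔ u (x i) (.loc s)` by `g3`; `T0` by `g4`
(rewrite the arguments with `propext`), `T1` by `lm` (pair `(x i, y j)`; witness `x (i+1)` by `succU`), `T2` by `ml` (pair `(y j, x i)`).
-/

namespace Pool.Agent.Helper37.PX

variable {U B M : Type} {u : M → AU U → Prop} {b : M → M → AB B → Prop} {S : LocSys U B} {k : ℕ}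
  {a : ℕ → M}

/-- The elements of kind 0 are the `k + 1` good ones. -/
theorem snd_card_zero (hG : Good u b k a) (hA : ∀ y, u y (.kd 0) → ∃ i ≤ k, y = a i) :
    Nat.card {w : M // u w (.kd 0)} = k + 1 := by
  have hbij : Function.Bijective
      (fun i : Fin (k + 1) => (⟨a i, hG.kind i (Nat.lt_succ_iff.1 i.2)⟩ : {w : M // u w (.kd 0)})) := by
    constructor
    · intro i j hij
      have h1 : a i = a j := congrArg Subtype.val hij
      exact Fin.ext (hG.inj i (Nat.lt_succ_iff.1 i.2) j (Nat.lt_succ_iff.1 j.2) h1)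
    · rintro ⟨w, hw⟩
      obtain ⟨i, hi, hwi⟩ := hA w hw
      exact ⟨⟨i, Nat.lt_succ_iff.2 hi⟩, Subtype.ext hwi.symm⟩
  rw [← Nat.card_congr (Equiv.ofBijective _ hbij), Nat.card_eq_fintype_card, Fintype.card_fin]

/-- The universe is the disjoint union of the four kinds. -/
theorem snd_card [Finite M] (h : Model u b S) {m : ℕ}
    (hc : ∀ i : Fin 4, Nat.card {w : M // u w (.kd i)} = m) : Nat.card M = 4 * m := by
  classical
  have hkd : ∀ w : M, ∃ i, u w (.kd i) := fun w => by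
    obtain ⟨z, hz⟩ := h w w
    exact hz.1.kind
  have hkd1 : ∀ (w : M) (i j : Fin 4), u w (.kd i) → u w (.kd j) → i = j := fun w => by
    obtain ⟨z, hz⟩ := h w w
    exact hz.1.kind1
  let κ : M → Fin 4 := fun w => Classical.choose (hkd w)
  have hκ : ∀ w, u w (.kd (κ w)) := fun w => Classical.choose_spec (hkd w)
  have e1 : ∀ i : Fin 4, Nat.card {w : M // κ w = i} = m := fun i => by
    rw [← hc i]
    refine Nat.card_congr (Equiv.subtypeEquivRight fun w => ⟨fun hw => ?_, fun hw => ?_⟩)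
    · rw [← hw]; exact hκ w
    · exact hkd1 w _ _ (hκ w) hw
  rw [← Nat.card_congr (Equiv.sigmaFiberEquiv κ), Nat.card_sigma]
  rw [Finset.sum_congr rfl fun i _ => e1 i]
  simp

/-- The two orders between the lines. -/
theorem snd_order (h : Model u b S) {x y : ℕ → M} (hx : Line u b 2 k x) (hy : Line u b 3 k y) :
    ∀ n i j : ℕ, i + j ≤ n → i ≤ k → j ≤ k →
      (b (x i) (y j) .Le ↔ i ≤ j) ∧ (b (x i) (y j) .Ge ↔ j ≤ i) := by
  intro n
  induction n with
  | zero =>
    intro i j hij hi hj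
    obtain rfl : i = 0 := by omega
    obtain rfl : j = 0 := by omega
    obtain ⟨z, hz⟩ := h (x 0) (y 0)
    exact ⟨iff_of_true (hz.1.g1 (hx.kind 0 hi) (hy.kind 0 hj) ((hx.zero 0 hi).2 rfl)) le_rfl,
      iff_of_true (hz.1.g2 (hx.kind 0 hi) (hy.kind 0 hj) ((hy.zero 0 hj).2 rfl)) le_rfl⟩
  | succ n ih =>
    intro i j hij hi hj
    constructor
    · rcases Nat.eq_zero_or_pos i with h0 | h0
      · subst h0
        obtain ⟨z, hz⟩ := h (x 0) (y j)
        exact iff_of_true (hz.1.g1 (hx.kind 0 hi) (hy.kind j hj) ((hx.zero 0 hi).2 rfl))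
          (Nat.zero_le _)
      · obtain ⟨i', rfl⟩ : ∃ i', i = i' + 1 := ⟨i - 1, by omega⟩
        have hi' : i' ≤ k := by omega
        obtain ⟨z, hz⟩ := h (x i') (y j)
        have hla : ¬ u (x i') .La := fun hl => by
          have := (hx.last i' hi').1 hl
          omega
        obtain ⟨hz2, hzS, hLe, _⟩ := hz.2.lm (hx.kind i' hi') (hy.kind j hj) hla
        have hze : z = x (i' + 1) := hx.succU i' (by omega) z hz2 hzS
        rw [hze] at hLe
        obtain ⟨ih1, ih2⟩ := ih i' j (by omega) hi' hj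
        rw [hLe, ih1, ih2]
        omega
    · rcases Nat.eq_zero_or_pos j with h0 | h0
      · subst h0
        obtain ⟨z, hz⟩ := h (x i) (y 0)
        exact iff_of_true (hz.1.g2 (hx.kind i hi) (hy.kind 0 hj) ((hy.zero 0 hj).2 rfl))
          (Nat.zero_le _)
      · obtain ⟨j', rfl⟩ : ∃ j', j = j' + 1 := ⟨j - 1, by omega⟩
        have hj' : j' ≤ k := by omega
        obtain ⟨z, hz⟩ := h (y j') (x i)
        have hla : ¬ u (y j') .La := fun hl => by
          have := (hy.last j' hj').1 hl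
          omega
        obtain ⟨hz2, hzS, hGe, _⟩ := hz.2.ml (hy.kind j' hj') (hx.kind i hi) hla
        have hze : z = y (j' + 1) := hy.succU j' (by omega) z hz2 hzS
        rw [hze] at hGe
        obtain ⟨ih1, ih2⟩ := ih i j' (by omega) hi hj'
        rw [hGe, ih1, ih2]
        omega

/-- The solution of the local system. -/
theorem snd_sol (h : Model u b S) {x y : ℕ → M} (hx : Line u b 2 k x) (hy : Line u b 3 k y) :
    S.IsSol (k + 1) (fun i s => u (x i) (.loc s)) (fun i j c => b (x i) (y j) (.loc c)) := by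
  have hord : ∀ i j, i ≤ k → j ≤ k →
      (b (x i) (y j) .Le ↔ i ≤ j) ∧ (b (x i) (y j) .Ge ↔ j ≤ i) := fun i j hi hj =>
    snd_order h hx hy (i + j) i j le_rfl hi hj
  have hloc : ∀ i ≤ k, (fun s => u (y i) (.loc s)) = fun s => u (x i) (.loc s) := fun i hi => by
    obtain ⟨z, hz⟩ := h (x i) (y i)
    funext s
    exact propext (hz.1.g3 (hx.kind i hi) (hy.kind i hi) ((hord i i hi hi).1.2 le_rfl)
      ((hord i i hi hi).2.2 le_rfl) s).symm
  refine ⟨fun p q hp hq => ?_, fun p q hp hq => ?_, fun p q hp hq => ?_⟩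
  · have hp' : p ≤ k := by omega
    have hq' : q ≤ k := by omega
    obtain ⟨z, hz⟩ := h (x p) (y q)
    have h4 := hz.1.g4 (hx.kind p hp') (hy.kind q hq')
    rw [hloc q hq'] at h4
    have e1 : (u (x p) .Z) = (p = 0) := propext (hx.zero p hp')
    have e2 : (u (x p) .La) = (p + 1 = k + 1) :=
      propext ((hx.last p hp').trans ⟨fun h => by omega, fun h => by omega⟩)
    have e3 : (u (y q) .Z) = (q = 0) := propext (hy.zero q hq')
    have e4 : (u (y q) .La) = (q + 1 = k + 1) :=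
      propext ((hy.last q hq').trans ⟨fun h => by omega, fun h => by omega⟩)
    have e5 : (b (x p) (y q) .Le ∧ b (x p) (y q) .Ge) = (p = q) :=
      propext ⟨fun hh => le_antisymm ((hord p q hp' hq').1.1 hh.1) ((hord p q hp' hq').2.1 hh.2),
        fun hh => ⟨(hord p q hp' hq').1.2 hh.le, (hord p q hp' hq').2.2 hh.ge⟩⟩
    rw [e1, e2, e3, e4, e5] at h4
    exact h4
  · have hp' : p ≤ k := by omega
    have hq' : q ≤ k := by omega
    obtain ⟨z, hz⟩ := h (x p) (y q)
    have hla : ¬ u (x p) .La := fun hl => by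
      have := (hx.last p hp').1 hl
      omega
    obtain ⟨hz2, hzS, _, hT⟩ := hz.2.lm (hx.kind p hp') (hy.kind q hq') hla
    have hze : z = x (p + 1) := hx.succU p (by omega) z hz2 hzS
    rw [hze, hloc q hq'] at hT
    exact hT
  · have hp' : p ≤ k := by omega
    have hq' : q ≤ k := by omega
    have hq1 : q + 1 ≤ k := by omega
    obtain ⟨z, hz⟩ := h (y q) (x p)
    have hla : ¬ u (y q) .La := fun hl => by
      have := (hy.last q hq').1 hl
      omega
    obtain ⟨hz2, hzS, _, hT⟩ := hz.2.ml (hy.kind q hq') (hx.kind p hp') hla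
    have hze : z = y (q + 1) := hy.succU q (by omega) z hz2 hzS
    rw [hze, hloc q hq', hloc (q + 1) hq1] at hT
    exact hT

theorem a_sound [Finite M] [Nonempty M] (h : Model u b S) :
    ∃ n, 5 ≤ n ∧ Nat.card M = 4 * n ∧ S.Sol n := by
  obtain ⟨k, a, hk, hG, hla, hA⟩ := full h
  obtain ⟨⟨l, hl2, hlZ⟩, _⟩ := start h
  obtain ⟨μ, hμ⟩ := h (a k) l
  obtain ⟨hμ3, hμZ⟩ := hμ.2.nL' (hG.kind k le_rfl) hl2 ((hla k le_rfl).2 rfl)
  obtain ⟨x, hx⟩ := line h hk hG hla hA 2 (Or.inl rfl) ⟨l, hl2, hlZ⟩ fun w hw hwl => by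
    obtain ⟨z, hz⟩ := h w μ
    obtain ⟨hz2, hzS, _⟩ := hz.2.lm hw hμ3 hwl
    exact ⟨z, hz2, hzS⟩
  obtain ⟨y, hy⟩ := line h hk hG hla hA 3 (Or.inr rfl) ⟨μ, hμ3, hμZ⟩ fun w hw hwl => by
    obtain ⟨z, hz⟩ := h w l
    obtain ⟨hz2, hzS, _⟩ := hz.2.ml hw hl2 hwl
    exact ⟨z, hz2, hzS⟩
  refine ⟨k + 1, by omega, snd_card h fun i => ?_, ⟨_, _, snd_sol h hx hy⟩⟩
  fin_cases i
  · exact snd_card_zero hG hA
  · exact card_w h hk hG hA ⟨μ, hμ3⟩
  · exact card_line hx
  · exact card_line hy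

end Pool.Agent.Helper37.PX
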