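import Mathlib
import Pool.Agent.Helper37.PX.ASound
import Pool.Agent.Helper37.PX.AIntU
import Pool.Agent.Helper37.PX.AIntN
import Pool.Agent.Helper37.PX.AIntW
import Pool.Agent.Helper37.PX.AIntL

set_option autoImplicit false

/-!
# PX-P: every local system is coded by one sentence for all x, for all y, exists z

`AU U`, `AB B` are finite; `Φ = Phi S`, `phi_dat`. `→`: `a_sound`. `←`: intended structure on `Fin 4 × Fin n`.
-/

namespace Pool.Agent.Helper37.PX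

theorem finite_AU (U : Type) [Finite U] : Finite (AU U) := by
  refine Finite.of_surjective
    (α := Fin 4 ⊕ Fin 4 ⊕ Fin 3 ⊕ (Bool × Fin 4) ⊕ U)
    (fun s => match s with
      | Sum.inl i => AU.kd i
      | Sum.inr (Sum.inl c) => AU.A c
      | Sum.inr (Sum.inr (Sum.inl 0)) => AU.La
      | Sum.inr (Sum.inr (Sum.inl 1)) => AU.Z
      | Sum.inr (Sum.inr (Sum.inl 2)) => AU.EB
      | Sum.inr (Sum.inr (Sum.inr (Sum.inl p))) => AU.Rc p.1 p.2
      | Sum.inr (Sum.inr (Sum.inr (Sum.inr a))) => AU.loc a) ?_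
  intro s
  cases s with
  | kd i => exact ⟨Sum.inl i, rfl⟩
  | A c => exact ⟨Sum.inr (Sum.inl c), rfl⟩
  | La => exact ⟨Sum.inr (Sum.inr (Sum.inl 0)), rfl⟩
  | Z => exact ⟨Sum.inr (Sum.inr (Sum.inl 1)), rfl⟩
  | EB => exact ⟨Sum.inr (Sum.inr (Sum.inl 2)), rfl⟩
  | Rc i c => exact ⟨Sum.inr (Sum.inr (Sum.inr (Sum.inl (i, c)))), rfl⟩
  | loc a => exact ⟨Sum.inr (Sum.inr (Sum.inr (Sum.inr a))), rfl⟩

theorem finite_AB (B : Type) [Finite B] : Finite (AB B) := by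
  refine Finite.of_surjective
    (α := Bool ⊕ Bool ⊕ Bool ⊕ Fin 11 ⊕ B)
    (fun s => match s with
      | Sum.inl i => AB.R i
      | Sum.inr (Sum.inl i) => AB.LR i
      | Sum.inr (Sum.inr (Sum.inl i)) => AB.MR i
      | Sum.inr (Sum.inr (Sum.inr (Sum.inl 0))) => AB.P1
      | Sum.inr (Sum.inr (Sum.inr (Sum.inl 1))) => AB.S
      | Sum.inr (Sum.inr (Sum.inr (Sum.inl 2))) => AB.SB
      | Sum.inr (Sum.inr (Sum.inr (Sum.inl 3))) => AB.Same
      | Sum.inr (Sum.inr (Sum.inr (Sum.inl 4))) => AB.lt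
      | Sum.inr (Sum.inr (Sum.inr (Sum.inl 5))) => AB.QL
      | Sum.inr (Sum.inr (Sum.inr (Sum.inl 6))) => AB.Id
      | Sum.inr (Sum.inr (Sum.inr (Sum.inl 7))) => AB.LI
      | Sum.inr (Sum.inr (Sum.inr (Sum.inl 8))) => AB.I1
      | Sum.inr (Sum.inr (Sum.inr (Sum.inl 9))) => AB.Le
      | Sum.inr (Sum.inr (Sum.inr (Sum.inl 10))) => AB.Ge
      | Sum.inr (Sum.inr (Sum.inr (Sum.inr c))) => AB.loc c) ?_
  intro s
  cases s with
  | R i => exact ⟨Sum.inl i, rfl⟩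
  | LR i => exact ⟨Sum.inr (Sum.inl i), rfl⟩
  | MR i => exact ⟨Sum.inr (Sum.inr (Sum.inl i)), rfl⟩
  | P1 => exact ⟨Sum.inr (Sum.inr (Sum.inr (Sum.inl 0))), rfl⟩
  | S => exact ⟨Sum.inr (Sum.inr (Sum.inr (Sum.inl 1))), rfl⟩
  | SB => exact ⟨Sum.inr (Sum.inr (Sum.inr (Sum.inl 2))), rfl⟩
  | Same => exact ⟨Sum.inr (Sum.inr (Sum.inr (Sum.inl 3))), rfl⟩
  | lt => exact ⟨Sum.inr (Sum.inr (Sum.inr (Sum.inl 4))), rfl⟩
  | QL => exact ⟨Sum.inr (Sum.inr (Sum.inr (Sum.inl 5))), rfl⟩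
  | Id => exact ⟨Sum.inr (Sum.inr (Sum.inr (Sum.inl 6))), rfl⟩
  | LI => exact ⟨Sum.inr (Sum.inr (Sum.inr (Sum.inl 7))), rfl⟩
  | I1 => exact ⟨Sum.inr (Sum.inr (Sum.inr (Sum.inl 8))), rfl⟩
  | Le => exact ⟨Sum.inr (Sum.inr (Sum.inr (Sum.inl 9))), rfl⟩
  | Ge => exact ⟨Sum.inr (Sum.inr (Sum.inr (Sum.inl 10))), rfl⟩
  | loc c => exact ⟨Sum.inr (Sum.inr (Sum.inr (Sum.inr c))), rfl⟩

theorem aae {U B : Type} [Finite U] [Finite B] (S : LocSys U B) :
    ∃ (U' B' : Type) (_ : Finite U') (_ : Finite B') (Φ : Dat U' B' → Prop), ∀ N, 0 < N →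
      ((∃ (M : Type) (u : M → U' → Prop) (b : M → M → B' → Prop), Nat.card M = N ∧
        ∀ x y, ∃ z, Φ (dat u b x y z)) ↔ ∃ n, 5 ≤ n ∧ N = 4 * n ∧ S.Sol n) := by
  refine ⟨AU U, AB B, finite_AU U, finite_AB B, Phi S, fun N hN => ⟨?_, ?_⟩⟩
  · rintro ⟨M, u, b, hM, h⟩
    have hfin : Finite M := Nat.finite_of_card_ne_zero (by omega)
    have hne : Nonempty M := by
      by_contra hc
      rw [not_nonempty_iff] at hc
      rw [Nat.card_of_isEmpty] at hM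
      omega
    have hm : Model u b S := fun x y => by
      obtain ⟨z, hz⟩ := h x y
      exact ⟨z, (phi_dat S u b x y z).1 hz⟩
    obtain ⟨n, h1, h2, h3⟩ := a_sound hm
    exact ⟨n, h1, hM.symm.trans h2, h3⟩
  · rintro ⟨n, hn, rfl, u0, b0, hs⟩
    refine ⟨Fin 4 × Fin n, intU n u0, intB n b0, ?_, fun x y => ?_⟩
    · rw [Nat.card_prod, Nat.card_eq_fintype_card, Nat.card_eq_fintype_card, Fintype.card_fin,
        Fintype.card_fin]
    · have hd : ∃ z, Du (intU n u0) (intB n b0) (fun s t => s = t) S x y z := by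
        by_cases h2 : x.1 = 2 ∨ x.1 = 3 ∨ y.1 = 2 ∨ y.1 = 3
        · exact int_duL hn hs x y h2
        · push Not at h2
          obtain ⟨h3, h4, h5, h6⟩ := h2
          have hx : x.1 = 0 ∨ x.1 = 1 := by
            have : ∀ i : Fin 4, i ≠ 2 → i ≠ 3 → i = 0 ∨ i = 1 := by decide
            exact this _ h3 h4
          have hy : y.1 = 0 ∨ y.1 = 1 := by
            have : ∀ i : Fin 4, i ≠ 2 → i ≠ 3 → i = 0 ∨ i = 1 := by decide
            exact this _ h5 h6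
          rcases hx with hx | hx <;> rcases hy with hy | hy
          · exact int_duN hn x y hx hy
          · exact int_duW hn x y (Or.inr (Or.inl ⟨hx, hy⟩))
          · exact int_duW hn x y (Or.inl ⟨hx, hy⟩)
          · exact int_duW hn x y (Or.inr (Or.inr ⟨hx, hy⟩))
      obtain ⟨z, hz⟩ := hd
      exact ⟨z, (phi_dat S _ _ x y z).2 ⟨int_un hn hs x y, hz⟩⟩

end Pool.Agent.Helper37.PX
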