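import Mathlib
import Pool.Agent.Helper37.PX.Defs

set_option autoImplicit false

/-!
# PX-E: every local system is coded by one sentence for all x, exists y, for all z

Symbols: unary `U' = U ⊕ Fin 2` (zero `Z`, last `La`), binary `B' = B ⊕ Fin 2` (`Le`, `Ge`; on the diagonal and everywhere on the one line of points).
`Φ` for `x, y, z` (`x = 0, y = 1, z = 2` in `Dat`; `b` of the pair `(s, t)`; equality `e`), the conjunction of:
* `Z x ∧ Z z → x = z`; `Z x → Le x z`; `Le x x`; `Le x z ↔ Ge z x`; `Le x z ∧ Le z x → x = z`; `La x ∧ Le x z → x = z`;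
* `La x → Z y`; `¬ La x → (Le y z ↔ Le x z ∧ x ≠ z)` and `¬ La x → ¬ Z y`;
* `S.T0 (Z x) (La x) (Z z) (La z) (x = z) (u x) (u z) (b x z)`;
* `¬ La x → S.T1 (u x) (u y) (u z) (b x z) (b y z)` and `¬ La x → S.T2 (u z) (u x) (u y) (b z x) (b z y)`.
`→`: choose `s x` (the witness `y`). `F x = {z | Le x z}`: `x ∈ F x`; if `¬ La x` then `F (s x) = F x \ {x}`. So iterating `s` from any point reaches a
last point, and then a zero `a 0` with `F (a 0) = M`. `a (i+1) = s (a i)`: `F (a i) = M \ {a 0, …, a (i-1)}` up to the first `k` with `La (a k)`; then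
`F (a k) = {a k}`. So `M = {a 0, …, a k}`, all different, `Nat.card M = k + 1`; `La (a i) ↔ i = k` (if `La (a i)`, `F (a i) = {a i}`), `Z (a i) ↔ i = 0`. Solution:
`u' i = u (a i)`, `b' i j = b (a i) (a j)`. `←`: `M = Fin N` (`y = x + 1`, or `0` for the last `x`).
-/

namespace Pool.Agent.Helper37.PX

namespace AEAx

variable {U B : Type}

/-- The quantifier free part: unary `inr false` (first), `inr true` (last), binary `none` (order). -/
def PhiA (S : LocSys U B) (d : Dat (U ⊕ Bool) (Option B)) : Prop :=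
  (d.u 0 (Sum.inr false) → d.b 0 2 none) ∧ d.b 0 0 none ∧
  (d.u 0 (Sum.inr true) → d.b 0 2 none → d.e 0 2) ∧
  (d.u 0 (Sum.inr true) → d.u 1 (Sum.inr false)) ∧
  (¬ d.u 0 (Sum.inr true) → (d.b 1 2 none ↔ d.b 0 2 none ∧ ¬ d.e 0 2)) ∧
  (¬ d.u 0 (Sum.inr true) → ¬ d.u 1 (Sum.inr false)) ∧
  S.T0 (d.u 0 (Sum.inr false)) (d.u 0 (Sum.inr true)) (d.u 2 (Sum.inr false))
    (d.u 2 (Sum.inr true)) (d.e 0 2) (fun a => d.u 0 (Sum.inl a)) (fun a => d.u 2 (Sum.inl a))
    (fun c => d.b 0 2 (some c)) ∧
  (¬ d.u 0 (Sum.inr true) → S.T1 (fun a => d.u 0 (Sum.inl a)) (fun a => d.u 1 (Sum.inl a))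
    (fun a => d.u 2 (Sum.inl a)) (fun c => d.b 0 2 (some c)) (fun c => d.b 1 2 (some c))) ∧
  (¬ d.u 0 (Sum.inr true) → S.T2 (fun a => d.u 2 (Sum.inl a)) (fun a => d.u 0 (Sum.inl a))
    (fun a => d.u 1 (Sum.inl a)) (fun c => d.b 2 0 (some c)) (fun c => d.b 2 1 (some c)))

/-- The same with the points in place of their numbers. -/
def PhiB (S : LocSys U B) {M : Type} (u : M → U ⊕ Bool → Prop) (b : M → M → Option B → Prop)
    (x y z : M) : Prop :=
  (u x (Sum.inr false) → b x z none) ∧ b x x none ∧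
  (u x (Sum.inr true) → b x z none → x = z) ∧
  (u x (Sum.inr true) → u y (Sum.inr false)) ∧
  (¬ u x (Sum.inr true) → (b y z none ↔ b x z none ∧ ¬ x = z)) ∧
  (¬ u x (Sum.inr true) → ¬ u y (Sum.inr false)) ∧
  S.T0 (u x (Sum.inr false)) (u x (Sum.inr true)) (u z (Sum.inr false))
    (u z (Sum.inr true)) (x = z) (fun a => u x (Sum.inl a)) (fun a => u z (Sum.inl a))
    (fun c => b x z (some c)) ∧
  (¬ u x (Sum.inr true) → S.T1 (fun a => u x (Sum.inl a)) (fun a => u y (Sum.inl a))
    (fun a => u z (Sum.inl a)) (fun c => b x z (some c)) (fun c => b y z (some c))) ∧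
  (¬ u x (Sum.inr true) → S.T2 (fun a => u z (Sum.inl a)) (fun a => u x (Sum.inl a))
    (fun a => u y (Sum.inl a)) (fun c => b z x (some c)) (fun c => b z y (some c)))

theorem phi_iff (S : LocSys U B) {M : Type} (u : M → U ⊕ Bool → Prop)
    (b : M → M → Option B → Prop) (x y z : M) :
    PhiA S (dat u b x y z) ↔ PhiB S u b x y z := Iff.rfl

theorem forward (S : LocSys U B) {M : Type} (u : M → U ⊕ Bool → Prop)
    (b : M → M → Option B → Prop) {N : ℕ} (hN : 0 < N) (hc : Nat.card M = N)
    (h : ∀ x, ∃ y, ∀ z, PhiB S u b x y z) : S.Sol N := by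
  classical
  have hfin : Finite M := Nat.finite_of_card_ne_zero (by omega)
  have hne : Nonempty M := (Nat.card_pos_iff.mp (by omega)).1
  choose s hs using h
  have hZ : ∀ x z, u x (Sum.inr false) → b x z none := fun x z => (hs x z).1
  have hR : ∀ x, b x x none := fun x => (hs x x).2.1
  have hL : ∀ x z, u x (Sum.inr true) → b x z none → x = z := fun x z => (hs x z).2.2.1
  have hLs : ∀ x, u x (Sum.inr true) → u (s x) (Sum.inr false) := fun x => (hs x x).2.2.2.1
  have hS : ∀ x z, ¬ u x (Sum.inr true) → (b (s x) z none ↔ b x z none ∧ ¬ x = z) :=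
    fun x z => (hs x z).2.2.2.2.1
  have hSZ : ∀ x, ¬ u x (Sum.inr true) → ¬ u (s x) (Sum.inr false) :=
    fun x => (hs x x).2.2.2.2.2.1
  -- iterating reaches a last point
  have hlast : ∀ (m : ℕ) (x : M), Set.ncard {z | b x z none} ≤ m → ∃ j, u (s^[j] x) (Sum.inr true) := by
    intro m
    induction m with
    | zero =>
      intro x hx
      exfalso
      have h0 : Set.ncard {z | b x z none} = 0 := by omega
      rw [Set.ncard_eq_zero (Set.toFinite _)] at h0
      have : x ∈ {z | b x z none} := hR x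
      rw [h0] at this
      exact this
    | succ m ih =>
      intro x hx
      by_cases hx' : u x (Sum.inr true)
      · exact ⟨0, hx'⟩
      · have hlt : Set.ncard {z | b (s x) z none} < Set.ncard {z | b x z none} := by
          apply Set.ncard_lt_ncard _ (Set.toFinite _)
          refine ⟨fun z hz => ((hS x z hx').mp hz).1, fun hcon => ?_⟩
          exact ((hS x x hx').mp (hcon (hR x))).2 rfl
        obtain ⟨j, hj⟩ := ih (s x) (by omega)
        exact ⟨j + 1, hj⟩
  obtain ⟨x0⟩ := hne
  obtain ⟨j0, hj0⟩ := hlast _ x0 le_rfl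
  set a0 := s (s^[j0] x0) with ha0
  have hZa : u a0 (Sum.inr false) := hLs _ hj0
  have hex : ∃ j, u (s^[j] a0) (Sum.inr true) := hlast _ a0 le_rfl
  set k := Nat.find hex with hk
  have hLk : u (s^[k] a0) (Sum.inr true) := Nat.find_spec hex
  have hLlt : ∀ i, i < k → ¬ u (s^[i] a0) (Sum.inr true) := fun i hi => Nat.find_min hex hi
  have hsucc : ∀ i, s^[i + 1] a0 = s (s^[i] a0) := fun i => Function.iterate_succ_apply' s i a0
  have hF : ∀ i, i ≤ k → ∀ z, b (s^[i] a0) z none ↔ ∀ j, j < i → ¬ s^[j] a0 = z := by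
    intro i
    induction i with
    | zero => intro _ z; simp only [Nat.not_lt_zero, false_imp_iff, implies_true, iff_true]
              exact hZ _ z hZa
    | succ i ih =>
      intro hi z
      rw [hsucc, hS _ z (hLlt i (by omega)), ih (by omega) z]
      constructor
      · rintro ⟨h1, h2⟩ j hj
        rcases Nat.lt_succ_iff_lt_or_eq.mp hj with h | h
        · exact h1 j h
        · rw [h]; exact h2
      · intro h1
        exact ⟨fun j hj => h1 j (by omega), h1 i (by omega)⟩
  have hinj : ∀ i j, i ≤ k → j ≤ k → s^[i] a0 = s^[j] a0 → i = j := by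
    have key : ∀ i j, i < j → j ≤ k → ¬ s^[i] a0 = s^[j] a0 := by
      intro i j hij hj
      exact (hF j hj (s^[j] a0)).mp (hR _) i hij
    intro i j hi hj he
    rcases lt_trichotomy i j with h | h | h
    · exact absurd he (key i j h hj)
    · exact h
    · exact absurd he.symm (key j i h hi)
  have hsur : ∀ z, ∃ i, i ≤ k ∧ s^[i] a0 = z := by
    intro z
    by_contra hcon
    push Not at hcon
    have : b (s^[k] a0) z none := (hF k le_rfl z).mpr fun j hj => hcon j (by omega)
    exact hcon k le_rfl (hL _ _ hLk this)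
  have hcard : N = k + 1 := by
    rw [← hc, ← Nat.card_fin (k + 1)]
    refine (Nat.card_eq_of_bijective (fun i : Fin (k + 1) => s^[i.val] a0) ⟨?_, ?_⟩).symm
    · intro i j hij
      exact Fin.ext (hinj i j (by omega) (by omega) hij)
    · intro z
      obtain ⟨i, hi, hz⟩ := hsur z
      exact ⟨⟨i, by omega⟩, hz⟩
  have eZ : ∀ i, i < N → (u (s^[i] a0) (Sum.inr false)) = (i = 0) := by
    intro i hi
    apply propext
    constructor
    · intro h
      by_contra hi0
      obtain ⟨j, rfl⟩ := Nat.exists_eq_succ_of_ne_zero hi0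
      rw [Nat.succ_eq_add_one, hsucc] at h
      exact hSZ _ (hLlt j (by omega)) h
    · rintro rfl; exact hZa
  have eL : ∀ i, i < N → (u (s^[i] a0) (Sum.inr true)) = (i + 1 = N) := by
    intro i hi
    apply propext
    constructor
    · intro h
      by_contra hi0
      exact hLlt i (by omega) h
    · intro h
      have : i = k := by omega
      rw [this]; exact hLk
  have eE : ∀ i j, i < N → j < N → (s^[i] a0 = s^[j] a0) = (i = j) := by
    intro i j hi hj
    apply propext
    exact ⟨hinj i j (by omega) (by omega), fun h => by rw [h]⟩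
  refine ⟨fun i a => u (s^[i] a0) (Sum.inl a), fun i j c => b (s^[i] a0) (s^[j] a0) (some c),
    ?_, ?_, ?_⟩
  · intro x z hx hz
    have := (hs (s^[x] a0) (s^[z] a0)).2.2.2.2.2.2.1
    rw [eZ x hx, eZ z hz, eL x hx, eL z hz, eE x z hx hz] at this
    exact this
  · intro x z hx hz
    have := (hs (s^[x] a0) (s^[z] a0)).2.2.2.2.2.2.2.1 (hLlt x (by omega))
    rw [← hsucc] at this
    exact this
  · intro x z hx hz
    have := (hs (s^[z] a0) (s^[x] a0)).2.2.2.2.2.2.2.2 (hLlt z (by omega))
    rw [← hsucc] at this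
    exact this

theorem backward (S : LocSys U B) {N : ℕ} (hN : 0 < N) (h : S.Sol N) :
    ∃ (M : Type) (u : M → U ⊕ Bool → Prop) (b : M → M → Option B → Prop), Nat.card M = N ∧
      ∀ x, ∃ y, ∀ z, PhiB S u b x y z := by
  obtain ⟨u, b, h0, h1, h2⟩ := h
  refine ⟨Fin N, fun x => Sum.elim (fun a => u x a) (fun t => if t then x.val + 1 = N else x.val = 0),
    fun x z c => match c with
      | none => x.val ≤ z.val
      | some c => b x z c, Nat.card_fin N, ?_⟩
  intro x
  by_cases hx : x.val + 1 = N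
  · refine ⟨⟨0, hN⟩, fun z => ?_⟩
    have hz := z.isLt
    refine ⟨?_, le_rfl, ?_, ?_, ?_, ?_, ?_, ?_, ?_⟩
    · intro h
      have h' : x.val = 0 := h
      show x.val ≤ z.val
      omega
    · intro _ h
      have h' : x.val ≤ z.val := h
      exact Fin.ext (by omega)
    · intro _; rfl
    · intro h; exact absurd hx h
    · intro h; exact absurd hx h
    · have := h0 x z x.isLt z.isLt
      have e : (x = z) = (x.val = z.val) := propext Fin.ext_iff
      rw [e]
      exact this
    · intro h; exact absurd hx h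
    · intro h; exact absurd hx h
  · have hlt : x.val + 1 < N := by have := x.isLt; omega
    refine ⟨⟨x.val + 1, hlt⟩, fun z => ?_⟩
    have hz := z.isLt
    refine ⟨?_, le_rfl, ?_, ?_, ?_, ?_, ?_, ?_, ?_⟩
    · intro h
      have h' : x.val = 0 := h
      show x.val ≤ z.val
      omega
    · intro h; exact absurd h hx
    · intro h; exact absurd h hx
    · intro _
      show x.val + 1 ≤ z.val ↔ x.val ≤ z.val ∧ ¬ x = z
      rw [Fin.ext_iff]
      omega
    · intro _ h
      have h' : x.val + 1 = 0 := h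
      omega
    · have := h0 x z x.isLt z.isLt
      have e : (x = z) = (x.val = z.val) := propext Fin.ext_iff
      rw [e]
      exact this
    · intro _
      exact h1 x z hlt hz
    · intro _
      exact h2 z x hz hlt

end AEAx

theorem aea {U B : Type} [Finite U] [Finite B] (S : LocSys U B) :
    ∃ (U' B' : Type) (_ : Finite U') (_ : Finite B') (Φ : Dat U' B' → Prop), ∀ N, 0 < N →
      ((∃ (M : Type) (u : M → U' → Prop) (b : M → M → B' → Prop), Nat.card M = N ∧
        ∀ x, ∃ y, ∀ z, Φ (dat u b x y z)) ↔ S.Sol N) := by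
  refine ⟨U ⊕ Bool, Option B, inferInstance, inferInstance, AEAx.PhiA S, fun N hN => ?_⟩
  constructor
  · rintro ⟨M, u, b, hc, h⟩
    exact AEAx.forward S u b hN hc h
  · intro h
    exact AEAx.backward S hN h

end Pool.Agent.Helper37.PX
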