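import Mathlib
import Pool.Agent.Helper37.PX.Defs

set_option autoImplicit false

/-!
# PX-A: the odometer

Numbers `x < m ^ K` are read as the words of their `K` digits to the base `m`, `dg m i x` is digit `i`. `mx x i`: digit `i` of `x` is
maximal; `le x z i j`: digit `i` of `x` is at most digit `j` of `z`; `ge x z i j`: digit `i` of `x` is at least digit `j` of `z`.
`Odo0`, `Odo1`, `Odo2` are the local rules, they force `n = m ^ K` and the intended meaning (`odo_sound`).

Proof of `odo_sound`. Define `v : ℕ → Fin K → ℕ` from `mx`: `v 0 i = 0`; `v (x+1) i = 0` if `mx x j` for all `j ≤ i`; `v (x+1) i = v x i + 1`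
if `mx x j` for all `j < i` but not for `i`; `v (x+1) i = v x i` otherwise. For `x, z < n`: `le x z i j ↔ v x i ≤ v z j` and
`ge x z i j ↔ v z j ≤ v x i`, together by induction on `x + z` (`Odo0` for `x = 0` or `z = 0`, `Odo1` for `(x-1, z)`, `Odo2` for `(x, z-1)`).
Let `l = n - 1`: `mx l i` for all `i`, so all `v l i` are equal to the maximum `m - 1` of all values, and `mx x i ↔ v x i = m - 1`. By
induction on `x < n`: `v x i = dg m i x` (`Nat.succ_div`, `m ^ i ∣ x + 1` iff all digits below `i` of `x` are `m - 1`). No `x < l` has all digits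
equal to `m - 1` and `l` has, so `l = m ^ K - 1`.
`odo_complete`: the rules hold for the digits (same digit lemma `dg_succ`).
-/

namespace Pool.Agent.Helper37.PX

/-- Digit `i` of `x` to the base `m`. -/
def dg (m i x : ℕ) : ℕ := x / m ^ i % m

/-- Rule for all pairs: `zx`: `x` is first, `lx`: `x` is last, `zz`: `z` is first. -/
def Odo0 {K : ℕ} (zx lx zz : Prop) (mx mz : Fin K → Prop) (le ge : Fin K → Fin K → Prop) : Prop :=
  (zx → ∀ i j, le i j) ∧ (zz → ∀ i j, ge i j) ∧ (lx ↔ ∀ i, mx i) ∧ (∀ i j, mx i → ge i j) ∧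
    (∀ i j, mx i → le i j → mz j)

/-- Rule for `x`, `x + 1`, `z`. -/
def Odo1 {K : ℕ} (mx : Fin K → Prop) (le ge le' : Fin K → Fin K → Prop) : Prop :=
  ∀ i, ((∀ j ≤ i, mx j) → ∀ j, le' i j) ∧
    ((∀ j < i, mx j) → ¬ mx i → ∀ j, (le' i j ↔ le i j ∧ ¬ ge i j)) ∧
    (¬ (∀ j < i, mx j) → ∀ j, (le' i j ↔ le i j))

/-- Rule for `x`, `z`, `z + 1`. -/
def Odo2 {K : ℕ} (mz : Fin K → Prop) (le ge ge' : Fin K → Fin K → Prop) : Prop :=
  ∀ j, ((∀ i ≤ j, mz i) → ∀ i, ge' i j) ∧
    ((∀ i < j, mz i) → ¬ mz j → ∀ i, (ge' i j ↔ ge i j ∧ ¬ le i j)) ∧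
    (¬ (∀ i < j, mz i) → ∀ i, (ge' i j ↔ ge i j))

/-- All rules of the odometer on `{0, …, n - 1}`. -/
def OdoRules {K : ℕ} (n : ℕ) (mx : ℕ → Fin K → Prop) (le ge : ℕ → ℕ → Fin K → Fin K → Prop) : Prop :=
  (∀ x z, x < n → z < n → Odo0 (x = 0) (x + 1 = n) (z = 0) (mx x) (mx z) (le x z) (ge x z)) ∧
  (∀ x z, x + 1 < n → z < n → Odo1 (mx x) (le x z) (ge x z) (le (x + 1) z)) ∧
  (∀ x z, x < n → z + 1 < n → Odo2 (mx z) (le x z) (ge x z) (ge x (z + 1)))

theorem mod_succ_eq {m : ℕ} (hm : 1 ≤ m) (a : ℕ) : a % m + 1 = m ↔ m ∣ a + 1 := by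
  have h1 : a % m < m := Nat.mod_lt _ hm
  have h2 : m ∣ a + 1 ↔ m ∣ a % m + 1 := by
    have h3 : a + 1 = m * (a / m) + (a % m + 1) := by
      have := Nat.div_add_mod a m
      omega
    rw [h3]
    exact (Nat.dvd_add_right (Dvd.intro _ rfl))
  rw [h2]
  constructor
  · intro h
    rw [h]
  · intro h
    have := Nat.le_of_dvd (Nat.succ_pos _) h
    omega

theorem all_max_iff {m : ℕ} (hm : 1 ≤ m) (x i : ℕ) :
    (∀ j < i, dg m j x + 1 = m) ↔ m ^ i ∣ x + 1 := by
  induction i with
  | zero => simp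
  | succ i ih =>
    have h1 : (∀ j < i + 1, dg m j x + 1 = m) ↔ (∀ j < i, dg m j x + 1 = m) ∧ dg m i x + 1 = m := by
      constructor
      · intro h
        exact ⟨fun j hj => h j (by omega), h i (by omega)⟩
      · rintro ⟨h, h'⟩ j hj
        rcases Nat.lt_succ_iff_lt_or_eq.1 hj with h2 | h2
        · exact h j h2
        · rw [h2]; exact h'
    rw [h1, ih]
    constructor
    · rintro ⟨⟨q, hq⟩, h2⟩
      have hpos : 0 < m ^ i := Nat.pow_pos hm
      have hq0 : 0 < q := by
        rcases Nat.eq_zero_or_pos q with h | h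
        · rw [h] at hq; omega
        · exact h
      have h3 : x / m ^ i = q - 1 := by
        rw [Nat.div_eq_iff hpos]
        obtain ⟨q', rfl⟩ : ∃ q', q = q' + 1 := ⟨q - 1, by omega⟩
        simp only [Nat.add_sub_cancel]
        have h4 : m ^ i * (q' + 1) = q' * m ^ i + m ^ i := by ring
        omega
      unfold dg at h2
      rw [h3, mod_succ_eq hm] at h2
      have h5 : q - 1 + 1 = q := by omega
      rw [h5] at h2
      rw [hq, pow_succ]
      exact Nat.mul_dvd_mul_left _ h2
    · intro h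
      have h0 : m ^ i ∣ x + 1 := (pow_dvd_pow m (Nat.le_succ i)).trans h
      refine ⟨h0, ?_⟩
      obtain ⟨q, hq⟩ := h0
      have hpos : 0 < m ^ i := Nat.pow_pos hm
      have hq0 : 0 < q := by
        rcases Nat.eq_zero_or_pos q with h | h
        · rw [h] at hq; omega
        · exact h
      have h3 : x / m ^ i = q - 1 := by
        rw [Nat.div_eq_iff hpos]
        obtain ⟨q', rfl⟩ : ∃ q', q = q' + 1 := ⟨q - 1, by omega⟩
        simp only [Nat.add_sub_cancel]
        have h4 : m ^ i * (q' + 1) = q' * m ^ i + m ^ i := by ring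
        omega
      unfold dg
      rw [h3, mod_succ_eq hm]
      have h5 : q - 1 + 1 = q := by omega
      rw [h5]
      rw [hq, pow_succ] at h
      exact Nat.dvd_of_mul_dvd_mul_left hpos h

theorem dg_lt {m : ℕ} (hm : 1 ≤ m) (i x : ℕ) : dg m i x < m := Nat.mod_lt _ hm

theorem dg_zero (m i : ℕ) : dg m i 0 = 0 := by simp [dg]

theorem dg_succ {m : ℕ} (hm : 1 ≤ m) (i x : ℕ) : dg m i (x + 1) =
    if (∀ j < i, dg m j x + 1 = m) then (if dg m i x + 1 = m then 0 else dg m i x + 1)
    else dg m i x := by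
  by_cases h : ∀ j < i, dg m j x + 1 = m
  · rw [if_pos h]
    rw [all_max_iff hm] at h
    have h1 : (x + 1) / m ^ i = x / m ^ i + 1 := by
      rw [Nat.succ_div, if_pos h]
    by_cases h2 : dg m i x + 1 = m
    · rw [if_pos h2]
      unfold dg at h2 ⊢
      rw [mod_succ_eq hm] at h2
      rw [h1]
      exact Nat.mod_eq_zero_of_dvd h2
    · rw [if_neg h2]
      have h3 : dg m i x < m := dg_lt hm i x
      unfold dg at h2 h3 ⊢
      rw [h1, Nat.add_mod]
      rcases Nat.eq_or_lt_of_le hm with h4 | h4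
      · omega
      · rw [Nat.mod_eq_of_lt h4]
        exact Nat.mod_eq_of_lt (by omega)
  · rw [if_neg h]
    rw [all_max_iff hm] at h
    unfold dg
    rw [Nat.succ_div, if_neg h, Nat.add_zero]

/-- the values of the digits, from the maximality predicates -/
private noncomputable def vv {K : ℕ} (mx : ℕ → Fin K → Prop) : ℕ → Fin K → ℕ
  | 0, _ => 0
  | x + 1, i =>
      haveI : ∀ p : Prop, Decidable p := Classical.propDecidable
      if (∀ j ≤ i, mx x j) then 0
      else (if (∀ j < i, mx x j) then (vv mx x i + 1) else (vv mx x i))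

private theorem vv_zero {K : ℕ} (mx : ℕ → Fin K → Prop) (i : Fin K) : vv mx 0 i = 0 := rfl

private theorem vv_succ_all {K : ℕ} {mx : ℕ → Fin K → Prop} {x : ℕ} {i : Fin K}
    (h : ∀ j ≤ i, mx x j) : vv mx (x + 1) i = 0 := by
  rw [vv, if_pos h]

private theorem vv_succ_inc {K : ℕ} {mx : ℕ → Fin K → Prop} {x : ℕ} {i : Fin K}
    (h : ∀ j < i, mx x j) (h' : ¬ mx x i) : vv mx (x + 1) i = vv mx x i + 1 := by
  rw [vv, if_neg (fun h2 => h' (h2 i le_rfl)), if_pos h]

private theorem vv_succ_id {K : ℕ} {mx : ℕ → Fin K → Prop} {x : ℕ} {i : Fin K}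
    (h : ¬ ∀ j < i, mx x j) : vv mx (x + 1) i = vv mx x i := by
  rw [vv, if_neg (fun h2 => h fun j hj => h2 j hj.le), if_neg h]

private theorem le_ge_iff {K : ℕ} {n : ℕ} {mx : ℕ → Fin K → Prop}
    {le ge : ℕ → ℕ → Fin K → Fin K → Prop} (h : OdoRules n mx le ge) :
    ∀ s x z : ℕ, x + z = s → x < n → z < n → ∀ i j : Fin K,
      (le x z i j ↔ vv mx x i ≤ vv mx z j) ∧ (ge x z i j ↔ vv mx z j ≤ vv mx x i) := by
  obtain ⟨h0, h1, h2⟩ := h
  intro s
  induction s using Nat.strong_induction_on with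
  | _ s ih =>
    intro x z hs hx hz i j
    constructor
    · cases x with
      | zero =>
        have := (h0 0 z hx hz).1 rfl i j
        rw [vv_zero]
        exact ⟨fun _ => Nat.zero_le _, fun _ => this⟩
      | succ x =>
        have ih' := ih (x + z) (by omega) x z rfl (by omega) hz i j
        obtain ⟨r1, r2, r3⟩ := h1 x z hx hz i
        by_cases c1 : ∀ j < i, mx x j
        · by_cases c2 : mx x i
          · have c3 : ∀ j ≤ i, mx x j := by
              intro j' hj'
              rcases lt_or_eq_of_le hj' with h' | h'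
              · exact c1 j' h'
              · rw [h']; exact c2
            rw [vv_succ_all c3]
            exact ⟨fun _ => Nat.zero_le _, fun _ => r1 c3 j⟩
          · rw [vv_succ_inc c1 c2, r2 c1 c2 j, ih'.1, ih'.2]
            omega
        · rw [vv_succ_id c1, r3 c1 j, ih'.1]
    · cases z with
      | zero =>
        have := (h0 x 0 hx hz).2.1 rfl i j
        rw [vv_zero]
        exact ⟨fun _ => Nat.zero_le _, fun _ => this⟩
      | succ z =>
        have ih' := ih (x + z) (by omega) x z rfl hx (by omega) i j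
        obtain ⟨r1, r2, r3⟩ := h2 x z hx hz j
        by_cases c1 : ∀ i < j, mx z i
        · by_cases c2 : mx z j
          · have c3 : ∀ i ≤ j, mx z i := by
              intro j' hj'
              rcases lt_or_eq_of_le hj' with h' | h'
              · exact c1 j' h'
              · rw [h']; exact c2
            rw [vv_succ_all c3]
            exact ⟨fun _ => Nat.zero_le _, fun _ => r1 c3 i⟩
          · rw [vv_succ_inc c1 c2, r2 c1 c2 i, ih'.1, ih'.2]
            omega
        · rw [vv_succ_id c1, r3 c1 i, ih'.2]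

theorem odo_sound {K : ℕ} (hK : 1 ≤ K) {n : ℕ} (hn : 1 ≤ n) {mx : ℕ → Fin K → Prop}
    {le ge : ℕ → ℕ → Fin K → Fin K → Prop} (h : OdoRules n mx le ge) :
    ∃ m, 1 ≤ m ∧ n = m ^ K ∧ (∀ x < n, ∀ i : Fin K, (mx x i ↔ dg m i x + 1 = m)) ∧
      (∀ x < n, ∀ z < n, ∀ i j : Fin K, (le x z i j ↔ dg m i x ≤ dg m j z) ∧
        (ge x z i j ↔ dg m j z ≤ dg m i x)) := by
  have key : ∀ x < n, ∀ z < n, ∀ i j : Fin K,
      (le x z i j ↔ vv mx x i ≤ vv mx z j) ∧ (ge x z i j ↔ vv mx z j ≤ vv mx x i) :=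
    fun x hx z hz i j => le_ge_iff h (x + z) x z rfl hx hz i j
  obtain ⟨h0, -, -⟩ := h
  have hl : n - 1 < n := by omega
  have hlmx : ∀ i, mx (n - 1) i := (h0 (n - 1) (n - 1) hl hl).2.2.1.1 (by omega)
  set i₀ : Fin K := ⟨0, hK⟩ with hi₀
  set M := vv mx (n - 1) i₀ with hM
  have hle : ∀ z < n, ∀ j, vv mx z j ≤ M := fun z hz j =>
    (key (n - 1) hl z hz i₀ j).2.1 ((h0 (n - 1) z hl hz).2.2.2.1 i₀ j (hlmx i₀))
  have hmx : ∀ x < n, ∀ i, (mx x i ↔ vv mx x i + 1 = M + 1) := by
    intro x hx i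
    constructor
    · intro hm
      have h1 := (key x hx (n - 1) hl i i₀).2.1 ((h0 x (n - 1) hx hl).2.2.2.1 i i₀ hm)
      have h2 := hle x hx i
      omega
    · intro hm
      refine (h0 (n - 1) x hl hx).2.2.2.2 i₀ i (hlmx i₀) ((key (n - 1) hl x hx i₀ i).1.2 ?_)
      omega
  have hm1 : 1 ≤ M + 1 := by omega
  have hv : ∀ x < n, ∀ i : Fin K, vv mx x i = dg (M + 1) i x := by
    intro x
    induction x with
    | zero => intro _ i; rw [vv_zero, dg_zero]
    | succ x ih =>
      intro hx i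
      have ih' := ih (by omega)
      have hxn : x < n := by omega
      have hmx' : ∀ i : Fin K, (mx x i ↔ dg (M + 1) i x + 1 = M + 1) := by
        intro i
        rw [hmx x hxn i, ih' i]
      have hiff : (∀ j < i, mx x j) ↔ ∀ j < (i : ℕ), dg (M + 1) j x + 1 = M + 1 := by
        constructor
        · intro hh j hj
          exact (hmx' ⟨j, hj.trans i.2⟩).1 (hh ⟨j, hj.trans i.2⟩ hj)
        · intro hh j hj
          exact (hmx' j).2 (hh j hj)
      rw [dg_succ hm1]
      by_cases c1 : ∀ j < i, mx x j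
      · rw [if_pos (hiff.1 c1)]
        by_cases c2 : mx x i
        · have c3 : ∀ j ≤ i, mx x j := by
            intro j' hj'
            rcases lt_or_eq_of_le hj' with h' | h'
            · exact c1 j' h'
            · rw [h']; exact c2
          rw [vv_succ_all c3, if_pos ((hmx' i).1 c2)]
        · rw [vv_succ_inc c1 c2, if_neg (fun h' => c2 ((hmx' i).2 h')), ih' i]
      · rw [vv_succ_id c1, if_neg (fun h' => c1 (hiff.2 h')), ih' i]
  have hlast : ∀ x < n, (x + 1 = n ↔ (M + 1) ^ K ∣ x + 1) := by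
    intro x hx
    rw [(h0 x x hx hx).2.2.1, ← all_max_iff hm1]
    constructor
    · intro hh j hj
      have := (hmx x hx ⟨j, hj⟩).1 (hh ⟨j, hj⟩)
      rw [hv x hx] at this
      exact this
    · intro hh i
      rw [hmx x hx i, hv x hx i]
      exact hh i i.2
  refine ⟨M + 1, hm1, ?_, ?_, ?_⟩
  · have h1 : (M + 1) ^ K ∣ n := by
      have := (hlast (n - 1) hl).1 (by omega)
      rwa [show n - 1 + 1 = n by omega] at this
    have h2 : (M + 1) ^ K ≤ n := Nat.le_of_dvd (by omega) h1
    have h3 : 0 < (M + 1) ^ K := Nat.pow_pos hm1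
    have h4 := (hlast ((M + 1) ^ K - 1) (by omega)).2
      (by rw [show (M + 1) ^ K - 1 + 1 = (M + 1) ^ K by omega])
    omega
  · intro x hx i
    rw [hmx x hx i, hv x hx i]
  · intro x hx z hz i j
    rw [← hv x hx i, ← hv z hz j]
    exact key x hx z hz i j

theorem odo_complete {K : ℕ} (hK : 1 ≤ K) {m : ℕ} (hm : 1 ≤ m) :
    OdoRules (K := K) (m ^ K) (fun x i => dg m i x + 1 = m)
      (fun x z i j => dg m i x ≤ dg m j z) (fun x z i j => dg m j z ≤ dg m i x) := by
  refine ⟨?_, ?_, ?_⟩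
  · intro x z hx hz
    refine ⟨?_, ?_, ?_, ?_, ?_⟩
    · intro h i j
      simp only [h, dg_zero, Nat.zero_le]
    · intro h i j
      simp only [h, dg_zero, Nat.zero_le]
    · have h1 : (∀ i : Fin K, dg m i x + 1 = m) ↔ m ^ K ∣ x + 1 := by
        rw [← all_max_iff hm]
        exact ⟨fun hh j hj => hh ⟨j, hj⟩, fun hh i => hh i i.2⟩
      rw [h1]
      constructor
      · intro h
        rw [h]
      · intro h
        have := Nat.le_of_dvd (Nat.succ_pos _) h
        omega
    · intro i j h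
      have := dg_lt hm j z
      omega
    · intro i j h h'
      have := dg_lt hm j z
      omega
  · intro x z hx hz i
    have hs := dg_succ hm (i : ℕ) x
    refine ⟨?_, ?_, ?_⟩
    · intro h j
      have h1 : ∀ j < (i : ℕ), dg m j x + 1 = m := fun j hj =>
        h ⟨j, hj.trans i.2⟩ (Fin.le_def.2 hj.le)
      rw [if_pos h1, if_pos (h i le_rfl)] at hs
      omega
    · intro h h' j
      have h1 : ∀ j < (i : ℕ), dg m j x + 1 = m := fun j hj =>
        h ⟨j, hj.trans i.2⟩ hj
      rw [if_pos h1, if_neg h'] at hs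
      simp only
      omega
    · intro h j
      have h1 : ¬ ∀ j < (i : ℕ), dg m j x + 1 = m := fun h2 => h fun j hj => h2 j hj
      rw [if_neg h1] at hs
      simp only [hs]
  · intro x z hx hz j
    have hs := dg_succ hm (j : ℕ) z
    refine ⟨?_, ?_, ?_⟩
    · intro h i
      have h1 : ∀ i < (j : ℕ), dg m i z + 1 = m := fun i hi =>
        h ⟨i, hi.trans j.2⟩ (Fin.le_def.2 hi.le)
      rw [if_pos h1, if_pos (h j le_rfl)] at hs
      omega
    · intro h h' i
      have h1 : ∀ i < (j : ℕ), dg m i z + 1 = m := fun i hi =>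
        h ⟨i, hi.trans j.2⟩ hi
      rw [if_pos h1, if_neg h'] at hs
      simp only
      omega
    · intro h i
      have h1 : ¬ ∀ i < (j : ℕ), dg m i z + 1 = m := fun h2 => h fun i hi => h2 i hi
      rw [if_neg h1] at hs
      simp only [hs]

/-- Every word of digits is the word of a number below `m ^ K`. -/
theorem dg_surj {K m : ℕ} (hm : 1 ≤ m) (f : Fin K → ℕ) (hf : ∀ i, f i < m) :
    ∃ x < m ^ K, ∀ i : Fin K, dg m i x = f i := by
  induction K with
  | zero => exact ⟨0, by simp, fun i => i.elim0⟩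
  | succ K ih =>
    obtain ⟨x, hx, h⟩ := ih (fun i => f i.succ) (fun i => hf i.succ)
    have h0 := hf 0
    refine ⟨f 0 + m * x, ?_, ?_⟩
    · have h1 : m * (x + 1) ≤ m * m ^ K := Nat.mul_le_mul_left m hx
      rw [pow_succ, mul_comm (m ^ K) m]
      have h2 : m * (x + 1) = m * x + m := by ring
      omega
    · intro i
      refine Fin.cases ?_ (fun i => ?_) i
      · unfold dg
        simp only [Fin.val_zero, pow_zero, Nat.div_one, Nat.add_mul_mod_self_left]
        exact Nat.mod_eq_of_lt h0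
      · have h2 : (f 0 + m * x) / m = x := by
          rw [Nat.add_mul_div_left _ _ hm, Nat.div_eq_of_lt h0, Nat.zero_add]
        have h3 := h i
        unfold dg at h3 ⊢
        rw [Fin.val_succ, pow_succ, mul_comm (m ^ (i : ℕ)) m, ← Nat.div_div_eq_div_mul, h2]
        exact h3

end Pool.Agent.Helper37.PX
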