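import Mathlib
import Pool.Agent.Helper37.PX.Odo

set_option autoImplicit false

/-!
# PX: the local system of a sentence (definitions)

`K = k + 1` digits, points of the model are numbers below `m`, a number below `m ^ K` is an assignment of the variables
`0, …, K - 1`. Unary symbols `EU`: `mx i` (odometer), `at R κ`: the relation `R` holds for the digits `κ 0, κ 1, …`; `eq i j`: digits `i`
and `j` are equal; `tr s`: the subformula `s` is true. Binary symbols `EB'`: `le i j`, `ge i j` (odometer), `sc s` for a subformula `s = ∀ a` with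
`n` free variables: `sc s (x, z)`: some `z' ≤ z` agrees with `x` in the digits below `n` and makes `a` false.
-/

namespace Pool.Agent.Helper37.PX

open FirstOrder FirstOrder.Language

variable {L : FirstOrder.Language.{0, 0}}

/-- Formulas with any number of free variables. -/
abbrev BFm (L : FirstOrder.Language.{0, 0}) : Type := Σ n : ℕ, L.BoundedFormula Empty n

/-- The subformulas. -/
def subs : {n : ℕ} → L.BoundedFormula Empty n → Set (BFm L)
  | n, .falsum => {⟨n, .falsum⟩}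
  | n, .equal t s => {⟨n, .equal t s⟩}
  | n, .rel R ts => {⟨n, .rel R ts⟩}
  | n, .imp f g => insert ⟨n, .imp f g⟩ (subs f ∪ subs g)
  | n, .all f => insert ⟨n, .all f⟩ (subs f)

/-- The number of the variable `t` (terms are variables in a language without function symbols). -/
def tv {n : ℕ} : L.Term (Empty ⊕ Fin n) → ℕ
  | .var (Sum.inl e) => e.elim
  | .var (Sum.inr i) => i
  | .func _ _ => 0

/-- Unary symbols. `F`: the set of subformulas. -/
inductive EU (L : FirstOrder.Language.{0, 0}) (k : ℕ) (F : Set (BFm L)) : Type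
  | mx (i : Fin (k + 1))
  | at (R : Σ l, L.Relations l) (κ : Fin R.1 → Fin (k + 1))
  | eq (i j : Fin (k + 1))
  | tr (s : F)

/-- Binary symbols. -/
inductive EB' (L : FirstOrder.Language.{0, 0}) (k : ℕ) (F : Set (BFm L)) : Type
  | le (i j : Fin (k + 1))
  | ge (i j : Fin (k + 1))
  | sc (s : F)

section

variable {k : ℕ} {F : Set (BFm L)}

/-- Truth of a subformula. -/
def Tx (u : EU L k F → Prop) (s : BFm L) : Prop := ∃ h : s ∈ F, u (.tr ⟨s, h⟩)

/-- Scanning value of a subformula. -/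
def Sx (b : EB' L k F → Prop) (s : BFm L) : Prop := ∃ h : s ∈ F, b (.sc ⟨s, h⟩)

/-- Digit `i` of `x` is digit `j` of `z`. -/
def Ed (b : EB' L k F → Prop) (i j : Fin (k + 1)) : Prop := b (.le i j) ∧ b (.ge i j)

/-- `x` and `z` agree in the digits below `n`. -/
def Agr (b : EB' L k F → Prop) (n : ℕ) : Prop := ∀ i : Fin (k + 1), (i : ℕ) < n → Ed b i i

/-- Rules for the subformula `s` and a pair `x, z`; `zz`: `z` is first, `lz`: `z` is last. -/
def Rule0 (zz lz : Prop) (ux uz : EU L k F → Prop) (b : EB' L k F → Prop) : BFm L → Prop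
  | ⟨n, .falsum⟩ => ¬ Tx ux ⟨n, .falsum⟩
  | ⟨n, .equal t s⟩ => Tx ux ⟨n, .equal t s⟩ ↔
      ux (.eq (Fin.ofNat (k + 1) (tv t)) (Fin.ofNat (k + 1) (tv s)))
  | ⟨n, .rel R ts⟩ => Tx ux ⟨n, .rel R ts⟩ ↔ ux (.at ⟨_, R⟩ fun i => Fin.ofNat (k + 1) (tv (ts i)))
  | ⟨n, .imp f g⟩ => Tx ux ⟨n, .imp f g⟩ ↔ (Tx ux ⟨n, f⟩ → Tx ux ⟨n, g⟩)
  | ⟨n, .all f⟩ => (Tx ux ⟨n, .all f⟩ → Agr b n → Tx uz ⟨n + 1, f⟩) ∧
      (zz → (Sx b ⟨n, .all f⟩ ↔ Agr b n ∧ ¬ Tx uz ⟨n + 1, f⟩)) ∧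
      (lz → (Tx ux ⟨n, .all f⟩ ↔ ¬ Sx b ⟨n, .all f⟩))

/-- Rules for the subformula `s` and `x, z, z + 1`. -/
def Rule2 (uz' : EU L k F → Prop) (b b' : EB' L k F → Prop) : BFm L → Prop
  | ⟨_, .falsum⟩ => True
  | ⟨_, .equal _ _⟩ => True
  | ⟨_, .rel _ _⟩ => True
  | ⟨_, .imp _ _⟩ => True
  | ⟨n, .all f⟩ => Sx b' ⟨n, .all f⟩ ↔ (Sx b ⟨n, .all f⟩ ∨ (Agr b' n ∧ ¬ Tx uz' ⟨n + 1, f⟩))

/-- The local system of the sentence `φ`. -/
def foSys (k : ℕ) (φ : L.Sentence) : LocSys (EU L k (subs φ)) (EB' L k (subs φ)) where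
  T0 zx lx zz lz exz ux uz b :=
    Odo0 zx lx zz (fun i => ux (.mx i)) (fun i => uz (.mx i)) (fun i j => b (.le i j))
      (fun i j => b (.ge i j)) ∧
    (exz → ∀ i j, (ux (.eq i j) ↔ Ed b i j)) ∧
    (∀ R κ κ', (∀ t, Ed b (κ t) (κ' t)) → (ux (.at R κ) ↔ uz (.at R κ'))) ∧
    (∀ s ∈ subs φ, Rule0 zz lz ux uz b s) ∧
    Tx ux ⟨0, φ⟩
  T1 ux _ _ b b' :=
    Odo1 (fun i => ux (.mx i)) (fun i j => b (.le i j)) (fun i j => b (.ge i j))
      (fun i j => b' (.le i j))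
  T2 _ uz uz' b b' :=
    Odo2 (fun i => uz (.mx i)) (fun i j => b (.le i j)) (fun i j => b (.ge i j))
      (fun i j => b' (.ge i j)) ∧ ∀ s ∈ subs φ, Rule2 uz' b b' s

end

end Pool.Agent.Helper37.PX
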