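import Mathlib
import Pool.Agent.Helper37.PX.Defs
import Pool.Agent.Helper31.Spectra

set_option autoImplicit false

/-!
# PX-R: the easy words

`hard_iff`: list combinatorics (induction on `w`).
`easy`: (a) `w = exists^a forall^b`: let `n ∈ Spec`, `m < n`, `max a 1 ≤ m`: take the values of the first `a` variables in a model with `n` points
and a subset with `m` points that contains them: substructure (relational language), the formula behind the `a` existential
quantifiers is preserved (only universal quantifiers before a quantifier free formula). So if `Spec` is infinite, it contains all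
`m ≥ max a 1`. (b) `w = exists^a forall exists^b`: if `n ∈ Spec`, `n > a`, then `n + 1 ∈ Spec`: let `c` be the values of the first `a`
variables in the model `M`, `t ∈ M` different from all `c i`; `M' = Option M`, `none` is a copy of `t`: `ρ : M' → M`, `ρ none = t`, `ρ (some x) = x`, relations pulled
back by `ρ`. `some` is an embedding of `M`, and so is `g` (`g t = none`, `g x = some x` else); both send `c i` to `some (c i)`. For the value `some x` of the universal
variable take the witnesses of `x` under `some`, for `none` those of `t` under `g` (formulas exists^b quantifier free are preserved by embeddings). So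
`Spec` has no element above `a` or contains all numbers from some point on.
-/

namespace Pool.Agent.Helper37.PX

open FirstOrder FirstOrder.Language Pool.Agent.Helper31.Spectra

/-! ### Words -/

private lemma Easy_nil_of_sub {k : List Bool} {a : ℕ} (h : k.Sublist (List.replicate a false))
    {l r : List Bool} (e : true :: l = k ++ r) : k = [] := by
  cases k with
  | nil => rfl
  | cons x k =>
    exfalso
    have h1 : x ∈ List.replicate a false := h.subset (List.mem_cons_self)
    have h2 : x = false := List.eq_of_mem_replicate h1
    rw [List.cons_append, List.cons.injEq] at e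
    rw [h2] at e
    exact absurd e.1 (by decide)

private lemma Easy_strip {a : ℕ} {l r : List Bool}
    (h : (true :: l).Sublist (List.replicate a false ++ r)) : (true :: l).Sublist r := by
  obtain ⟨k1, k2, e, h1, h2⟩ := List.sublist_append_iff.1 h
  have := Easy_nil_of_sub h1 e
  rw [this, List.nil_append] at e
  rw [e]
  exact h2

private lemma Easy_const {w : List Bool} (h1 : ¬ [true, false].Sublist w)
    (h2 : ¬ [false, true].Sublist w) :
    (∃ b, w = List.replicate b true) ∨ ∃ b, w = List.replicate b false := by
  induction w with
  | nil => exact Or.inl ⟨0, rfl⟩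
  | cons x w ih =>
    have h1' : ¬ [true, false].Sublist w := fun h => h1 (h.cons x)
    have h2' : ¬ [false, true].Sublist w := fun h => h2 (h.cons x)
    rcases ih h1' h2' with ⟨b, hb⟩ | ⟨b, hb⟩
    · cases x with
      | true => exact Or.inl ⟨b + 1, by rw [hb]; rfl⟩
      | false =>
        cases b with
        | zero => exact Or.inr ⟨1, by rw [hb]; rfl⟩
        | succ b =>
          exfalso
          apply h2
          rw [hb]
          apply List.Sublist.cons_cons
          rw [List.singleton_sublist]
          exact List.mem_cons_self
    · cases x with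
      | false => exact Or.inr ⟨b + 1, by rw [hb]; rfl⟩
      | true =>
        cases b with
        | zero => exact Or.inl ⟨1, by rw [hb]; rfl⟩
        | succ b =>
          exfalso
          apply h1
          rw [hb]
          apply List.Sublist.cons_cons
          rw [List.singleton_sublist]
          exact List.mem_cons_self

theorem hard_iff (w : List Bool) : ¬ Hard w ↔
    (∃ a b, w = List.replicate a false ++ List.replicate b true) ∨
    (∃ a b, w = List.replicate a false ++ true :: List.replicate b false) := by
  constructor
  · intro h
    induction w with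
    | nil => exact Or.inl ⟨0, 0, rfl⟩
    | cons x w ih =>
      cases x with
      | false =>
        have h' : ¬ Hard w := by
          rintro (h1 | h1)
          · exact h (Or.inl (h1.cons false))
          · exact h (Or.inr (h1.cons false))
        rcases ih h' with ⟨a, b, hw⟩ | ⟨a, b, hw⟩
        · exact Or.inl ⟨a + 1, b, by rw [hw]; rfl⟩
        · exact Or.inr ⟨a + 1, b, by rw [hw]; rfl⟩
      | true =>
        have h1 : ¬ [true, false].Sublist w := fun hs => h (Or.inl (hs.cons_cons true))
        have h2 : ¬ [false, true].Sublist w := fun hs => h (Or.inr (hs.cons_cons true))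
        rcases Easy_const h1 h2 with ⟨b, hb⟩ | ⟨b, hb⟩
        · exact Or.inl ⟨0, b + 1, by rw [hb]; rfl⟩
        · exact Or.inr ⟨0, b, by rw [hb]; rfl⟩
  · rintro (⟨a, b, rfl⟩ | ⟨a, b, rfl⟩) (h | h)
    · have h1 := Easy_strip h
      have h2 : false ∈ List.replicate b true := h1.subset (by simp)
      exact absurd (List.eq_of_mem_replicate h2) (by decide)
    · have h1 := Easy_strip h
      have h2 : false ∈ List.replicate b true := h1.subset (by simp)
      exact absurd (List.eq_of_mem_replicate h2) (by decide)
    · have h1 := (Easy_strip h)
      have h2 : [true, false].Sublist (List.replicate b false) := by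
        rcases h1 with _ | ⟨_, h1⟩ | ⟨_, h1⟩
        · exact (List.sublist_cons_self true [true, false]).trans h1
        · exact h1
      have h3 : true ∈ List.replicate b false := h2.subset (by simp)
      exact absurd (List.eq_of_mem_replicate h3) (by decide)
    · have h1 := (Easy_strip h)
      have h2 : [false, true].Sublist (List.replicate b false) := by
        rcases h1 with _ | ⟨_, h1⟩ | ⟨_, h1⟩
        · exact (List.sublist_cons_self true [false, true]).trans h1
        · exact h1
      have h3 : true ∈ List.replicate b false := h2.subset (by simp)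
      exact absurd (List.eq_of_mem_replicate h3) (by decide)

/-! ### Formulas -/

private lemma Easy_univ {L : FirstOrder.Language.{0, 0}} (b : ℕ) :
    ∀ {n : ℕ} (φ : L.BoundedFormula Empty n), HasWord (List.replicate b true) φ →
      φ.IsUniversal := by
  induction b with
  | zero =>
    intro n φ h
    exact BoundedFormula.IsUniversal.of_isQF h
  | succ b ih =>
    intro n φ h
    obtain ⟨ψ, hφ, hψ⟩ := h
    rw [hφ]
    exact BoundedFormula.IsUniversal.all (ih ψ hψ)

private lemma Easy_exis {L : FirstOrder.Language.{0, 0}} (b : ℕ) :
    ∀ {n : ℕ} (φ : L.BoundedFormula Empty n), HasWord (List.replicate b false) φ →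
      φ.IsExistential := by
  induction b with
  | zero =>
    intro n φ h
    exact BoundedFormula.IsExistential.of_isQF h
  | succ b ih =>
    intro n φ h
    obtain ⟨ψ, hφ, hψ⟩ := h
    rw [hφ]
    exact BoundedFormula.IsExistential.ex (ih ψ hψ)

/-- the leading existential quantifiers -/
private lemma Easy_lead {L : FirstOrder.Language.{0, 0}} (w : List Bool) (a : ℕ) :
    ∀ {n : ℕ} (φ : L.BoundedFormula Empty n), HasWord (List.replicate a false ++ w) φ →
      ∃ (m : ℕ) (hm : n ≤ m) (ψ : L.BoundedFormula Empty m), m = n + a ∧ HasWord w ψ ∧
        ∀ (M : Type) [L.Structure M] (v : Empty → M) (xs : Fin n → M),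
          φ.Realize v xs ↔ ∃ ys : Fin m → M, (∀ i, ys (Fin.castLE hm i) = xs i) ∧
            ψ.Realize v ys := by
  induction a with
  | zero =>
    intro n φ h
    refine ⟨n, le_rfl, φ, rfl, h, ?_⟩
    intro M _ v xs
    constructor
    · intro hr
      exact ⟨xs, fun i => rfl, hr⟩
    · rintro ⟨ys, h1, h2⟩
      have : ys = xs := by
        funext i
        exact h1 i
      rw [← this]
      exact h2
  | succ a ih =>
    intro n φ h
    obtain ⟨φ', hφ, hφ'⟩ := h
    obtain ⟨m, hm, ψ, hma, hψ, hr⟩ := ih φ' hφ'
    refine ⟨m, by omega, ψ, by omega, hψ, ?_⟩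
    intro M _ v xs
    rw [hφ, BoundedFormula.realize_ex]
    constructor
    · rintro ⟨x, hx⟩
      obtain ⟨ys, h1, h2⟩ := (hr M v _).1 hx
      refine ⟨ys, ?_, h2⟩
      intro i
      have h3 := h1 (Fin.castSucc i)
      rw [Fin.snoc_castSucc] at h3
      rw [← h3]
      rfl
    · rintro ⟨ys, h1, h2⟩
      refine ⟨ys (Fin.castLE hm (Fin.last n)), (hr M v _).2 ⟨ys, ?_, h2⟩⟩
      intro i
      induction i using Fin.lastCases with
      | last => rw [Fin.snoc_last]
      | cast i =>
        rw [Fin.snoc_castSucc, ← h1 i]
        rfl

/-- relations pulled back by a map -/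
@[instance_reducible]
private def Easy_pull {L : FirstOrder.Language.{0, 0}} (hF : ∀ n, IsEmpty (L.Functions n))
    {M M' : Type} [L.Structure M] (ρ : M' → M) : L.Structure M' where
  funMap := fun {n} f _ => ((hF n).false f).elim
  RelMap := fun {_} R v => Structure.RelMap R (fun i => ρ (v i))

private lemma Easy_a {L : FirstOrder.Language.{0, 0}} (hF : ∀ n, IsEmpty (L.Functions n))
    {a : ℕ} (φ : L.Sentence)
    {m' : ℕ} (hm' : 0 ≤ m') (ψ : L.BoundedFormula Empty m') (hma : m' = a)
    (hψ : ψ.IsUniversal)
    (hr : ∀ (M : Type) [L.Structure M] (v : Empty → M) (xs : Fin 0 → M),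
          BoundedFormula.Realize φ v xs ↔ ∃ ys : Fin m' → M,
            (∀ i, ys (Fin.castLE hm' i) = xs i) ∧ ψ.Realize v ys)
    {n m : ℕ} (hn : n ∈ Spec L φ) (hmn : m < n) (hm : max a 1 ≤ m) : m ∈ Spec L φ := by
  classical
  obtain ⟨hn0, M, sM, hcard, hreal⟩ := hn
  have hfin : Finite M := Nat.finite_of_card_ne_zero (by omega)
  obtain ⟨ys, -, hys⟩ := (hr M default default).1 hreal
  have := Fintype.ofFinite M
  have hFc : Fintype.card M = n := by rw [← Nat.card_eq_fintype_card, hcard]
  have h1 : (Finset.univ.image ys).card ≤ m := by
    calc (Finset.univ.image ys).card ≤ (Finset.univ : Finset (Fin m')).card :=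
          Finset.card_image_le
      _ = m' := by simp
      _ ≤ m := by
        have := le_max_left a 1
        omega
  obtain ⟨S, hS1, hS2, hS3⟩ := Finset.exists_subsuperset_card_eq
    (Finset.subset_univ (Finset.univ.image ys)) h1 (by rw [Finset.card_univ, hFc]; omega)
  refine ⟨by have := le_max_right a 1; omega, {x // x ∈ S},
    Easy_pull hF (fun x : {x // x ∈ S} => (x : M)), ?_, ?_⟩
  · rw [Nat.card_eq_fintype_card, Fintype.card_coe, hS3]
  · let _ : L.Structure {x // x ∈ S} := Easy_pull hF (fun x : {x // x ∈ S} => (x : M))
    let e : {x // x ∈ S} ↪[L] M :=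
      { toFun := fun x => (x : M)
        inj' := Subtype.coe_injective
        map_fun' := fun {n} f _ => ((hF n).false f).elim
        map_rel' := fun {n} R x => Iff.rfl }
    have hmem : ∀ i, ys i ∈ S := fun i => hS1 (Finset.mem_image_of_mem _ (Finset.mem_univ i))
    refine (hr {x // x ∈ S} default default).2 ⟨fun i => ⟨ys i, hmem i⟩,
      fun i => i.elim0, ?_⟩
    apply hψ.realize_embedding e
    have h2 : (e ∘ fun i => (⟨ys i, hmem i⟩ : {x // x ∈ S})) = ys := by
      funext i
      rfl
    rw [h2, Subsingleton.elim (e ∘ default) default]
    exact hys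

private lemma Easy_b {L : FirstOrder.Language.{0, 0}} (hF : ∀ n, IsEmpty (L.Functions n))
    {a : ℕ} (φ : L.Sentence)
    {m' : ℕ} (hm' : 0 ≤ m') (χ : L.BoundedFormula Empty (m' + 1)) (hma : m' = a)
    (hχ : χ.IsExistential)
    (hr : ∀ (M : Type) [L.Structure M] (v : Empty → M) (xs : Fin 0 → M),
          BoundedFormula.Realize φ v xs ↔ ∃ ys : Fin m' → M,
            (∀ i, ys (Fin.castLE hm' i) = xs i) ∧ χ.all.Realize v ys)
    {n : ℕ} (hn : n ∈ Spec L φ) (han : a < n) : n + 1 ∈ Spec L φ := by
  classical
  obtain ⟨hn0, M, sM, hcard, hreal⟩ := hn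
  have hfin : Finite M := Nat.finite_of_card_ne_zero (by omega)
  obtain ⟨ys, -, hys⟩ := (hr M default default).1 hreal
  have hFt := Fintype.ofFinite M
  have hFc : Fintype.card M = n := by rw [← Nat.card_eq_fintype_card, hcard]
  obtain ⟨t, ht⟩ : ∃ t : M, ∀ i, ys i ≠ t := by
    by_contra hcon
    push Not at hcon
    have hs : Function.Surjective ys := hcon
    have := Fintype.card_le_of_surjective ys hs
    rw [Fintype.card_fin] at this
    omega
  let ρ : Option M → M := fun o => o.getD t
  refine ⟨by omega, Option M, Easy_pull hF ρ, ?_, ?_⟩
  · rw [Nat.card_eq_fintype_card, Fintype.card_option, hFc]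
  · let _ : L.Structure (Option M) := Easy_pull hF ρ
    -- embeddings that are sections of `ρ`
    have hemb : ∀ g : M → Option M, (∀ x, ρ (g x) = x) → (∀ i, g (ys i) = some (ys i)) →
        ∀ (v : Empty → Option M) (x : M),
          χ.Realize v (Fin.snoc (fun i => some (ys i)) (g x)) := by
      intro g hg hgy v x
      let e : M ↪[L] Option M :=
        { toFun := g
          inj' := fun x y hxy => by rw [← hg x, ← hg y]; exact congrArg ρ hxy
          map_fun' := fun {n} f _ => ((hF n).false f).elim
          map_rel' := fun {n} R x => by
            change Structure.RelMap R (fun i => ρ (g (x i))) ↔ Structure.RelMap R x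
            have : (fun i => ρ (g (x i))) = x := by
              funext i
              exact hg (x i)
            rw [this] }
      have h1 := hys
      rw [BoundedFormula.realize_all] at h1
      have h2 := hχ.realize_embedding e (h1 x)
      rw [Subsingleton.elim (e ∘ default) v, Fin.comp_snoc] at h2
      have h3 : (e ∘ ys) = fun i => some (ys i) := by
        funext i
        exact hgy i
      rw [h3] at h2
      exact h2
    unfold Sentence.Realize Formula.Realize
    refine (hr (Option M) _ _).2 ⟨fun i => some (ys i), fun i => i.elim0, ?_⟩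
    rw [BoundedFormula.realize_all]
    intro y
    cases y with
    | some x => exact hemb (fun x => some x) (fun x => rfl) (fun i => rfl) _ x
    | none =>
      have h4 := hemb (fun x => if x = t then none else some x) (fun x => by
        split_ifs with h
        · exact h.symm
        · rfl) (fun i => if_neg (ht i))
      have h5 := fun v => h4 v t
      rw [if_pos rfl] at h5
      exact h5 _

theorem easy {L : FirstOrder.Language.{0, 0}} (hF : ∀ n, IsEmpty (L.Functions n)) {w : List Bool}
    (hw : ¬ Hard w) (φ : L.Sentence) (hφ : HasWord w φ) :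
    (Spec L φ).Finite ∨ {n | 0 < n ∧ n ∉ Spec L φ}.Finite := by
  rcases (hard_iff w).1 hw with ⟨a, b, rfl⟩ | ⟨a, b, rfl⟩
  · obtain ⟨m', hm', ψ, hma, hψ, hr⟩ := Easy_lead (List.replicate b true) a φ hφ
    by_cases hfin : (Spec L φ).Finite
    · exact Or.inl hfin
    · right
      apply (Set.finite_lt_nat (max a 1)).subset
      intro m hm
      by_contra hlt
      apply hm.2
      obtain ⟨n, hn, hmn⟩ := (show (Spec L φ).Infinite from hfin).exists_gt m
      refine Easy_a (a := a) hF φ hm' ψ (by omega) (Easy_univ b ψ hψ) hr hn hmn ?_
      exact not_lt.1 hlt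
  · obtain ⟨m', hm', ψ, hma, ⟨χ, hψχ, hχ⟩, hr⟩ :=
      Easy_lead (true :: List.replicate b false) a φ hφ
    by_cases hex : ∃ n ∈ Spec L φ, a < n
    · obtain ⟨n0, hn0, han0⟩ := hex
      right
      apply (Set.finite_lt_nat n0).subset
      intro m hm
      by_contra hlt
      apply hm.2
      have hle : n0 ≤ m := by simpa using hlt
      clear hlt hm
      induction m, hle using Nat.le_induction with
      | base => exact hn0
      | succ m hle ih =>
        rw [hψχ] at hr
        exact Easy_b hF φ hm' χ (by omega) (Easy_exis b χ hχ) hr ih (by omega)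
    · left
      push Not at hex
      exact (Set.finite_le_nat a).subset fun n hn => hex n hn

end Pool.Agent.Helper37.PX
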