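import Mathlib
import Pool.Agent.Helper37.PX.EDefs
import Pool.Agent.Helper31.Spectra

set_option autoImplicit false

/-!
# PX-C: a model of `φ` with `m` points gives a solution of the local system on `m ^ (k+1)` points

Transport the structure to `Fin m`. `D x i : Fin m`: digit `i` of `x` (`dg m i x`, `Nat.mod_lt`). `u x (.mx i)`: `dg m i x + 1 = m`;
`u x (.at R κ)`: `RelMap R.2 (fun t => D x (κ t))`; `u x (.eq i j)`: digits equal; `u x (.tr ⟨⟨j, ψ⟩, _⟩)`: `ψ.Realize default (fun i => D x i)`.
`b x z (.le i j)`, `(.ge i j)`: digits; `b x z (.sc ⟨⟨j, ψ⟩, _⟩)`: some `z' ≤ z` agrees with `x` in the digits below `j` and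
`¬ f.Realize (digits of z')` if `ψ = ∀ f` (anything if `ψ` is not of this form). Rules: `odo_complete`; for `all f`: `j + 1 ≤ k + 1` (`hk` for `f`),
`f.Realize` depends on the digits below `j + 1`; every value of digit `j` occurs (`dg_surj`).
-/

namespace Pool.Agent.Helper37.PX

open FirstOrder FirstOrder.Language Pool.Agent.Helper31.Spectra

theorem foc_subs_self {L : FirstOrder.Language.{0, 0}} {n : ℕ} (ψ : L.BoundedFormula Empty n) :
    (⟨n, ψ⟩ : BFm L) ∈ subs ψ := by
  cases ψ <;> simp [subs]

theorem foc_subs_trans {L : FirstOrder.Language.{0, 0}} {n : ℕ} (φ : L.BoundedFormula Empty n)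
    (s : BFm L) (hs : s ∈ subs φ) : subs s.2 ⊆ subs φ := by
  induction φ with
  | falsum =>
    simp only [subs, Set.mem_singleton_iff] at hs
    subst hs
    exact subset_rfl
  | equal t r =>
    simp only [subs, Set.mem_singleton_iff] at hs
    subst hs
    exact subset_rfl
  | rel R ts =>
    simp only [subs, Set.mem_singleton_iff] at hs
    subst hs
    exact subset_rfl
  | imp f g ihf ihg =>
    simp only [subs, Set.mem_insert_iff, Set.mem_union] at hs
    rcases hs with rfl | hs | hs
    · exact subset_rfl
    · exact (ihf hs).trans (fun a ha => Or.inr (Or.inl ha))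
    · exact (ihg hs).trans (fun a ha => Or.inr (Or.inr ha))
  | all f ih =>
    simp only [subs, Set.mem_insert_iff] at hs
    rcases hs with rfl | hs
    · exact subset_rfl
    · exact (ih hs).trans (fun a ha => Or.inr ha)

theorem foc_subs_imp {L : FirstOrder.Language.{0, 0}} {n j : ℕ} (φ : L.BoundedFormula Empty n)
    (f g : L.BoundedFormula Empty j) (hs : (⟨j, .imp f g⟩ : BFm L) ∈ subs φ) :
    (⟨j, f⟩ : BFm L) ∈ subs φ ∧ (⟨j, g⟩ : BFm L) ∈ subs φ := by
  have h := foc_subs_trans φ _ hs
  exact ⟨h (Or.inr (Or.inl (foc_subs_self f))), h (Or.inr (Or.inr (foc_subs_self g)))⟩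

theorem foc_subs_all {L : FirstOrder.Language.{0, 0}} {n j : ℕ} (φ : L.BoundedFormula Empty n)
    (f : L.BoundedFormula Empty (j + 1)) (hs : (⟨j, .all f⟩ : BFm L) ∈ subs φ) :
    (⟨j + 1, f⟩ : BFm L) ∈ subs φ := by
  have h := foc_subs_trans φ _ hs
  exact h (Or.inr (foc_subs_self f))

theorem foc_term_var {L : FirstOrder.Language.{0, 0}} (hF : ∀ n, IsEmpty (L.Functions n)) {j : ℕ}
    (t : L.Term (Empty ⊕ Fin j)) : ∃ i : Fin j, t = .var (Sum.inr i) := by
  cases t with
  | var a =>
    rcases a with e | i
    · exact e.elim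
    · exact ⟨i, rfl⟩
  | func f ts => exact ((hF _).false f).elim

section

variable {L : FirstOrder.Language.{0, 0}} {M : Type} [L.Structure M]

/-- The body of a universal formula (`True` for other formulas). -/
def focBody : BFm L → (ℕ → M) → Prop
  | ⟨_, .falsum⟩, _ => True
  | ⟨_, .equal _ _⟩, _ => True
  | ⟨_, .rel _ _⟩, _ => True
  | ⟨_, .imp _ _⟩, _ => True
  | ⟨_, .all f⟩, d => f.Realize default (fun i => d i)

/-- Unary values. -/
def focU (m k : ℕ) (F : Set (BFm L)) (D : ℕ → ℕ → M) (x : ℕ) : EU L k F → Prop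
  | .mx i => dg m i x + 1 = m
  | .at R κ => Structure.RelMap R.2 (fun t => D x (κ t))
  | .eq i j => dg m i x = dg m j x
  | .tr s => s.1.2.Realize default (fun i => D x i)

/-- Binary values. -/
def focB (m k : ℕ) (F : Set (BFm L)) (D : ℕ → ℕ → M) (x z : ℕ) : EB' L k F → Prop
  | .le i j => dg m i x ≤ dg m j z
  | .ge i j => dg m j z ≤ dg m i x
  | .sc s => ∃ z' ≤ z, (∀ i < s.1.1, D x i = D z' i) ∧ ¬ focBody s.1 (D z')

end

theorem foc_congr {L : FirstOrder.Language.{0, 0}} {M : Type} [L.Structure M] {j : ℕ}
    {f : L.BoundedFormula Empty j} {w w' : Fin j → M} (h : w' = w) (hr : f.Realize default w) :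
    f.Realize default w' := by
  rw [h]
  exact hr

theorem fo_complete {L : FirstOrder.Language.{0, 0}} (hF : ∀ n, IsEmpty (L.Functions n)) (k : ℕ)
    (φ : L.Sentence) (hk : ∀ s ∈ subs φ, s.1 ≤ k + 1) {m : ℕ} (hm : m ∈ Spec L φ) :
    (foSys k φ).Sol (m ^ (k + 1)) := by
  obtain ⟨hm0, M, sM, hcard, hreal⟩ := hm
  have hfin : Finite M := Nat.finite_of_card_ne_zero (by omega)
  obtain ⟨e⟩ : Nonempty (M ≃ Fin m) := by
    have := Finite.equivFin M
    rw [hcard] at this
    exact ⟨this⟩
  let D : ℕ → ℕ → M := fun x i => e.symm ⟨dg m i x, Nat.mod_lt _ hm0⟩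
  have hD : ∀ x i x' i', D x i = D x' i' ↔ dg m i x = dg m i' x' := by
    intro x i x' i'
    simp [D, Fin.ext_iff]
  have hodo := odo_complete (K := k + 1) (by omega) (m := m) hm0
  set F : Set (BFm L) := subs φ with hFdef
  let u : ℕ → EU L k F → Prop := focU m k F D
  let b : ℕ → ℕ → EB' L k F → Prop := focB m k F D
  have hEd : ∀ x z (i j : Fin (k + 1)), Ed (b x z) i j ↔ dg m i x = dg m j z := by
    intro x z i j
    show (dg m i x ≤ dg m j z ∧ dg m j z ≤ dg m i x) ↔ _
    exact ⟨fun h => le_antisymm h.1 h.2, fun h => ⟨h.le, h.ge⟩⟩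
  have hAgr : ∀ x z (j : ℕ), j ≤ k + 1 → (Agr (b x z) j ↔ ∀ i < j, D x i = D z i) := by
    intro x z j hj
    constructor
    · intro ha i hi
      rw [hD]
      exact (hEd x z ⟨i, by omega⟩ ⟨i, by omega⟩).1 (ha ⟨i, by omega⟩ hi)
    · intro ha i hi
      exact (hEd x z i i).2 ((hD _ _ _ _).1 (ha i hi))
  have hT : ∀ x (s : BFm L), s ∈ F → (Tx (u x) s ↔ s.2.Realize default (fun i => D x i)) := by
    intro x s hs
    exact ⟨fun ⟨_, h⟩ => h, fun h => ⟨hs, h⟩⟩
  have hS : ∀ x z (s : BFm L), s ∈ F → (Sx (b x z) s ↔
      ∃ z' ≤ z, (∀ i < s.1, D x i = D z' i) ∧ ¬ focBody s (D z')) := by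
    intro x z s hs
    exact ⟨fun ⟨_, h⟩ => h, fun h => ⟨hs, h⟩⟩
  have hsnoc : ∀ (x z j : ℕ), (∀ i < j, D x i = D z i) →
      (Fin.snoc (fun i : Fin j => D x i) (D z j) : Fin (j + 1) → M) =
        fun i : Fin (j + 1) => D z i := by
    intro x z j h
    funext i
    refine Fin.lastCases ?_ (fun i => ?_) i
    · simp only [Fin.snoc_last, Fin.val_last]
    · simp only [Fin.snoc_castSucc, Fin.val_castSucc]
      exact h i i.2
  have hofNat : ∀ {j : ℕ} (a : Fin j), j ≤ k + 1 →
      ((Fin.ofNat (k + 1) (a : ℕ) : Fin (k + 1)) : ℕ) = a := by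
    intro j a hj
    simp only [Fin.ofNat]
    exact Nat.mod_eq_of_lt (by omega)
  refine ⟨u, b, ?_, ?_, ?_⟩
  · intro x z hx hz
    refine ⟨hodo.1 x z hx hz, ?_, ?_, ?_, ?_⟩
    · rintro rfl i j
      rw [hEd]
      exact Iff.rfl
    · intro R κ κ' hκ
      have : (fun t => D x (κ t)) = fun t => D z (κ' t) := by
        funext t
        rw [hD]
        exact (hEd x z _ _).1 (hκ t)
      show Structure.RelMap R.2 (fun t => D x (κ t)) ↔ Structure.RelMap R.2 (fun t => D z (κ' t))
      rw [this]
    · rintro ⟨j, ψ⟩ hs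
      have hj : j ≤ k + 1 := hk _ hs
      cases ψ with
      | falsum =>
        show ¬ Tx (u x) _
        rw [hT x _ hs]
        exact fun h => h
      | equal t r =>
        show Tx (u x) _ ↔ _
        rw [hT x _ hs]
        obtain ⟨a, rfl⟩ := foc_term_var hF t
        obtain ⟨c, rfl⟩ := foc_term_var hF r
        simp only [BoundedFormula.Realize, Term.realize, Sum.elim_inr, tv]
        rw [hD]
        show _ ↔ dg m _ x = dg m _ x
        rw [hofNat a hj, hofNat c hj]
      | rel R ts =>
        show Tx (u x) _ ↔ _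
        rw [hT x _ hs]
        simp only [BoundedFormula.Realize]
        show _ ↔ Structure.RelMap R _
        have : (fun t => D x (Fin.ofNat (k + 1) (tv (ts t)) : Fin (k + 1))) =
            (fun i => (ts i).realize (Sum.elim default fun i : Fin j => D x i)) := by
          funext t
          obtain ⟨a, ha⟩ := foc_term_var hF (ts t)
          rw [ha]
          simp only [Term.realize, Sum.elim_inr, tv]
          rw [hofNat a hj]
        rw [this]
      | imp f g =>
        obtain ⟨hf, hg⟩ := foc_subs_imp φ f g hs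
        show Tx (u x) _ ↔ (Tx (u x) _ → Tx (u x) _)
        rw [hT x _ hs, hT x _ hf, hT x _ hg]
        rfl
      | all f =>
        have hf := foc_subs_all φ f hs
        refine ⟨?_, ?_, ?_⟩
        · intro ht ha
          rw [hT x _ hs] at ht
          rw [hAgr x z j hj] at ha
          rw [hT z _ hf]
          have := ht (D z j)
          rw [hsnoc x z j ha] at this
          exact this
        · intro hz0
          rw [hS x z _ hs, hAgr x z j hj, hT z _ hf]
          constructor
          · rintro ⟨z', hz', h1, h2⟩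
            have : z' = z := by omega
            subst this
            exact ⟨h1, h2⟩
          · rintro ⟨h1, h2⟩
            exact ⟨z, le_rfl, h1, h2⟩
        · intro hlz
          rw [hT x _ hs, hS x z _ hs]
          constructor
          · rintro ht ⟨z', -, h1, h2⟩
            apply h2
            have := ht (D z' j)
            rw [hsnoc x z' j h1] at this
            exact this
          · intro hno c
            have hj1 : j + 1 ≤ k + 1 := hk _ hf
            obtain ⟨z', hz', hzd⟩ := dg_surj (K := k + 1) hm0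
              (fun i => if (i : ℕ) = j then (e c : ℕ) else dg m i x)
              (fun i => by
                split_ifs
                · exact (e c).2
                · exact Nat.mod_lt _ hm0)
            have hag : ∀ i < j, D x i = D z' i := by
              intro i hi
              have := hzd ⟨i, by omega⟩
              rw [if_neg (by simp only; omega)] at this
              rw [hD]
              exact this.symm
            have hcj : D z' j = c := by
              have := hzd ⟨j, by omega⟩
              simp only [if_true] at this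
              simp only [D]
              rw [Equiv.symm_apply_eq]
              exact Fin.ext this
            by_contra hnf
            apply hno
            refine ⟨z', by omega, hag, ?_⟩
            show ¬ f.Realize default (fun i => D z' i)
            rw [← hsnoc x z' j hag, hcj]
            exact hnf
    · rw [hT x _ (foc_subs_self φ)]
      unfold Sentence.Realize Formula.Realize at hreal
      exact foc_congr (Subsingleton.elim _ _) hreal
  · intro x z hx hz
    exact hodo.2.1 x z hx hz
  · intro x z hx hz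
    refine ⟨hodo.2.2 x z hx hz, ?_⟩
    rintro ⟨j, ψ⟩ hs
    have hj : j ≤ k + 1 := hk _ hs
    cases ψ with
    | falsum => trivial
    | equal t r => trivial
    | rel R ts => trivial
    | imp f g => trivial
    | all f =>
      have hf := foc_subs_all φ f hs
      show Sx (b x (z + 1)) _ ↔ (Sx (b x z) _ ∨ (Agr (b x (z + 1)) j ∧ ¬ Tx (u (z + 1)) _))
      rw [hS x _ _ hs, hS x _ _ hs, hAgr x _ j hj, hT _ _ hf]
      constructor
      · rintro ⟨z', hz', h1, h2⟩
        rcases Nat.lt_or_ge z z' with h | h
        · have : z' = z + 1 := by omega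
          subst this
          exact Or.inr ⟨h1, h2⟩
        · exact Or.inl ⟨z', h, h1, h2⟩
      · rintro (⟨z', hz', h1, h2⟩ | ⟨h1, h2⟩)
        · exact ⟨z', by omega, h1, h2⟩
        · exact ⟨z + 1, le_rfl, h1, h2⟩

end Pool.Agent.Helper37.PX
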