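import Mathlib
import Pool.Agent.Helper37.PX.EDefs
import Pool.Agent.Helper31.Spectra

set_option autoImplicit false

/-!
# PX-B: a solution of the local system of `φ` on `n` points gives a model of `φ` with `m` points, `n = m ^ (k+1)`

`subs_self`, `subs_closed` (parts of a subformula are subformulas): induction.
`odo_sound` gives `m` and the digits: `le`, `ge` are `≤`, `≥` of digits. Structure on `Fin m`: `R` holds for `f` iff there are `κ` and
`x < n` with digit `κ t` of `x` = `f t` for all `t` and `u x (.at R κ)`. By the consistency rule: `u x (.at R κ) ↔ RelMap R (digits κ of x)`.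
Then for all `s = ⟨j, ψ⟩ ∈ subs φ` (so `j ≤ k + 1`) and `x < n`: `Tx (u x) s ↔ ψ.Realize default (fun i => digit i of x)`, by induction on `ψ`:
`falsum`; `equal`: rule `eq` (for `x = z`), terms are variables (`hF`); `rel`; `imp`; `all f`: `j + 1 ≤ k + 1`. If `Tx (u x) (∀ f)`: for
`c : Fin m` take `z` with the digits of `x` except digit `j` = `c` (`dg_surj`): `Agr`, so `Tx (u z) f`. Conversely by induction on `z < n`:
`Sx (b x z) s` iff some `z' ≤ z` has `Agr` with `x` and `¬ Tx (u z') f` (`Rule0` with `zz`, `Rule2`); at the last `z`: `Tx ↔ ¬ Sx`; so if all `z'` that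
agree with `x` below `j` satisfy `f`, then `Tx`; `f` depends only on the digits below `j + 1`.
Finally `Tx (u 0) ⟨0, φ⟩`.
-/

namespace Pool.Agent.Helper37.PX

open FirstOrder FirstOrder.Language Pool.Agent.Helper31.Spectra

theorem fos_subs_self {L : FirstOrder.Language.{0, 0}} {n : ℕ} (ψ : L.BoundedFormula Empty n) :
    (⟨n, ψ⟩ : BFm L) ∈ subs ψ := by
  cases ψ <;> simp [subs]

theorem fos_subs_trans {L : FirstOrder.Language.{0, 0}} {n : ℕ} (φ : L.BoundedFormula Empty n)
    (s : BFm L) (hs : s ∈ subs φ) : subs s.2 ⊆ subs φ := by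
  induction φ with
  | falsum =>
    simp only [subs, Set.mem_singleton_iff] at hs
    subst hs
    exact subset_rfl
  | equal t r =>
    simp only [subs, Set.mem_singleton_iff] at hs
    subst hs
    exact subset_rfl
  | rel R ts =>
    simp only [subs, Set.mem_singleton_iff] at hs
    subst hs
    exact subset_rfl
  | imp f g ihf ihg =>
    simp only [subs, Set.mem_insert_iff, Set.mem_union] at hs
    rcases hs with rfl | hs | hs
    · exact subset_rfl
    · exact (ihf hs).trans (fun a ha => Or.inr (Or.inl ha))
    · exact (ihg hs).trans (fun a ha => Or.inr (Or.inr ha))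
  | all f ih =>
    simp only [subs, Set.mem_insert_iff] at hs
    rcases hs with rfl | hs
    · exact subset_rfl
    · exact (ih hs).trans (fun a ha => Or.inr ha)

theorem fos_subs_imp {L : FirstOrder.Language.{0, 0}} {n j : ℕ} (φ : L.BoundedFormula Empty n)
    (f g : L.BoundedFormula Empty j) (hs : (⟨j, .imp f g⟩ : BFm L) ∈ subs φ) :
    (⟨j, f⟩ : BFm L) ∈ subs φ ∧ (⟨j, g⟩ : BFm L) ∈ subs φ := by
  have h := fos_subs_trans φ _ hs
  exact ⟨h (Or.inr (Or.inl (fos_subs_self f))), h (Or.inr (Or.inr (fos_subs_self g)))⟩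

theorem fos_subs_all {L : FirstOrder.Language.{0, 0}} {n j : ℕ} (φ : L.BoundedFormula Empty n)
    (f : L.BoundedFormula Empty (j + 1)) (hs : (⟨j, .all f⟩ : BFm L) ∈ subs φ) :
    (⟨j + 1, f⟩ : BFm L) ∈ subs φ := by
  have h := fos_subs_trans φ _ hs
  exact h (Or.inr (fos_subs_self f))

theorem fos_term_var {L : FirstOrder.Language.{0, 0}} (hF : ∀ n, IsEmpty (L.Functions n)) {j : ℕ}
    (t : L.Term (Empty ⊕ Fin j)) : ∃ i : Fin j, t = .var (Sum.inr i) := by
  cases t with
  | var a =>
    rcases a with e | i
    · exact e.elim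
    · exact ⟨i, rfl⟩
  | func f ts => exact ((hF _).false f).elim

theorem fos_congr {L : FirstOrder.Language.{0, 0}} {M : Type} [L.Structure M] {j : ℕ}
    {f : L.BoundedFormula Empty j} {w w' : Fin j → M} (h : w' = w) (hr : f.Realize default w) :
    f.Realize default w' := by
  rw [h]
  exact hr

theorem fo_sound {L : FirstOrder.Language.{0, 0}} (hF : ∀ n, IsEmpty (L.Functions n)) (k : ℕ)
    (φ : L.Sentence) (hk : ∀ s ∈ subs φ, s.1 ≤ k + 1) {n : ℕ} (hn : 1 ≤ n)
    (h : (foSys k φ).Sol n) : ∃ m, n = m ^ (k + 1) ∧ m ∈ Spec L φ := by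
  obtain ⟨u, b, h0, h1, h2⟩ := h
  obtain ⟨m, hm, hnm, -, hle⟩ := odo_sound (K := k + 1) (by omega) hn
    (mx := fun x i => u x (.mx i)) (le := fun x z i j => b x z (.le i j))
    (ge := fun x z i j => b x z (.ge i j))
    ⟨fun x z hx hz => (h0 x z hx hz).1, fun x z hx hz => h1 x z hx hz,
      fun x z hx hz => (h2 x z hx hz).1⟩
  have hEd : ∀ x < n, ∀ z < n, ∀ i j : Fin (k + 1), (Ed (b x z) i j ↔ dg m i x = dg m j z) := by
    intro x hx z hz i j
    have := hle x hx z hz i j
    unfold Ed
    rw [this.1, this.2]
    constructor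
    · rintro ⟨a, c⟩
      exact le_antisymm a c
    · intro a
      exact ⟨a.le, a.ge⟩
  have hAgr : ∀ x < n, ∀ z < n, ∀ j : ℕ, j ≤ k + 1 →
      (Agr (b x z) j ↔ ∀ i : Fin j, dg m i x = dg m i z) := by
    intro x hx z hz j hj
    constructor
    · intro ha i
      exact (hEd x hx z hz ⟨i, by omega⟩ ⟨i, by omega⟩).1 (ha ⟨i, by omega⟩ i.2)
    · intro ha i hi
      exact (hEd x hx z hz i i).2 (ha ⟨i, hi⟩)
  have hcons : ∀ x < n, ∀ z < n, ∀ (R : Σ l, L.Relations l) (κ κ' : Fin R.1 → Fin (k + 1)),
      (∀ t, dg m (κ t) x = dg m (κ' t) z) → (u x (.at R κ) ↔ u z (.at R κ')) := by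
    intro x hx z hz R κ κ' hd
    exact (h0 x z hx hz).2.2.1 R κ κ' fun t => (hEd x hx z hz _ _).2 (hd t)
  have heq : ∀ x < n, ∀ i j : Fin (k + 1), (u x (.eq i j) ↔ dg m i x = dg m j x) := by
    intro x hx i j
    rw [(h0 x x hx hx).2.1 rfl i j, hEd x hx x hx]
  let D : ℕ → ℕ → Fin m := fun x i => ⟨dg m i x, Nat.mod_lt _ hm⟩
  have hD : ∀ x i x' i', D x i = D x' i' ↔ dg m i x = dg m i' x' := by
    intro x i x' i'
    simp [D, Fin.ext_iff]
  let str : L.Structure (Fin m) :=
    { funMap := fun {l} f _ => ((hF l).false f).elim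
      RelMap := fun {l} R f => ∃ (κ : Fin l → Fin (k + 1)) (x : ℕ), x < n ∧
        (∀ t, D x (κ t) = f t) ∧ u x (.at ⟨l, R⟩ κ) }
  have hrel : ∀ x < n, ∀ (l : ℕ) (R : L.Relations l) (κ : Fin l → Fin (k + 1)),
      (u x (.at ⟨l, R⟩ κ) ↔ str.RelMap R (fun t => D x (κ t))) := by
    intro x hx l R κ
    constructor
    · intro hu
      exact ⟨κ, x, hx, fun _ => rfl, hu⟩
    · rintro ⟨κ', x', hx', hd, hu⟩
      exact (hcons x' hx' x hx ⟨l, R⟩ κ' κ fun t => (hD _ _ _ _).1 (hd t)).1 hu
  have key : ∀ {j : ℕ} (ψ : L.BoundedFormula Empty j), (⟨j, ψ⟩ : BFm L) ∈ subs φ → ∀ x < n,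
      (Tx (u x) ⟨j, ψ⟩ ↔ ψ.Realize (M := Fin m) default (fun i : Fin j => D x i)) := by
    intro j ψ
    induction ψ with
    | falsum =>
      intro hs x hx
      have := (h0 x x hx hx).2.2.2.1 _ hs
      simp only [Rule0] at this
      simp only [BoundedFormula.Realize, iff_false]
      exact this
    | @equal j t r =>
      intro hs x hx
      have := (h0 x x hx hx).2.2.2.1 _ hs
      simp only [Rule0] at this
      rw [this]
      have hj : j ≤ k + 1 := hk _ hs
      obtain ⟨a, rfl⟩ := fos_term_var hF t
      obtain ⟨c, rfl⟩ := fos_term_var hF r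
      simp only [BoundedFormula.Realize, Term.realize, Sum.elim_inr, tv]
      rw [heq x hx, hD]
      have ha : ((Fin.ofNat (k + 1) (a : ℕ) : Fin (k + 1)) : ℕ) = a := by
        simp only [Fin.ofNat]
        exact Nat.mod_eq_of_lt (by omega)
      have hc : ((Fin.ofNat (k + 1) (c : ℕ) : Fin (k + 1)) : ℕ) = c := by
        simp only [Fin.ofNat]
        exact Nat.mod_eq_of_lt (by omega)
      rw [ha, hc]
    | @rel j l R ts =>
      intro hs x hx
      have := (h0 x x hx hx).2.2.2.1 _ hs
      simp only [Rule0] at this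
      rw [this]
      have hj : j ≤ k + 1 := hk _ hs
      rw [hrel x hx]
      simp only [BoundedFormula.Realize]
      have : (fun t => D x (Fin.ofNat (k + 1) (tv (ts t)) : Fin (k + 1))) =
          (fun i => (ts i).realize (Sum.elim default fun i : Fin j => D x i)) := by
        funext t
        obtain ⟨a, ha⟩ := fos_term_var hF (ts t)
        rw [ha]
        simp only [Term.realize, Sum.elim_inr, tv]
        have ha : ((Fin.ofNat (k + 1) (a : ℕ) : Fin (k + 1)) : ℕ) = a := by
          simp only [Fin.ofNat]
          exact Nat.mod_eq_of_lt (by omega)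
        rw [ha]
      rw [this]
    | @imp j f g ihf ihg =>
      intro hs x hx
      have := (h0 x x hx hx).2.2.2.1 _ hs
      simp only [Rule0] at this
      obtain ⟨hf, hg⟩ := fos_subs_imp φ f g hs
      rw [this, ihf hf x hx, ihg hg x hx]
      rfl
    | @all j f ih =>
      intro hs x hx
      have hf := fos_subs_all φ f hs
      have hj : j + 1 ≤ k + 1 := hk _ hf
      simp only [BoundedFormula.Realize]
      constructor
      · intro ht c
        obtain ⟨z, hz, hzd⟩ := dg_surj (K := k + 1) hm
          (fun i => if (i : ℕ) = j then (c : ℕ) else dg m i x)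
          (fun i => by
            split_ifs
            · exact c.2
            · exact Nat.mod_lt _ hm)
        rw [← hnm] at hz
        have hag : Agr (b x z) j := by
          rw [hAgr x hx z hz j (by omega)]
          intro i
          have := hzd ⟨i, by omega⟩
          rw [if_neg (by simp only; omega)] at this
          exact this.symm
        have := (h0 x z hx hz).2.2.2.1 _ hs
        simp only [Rule0] at this
        have := this.1 ht hag
        rw [ih hf z hz] at this
        refine fos_congr ?_ this
        funext i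
        refine Fin.lastCases ?_ (fun i => ?_) i
        · simp only [Fin.snoc_last, Fin.val_last, D]
          have := hzd ⟨j, by omega⟩
          simp only [if_true] at this
          exact Fin.ext this.symm
        · simp only [Fin.snoc_castSucc, Fin.val_castSucc]
          rw [hD]
          exact (hAgr x hx z hz j (by omega)).1 hag i
      · intro hr
        have hS : ∀ z < n, ¬ Sx (b x z) ⟨j, .all f⟩ := by
          have hgood : ∀ z < n, Agr (b x z) j → Tx (u z) ⟨j + 1, f⟩ := by
            intro z hz hag
            rw [ih hf z hz]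
            refine fos_congr ?_ (hr (D z j))
            funext i
            refine Fin.lastCases ?_ (fun i => ?_) i
            · simp only [Fin.snoc_last, Fin.val_last]
            · simp only [Fin.snoc_castSucc, Fin.val_castSucc]
              rw [hD]
              exact ((hAgr x hx z hz j (by omega)).1 hag i).symm
          intro z
          induction z with
          | zero =>
            intro hz hS
            have := (h0 x 0 hx hz).2.2.2.1 _ hs
            simp only [Rule0] at this
            have := (this.2.1 trivial).1 hS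
            exact this.2 (hgood 0 hz this.1)
          | succ z ihz =>
            intro hz hS
            have := (h2 x z hx hz).2 _ hs
            simp only [Rule2] at this
            rcases this.1 hS with h' | h'
            · exact ihz (by omega) h'
            · exact h'.2 (hgood (z + 1) hz h'.1)
        have hl : n - 1 < n := by omega
        have := (h0 x (n - 1) hx hl).2.2.2.1 _ hs
        simp only [Rule0] at this
        exact (this.2.2 (by omega)).2 (hS _ hl)
  refine ⟨m, hnm, hm, Fin m, str, by simp, ?_⟩
  have h00 := (h0 0 0 (by omega) (by omega)).2.2.2.2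
  have := (key φ (fos_subs_self φ) 0 (by omega)).1 h00
  unfold Sentence.Realize Formula.Realize
  exact fos_congr (Subsingleton.elim _ _) this

end Pool.Agent.Helper37.PX
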