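import Mathlib
import Pool.Agent.Helper37.PX.FoS
import Pool.Agent.Helper37.PX.FoC

set_option autoImplicit false

/-!
# PX-D: every sentence over a finite relational language is coded by a local system

`subs φ` is finite; `EU`, `EB'` are finite (if `L` has finitely many relation symbols); `k` large. Also `sol_two`: one can add the condition
that there are at least two points (add `¬ (first and last)` to `T0`).
-/

namespace Pool.Agent.Helper37.PX

open FirstOrder FirstOrder.Language Pool.Agent.Helper31.Spectra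

private theorem FoLocal_subs_finite {L : FirstOrder.Language.{0, 0}} {n : ℕ}
    (φ : L.BoundedFormula Empty n) : (subs φ).Finite := by
  induction φ with
  | falsum => exact Set.finite_singleton _
  | equal t s => exact Set.finite_singleton _
  | rel R ts => exact Set.finite_singleton _
  | imp f g hf hg => exact (hf.union hg).insert _
  | all f hf => exact hf.insert _

private theorem FoLocal_finite_EU {L : FirstOrder.Language.{0, 0}}
    (hR : Finite (Σ n, L.Relations n)) (k : ℕ) (F : Set (BFm L)) (hF : F.Finite) :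
    Finite (EU L k F) := by
  have hF' : Finite F := hF
  have hsurj : Function.Surjective (fun z : (Fin (k + 1)) ⊕
      ((Σ R : (Σ l, L.Relations l), (Fin R.1 → Fin (k + 1))) ⊕
        ((Fin (k + 1) × Fin (k + 1)) ⊕ F)) =>
      (match z with
      | Sum.inl i => EU.mx i
      | Sum.inr (Sum.inl p) => EU.at p.1 p.2
      | Sum.inr (Sum.inr (Sum.inl p)) => EU.eq p.1 p.2
      | Sum.inr (Sum.inr (Sum.inr s)) => EU.tr s : EU L k F)) := by
    rintro (i | ⟨R, κ⟩ | ⟨i, j⟩ | s)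
    · exact ⟨Sum.inl i, rfl⟩
    · exact ⟨Sum.inr (Sum.inl ⟨R, κ⟩), rfl⟩
    · exact ⟨Sum.inr (Sum.inr (Sum.inl (i, j))), rfl⟩
    · exact ⟨Sum.inr (Sum.inr (Sum.inr s)), rfl⟩
  exact Finite.of_surjective _ hsurj

private theorem FoLocal_finite_EB {L : FirstOrder.Language.{0, 0}} (k : ℕ) (F : Set (BFm L))
    (hF : F.Finite) : Finite (EB' L k F) := by
  have hF' : Finite F := hF
  have hsurj : Function.Surjective (fun z : (Fin (k + 1) × Fin (k + 1)) ⊕
      ((Fin (k + 1) × Fin (k + 1)) ⊕ F) =>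
      (match z with
      | Sum.inl p => EB'.le p.1 p.2
      | Sum.inr (Sum.inl p) => EB'.ge p.1 p.2
      | Sum.inr (Sum.inr s) => EB'.sc s : EB' L k F)) := by
    rintro (⟨i, j⟩ | ⟨i, j⟩ | s)
    · exact ⟨Sum.inl (i, j), rfl⟩
    · exact ⟨Sum.inr (Sum.inl (i, j)), rfl⟩
    · exact ⟨Sum.inr (Sum.inr s), rfl⟩
  exact Finite.of_surjective _ hsurj

theorem fo_local {L : FirstOrder.Language.{0, 0}} (hF : ∀ n, IsEmpty (L.Functions n))
    (hR : Finite (Σ n, L.Relations n)) (φ : L.Sentence) (k0 : ℕ) :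
    ∃ k, k0 ≤ k ∧ 1 ≤ k ∧ ∃ (U B : Type) (_ : Finite U) (_ : Finite B) (S : LocSys U B),
      ∀ n, 0 < n → (S.Sol n ↔ ∃ m, n = m ^ k ∧ m ∈ Spec L φ) := by
  have hsub : (subs φ).Finite := FoLocal_subs_finite φ
  obtain ⟨K, hK⟩ : ∃ K : ℕ, ∀ s ∈ subs φ, s.1 ≤ K := by
    obtain ⟨K, hK⟩ := (hsub.image fun s : BFm L => s.1).bddAbove
    exact ⟨K, fun s hs => hK ⟨s, hs, rfl⟩⟩
  refine ⟨max K k0 + 1, ?_, ?_, EU L (max K k0) (subs φ), EB' L (max K k0) (subs φ),
    FoLocal_finite_EU hR _ _ hsub, FoLocal_finite_EB _ _ hsub, foSys (max K k0) φ, ?_⟩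
  · exact le_trans (le_max_right K k0) (Nat.le_succ _)
  · exact Nat.succ_le_succ (Nat.zero_le _)
  · have hk : ∀ s ∈ subs φ, s.1 ≤ max K k0 + 1 := fun s hs =>
      le_trans (hK s hs) (le_trans (le_max_left K k0) (Nat.le_succ _))
    intro n hn
    constructor
    · intro h
      exact fo_sound hF _ φ hk hn h
    · rintro ⟨m, rfl, hm⟩
      exact fo_complete hF _ φ hk hm

theorem sol_two {U B : Type} (S : LocSys U B) : ∃ S' : LocSys U B, ∀ n, 0 < n →
    (S'.Sol n ↔ 2 ≤ n ∧ S.Sol n) := by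
  refine ⟨⟨fun zx lx zz lz exz ux uz b => ¬ (zx ∧ lx) ∧ S.T0 zx lx zz lz exz ux uz b,
    S.T1, S.T2⟩, fun n hn => ?_⟩
  constructor
  · rintro ⟨u, b, h0, h1, h2⟩
    refine ⟨?_, u, b, fun x z hx hz => (h0 x z hx hz).2, h1, h2⟩
    have h3 := (h0 0 0 hn hn).1
    by_contra h4
    exact h3 ⟨rfl, by omega⟩
  · rintro ⟨hn2, u, b, h0, h1, h2⟩
    refine ⟨u, b, fun x z hx hz => ⟨?_, h0 x z hx hz⟩, h1, h2⟩
    rintro ⟨h3, h4⟩
    omega

end Pool.Agent.Helper37.PX
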