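import Mathlib
import Pool.Agent.Helper37.PX.Defs

set_option autoImplicit false

/-!
# PX-Q: every predicate of the atomic data of a triple is given by a quantifier free formula

`exists_qf`: finite disjunction over the Boolean assignments to the finitely many atoms (`Fin 3 × U`, `Fin 3 × Fin 3 × B`, `Fin 3 × Fin 3`) that satisfy
`Φ`, of the conjunction of the atoms or their negations (closure of given by a quantifier free formula under not, and, finite
disjunctions; `IsQF` with `Φ.imp`, `falsum`).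
`qf_map`: variables of a quantifier free formula may be renamed: induction on `IsQF`.
`word_lift`: dummy quantifiers. Induction on the derivation of the sublist `s` of `w`, for all `n`, `n'`, `ψ`, `e`: `slnil`: `qf_map`; `cons`: add the
quantifier before the formula for `(w', e' = Fin.castSucc ∘ e)` (`M` nonempty); `cons₂`: `ψ = ψ'.all` or `ψ'.ex`, use `ψ'` with the map `Fin (n+1) → Fin (n'+1)` that
sends `castSucc i` to `castSucc (e i)` and the last to the last.
`word_sentence`: from these for the words `[true, true, false]` and `[true, false, true]`: `Φ` of the atomic data (structures over `LL U B` are the same as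
pairs `u`, `b`: `uOf`, `bOf`, `strOf`).
-/

namespace Pool.Agent.Helper37.PX

open FirstOrder FirstOrder.Language

/-- The predicate `Ψ` of triples of points of structures is given by a quantifier free formula. -/
def GQ (U B : Type) (Ψ : (M : Type) → [(LL U B).Structure M] → M → M → M → Prop) : Prop :=
  ∃ χ : (LL U B).BoundedFormula Empty 3, χ.IsQF ∧
      ∀ (M : Type) [(LL U B).Structure M] (x y z : M),
        χ.Realize default ![x, y, z] ↔ Ψ M x y z

theorem GQ.not {U B : Type} {Ψ : (M : Type) → [(LL U B).Structure M] → M → M → M → Prop}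
    (h : GQ U B Ψ) : GQ U B (fun M _ x y z => ¬ Ψ M x y z) := by
  obtain ⟨χ, h1, h2⟩ := h
  exact ⟨χ.not, h1.not, fun M _ x y z => by rw [BoundedFormula.realize_not, h2]⟩

theorem GQ.and {U B : Type} {Ψ Θ : (M : Type) → [(LL U B).Structure M] → M → M → M → Prop}
    (h : GQ U B Ψ) (h' : GQ U B Θ) : GQ U B (fun M _ x y z => Ψ M x y z ∧ Θ M x y z) := by
  obtain ⟨χ, h1, h2⟩ := h
  obtain ⟨χ', h1', h2'⟩ := h'
  exact ⟨χ ⊓ χ', h1.inf h1', fun M _ x y z => by rw [BoundedFormula.realize_inf, h2, h2']⟩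

theorem GQ.congr {U B : Type} {Ψ Θ : (M : Type) → [(LL U B).Structure M] → M → M → M → Prop}
    (h : GQ U B Ψ) (h' : ∀ (M : Type) [(LL U B).Structure M] (x y z : M),
      Ψ M x y z ↔ Θ M x y z) : GQ U B Θ := by
  obtain ⟨χ, h1, h2⟩ := h
  exact ⟨χ, h1, fun M _ x y z => by rw [h2, h']⟩

theorem GQ.const {U B : Type} (P : Prop) : GQ U B (fun _ _ _ _ _ => P) := by
  by_cases hP : P
  · exact ⟨⊤, BoundedFormula.IsQF.top, fun M _ x y z => by
      rw [BoundedFormula.realize_top]; exact iff_of_true trivial hP⟩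
  · exact ⟨⊥, BoundedFormula.isQF_bot, fun M _ x y z => by
      rw [BoundedFormula.realize_bot]; exact iff_of_false id hP⟩

theorem GQ.iffConst {U B : Type} {Ψ : (M : Type) → [(LL U B).Structure M] → M → M → M → Prop}
    (h : GQ U B Ψ) (P : Prop) : GQ U B (fun M _ x y z => (Ψ M x y z ↔ P)) := by
  by_cases hP : P
  · exact h.congr fun M _ x y z => by simp [hP]
  · exact h.not.congr fun M _ x y z => by simp [hP]

theorem GQ.forallList {U B ι : Type}
    {Ψ : ι → (M : Type) → [(LL U B).Structure M] → M → M → M → Prop}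
    (h : ∀ i, GQ U B (Ψ i)) (l : List ι) : GQ U B (fun M _ x y z => ∀ i ∈ l, Ψ i M x y z) := by
  induction l with
  | nil => exact (GQ.const True).congr fun M _ x y z => by simp
  | cons a l ih => exact ((h a).and ih).congr fun M _ x y z => by simp

theorem GQ.forallFin {U B ι : Type} [Finite ι]
    {Ψ : ι → (M : Type) → [(LL U B).Structure M] → M → M → M → Prop}
    (h : ∀ i, GQ U B (Ψ i)) : GQ U B (fun M _ x y z => ∀ i, Ψ i M x y z) := by
  have := Fintype.ofFinite ι
  exact (GQ.forallList h Finset.univ.toList).congr fun M _ x y z => by simp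

theorem GQ.existsFin {U B ι : Type} [Finite ι]
    {Ψ : ι → (M : Type) → [(LL U B).Structure M] → M → M → M → Prop}
    (h : ∀ i, GQ U B (Ψ i)) : GQ U B (fun M _ x y z => ∃ i, Ψ i M x y z) :=
  (GQ.forallFin fun i => (h i).not).not.congr fun M _ x y z => by simp

theorem GQ.un {U B : Type} (i : Fin 3) (a : U) :
    GQ U B (fun M _ x y z => uOf U B M (![x, y, z] i) a) := by
  refine ⟨(show (LL U B).Relations 1 from ULB.un a).boundedFormula ![Term.var (Sum.inr i)],
    (BoundedFormula.IsAtomic.rel _ _).isQF, fun M _ x y z => ?_⟩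
  rw [BoundedFormula.realize_rel]
  unfold uOf
  have : (fun k => Term.realize (Sum.elim (default : Empty → M) ![x, y, z])
      ((![Term.var (Sum.inr i)] : Fin 1 → (LL U B).Term (Empty ⊕ Fin 3)) k)) =
      ![![x, y, z] i] := by
    funext k
    fin_cases k
    rfl
  rw [this]

theorem GQ.bi {U B : Type} (i j : Fin 3) (c : B) :
    GQ U B (fun M _ x y z => bOf U B M (![x, y, z] i) (![x, y, z] j) c) := by
  refine ⟨(show (LL U B).Relations 2 from ULB.bi c).boundedFormula
    ![Term.var (Sum.inr i), Term.var (Sum.inr j)],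
    (BoundedFormula.IsAtomic.rel _ _).isQF, fun M _ x y z => ?_⟩
  rw [BoundedFormula.realize_rel]
  unfold bOf
  have : (fun k => Term.realize (Sum.elim (default : Empty → M) ![x, y, z])
      ((![Term.var (Sum.inr i), Term.var (Sum.inr j)] :
        Fin 2 → (LL U B).Term (Empty ⊕ Fin 3)) k)) =
      ![![x, y, z] i, ![x, y, z] j] := by
    funext k
    fin_cases k
    · rfl
    · rfl
  rw [this]

theorem GQ.eq {U B : Type} (i j : Fin 3) :
    GQ U B (fun M _ x y z => (![x, y, z] i : M) = ![x, y, z] j) := by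
  refine ⟨(Term.var (Sum.inr i)).bdEqual (Term.var (Sum.inr j)),
    (BoundedFormula.IsAtomic.equal _ _).isQF, fun M _ x y z => ?_⟩
  rw [BoundedFormula.realize_bdEqual]
  rfl

theorem exists_qf {U B : Type} [Finite U] [Finite B] (Φ : Dat U B → Prop) :
    ∃ χ : (LL U B).BoundedFormula Empty 3, χ.IsQF ∧
      ∀ (M : Type) [(LL U B).Structure M] (x y z : M),
        χ.Realize default ![x, y, z] ↔ Φ (dat (uOf U B M) (bOf U B M) x y z) := by
  have key : GQ U B (fun M _ x y z =>
      ∃ d : (Fin 3 → U → Prop) × (Fin 3 → Fin 3 → B → Prop) × (Fin 3 → Fin 3 → Prop),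
        (((∀ i a, (uOf U B M (![x, y, z] i) a ↔ d.1 i a)) ∧
        (∀ i j c, (bOf U B M (![x, y, z] i) (![x, y, z] j) c ↔ d.2.1 i j c))) ∧
        (∀ i j, ((![x, y, z] i : M) = ![x, y, z] j ↔ d.2.2 i j))) ∧ Φ ⟨d.1, d.2.1, d.2.2⟩) := by
    refine GQ.existsFin fun d => ?_
    refine GQ.and (GQ.and (GQ.and ?_ ?_) ?_) (GQ.const _)
    · exact GQ.forallFin fun i => GQ.forallFin fun a => (GQ.un i a).iffConst _
    · exact GQ.forallFin fun i => GQ.forallFin fun j => GQ.forallFin fun c =>
        (GQ.bi i j c).iffConst _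
    · exact GQ.forallFin fun i => GQ.forallFin fun j => (GQ.eq i j).iffConst _
  refine GQ.congr key fun M _ x y z => ?_
  constructor
  · rintro ⟨⟨d1, d2, d3⟩, ⟨⟨h1, h2⟩, h3⟩, h⟩
    have e1 : (fun i => uOf U B M (![x, y, z] i)) = d1 := by
      funext i a; exact propext (h1 i a)
    have e2 : (fun i j => bOf U B M (![x, y, z] i) (![x, y, z] j)) = d2 := by
      funext i j c; exact propext (h2 i j c)
    have e3 : (fun i j => (![x, y, z] i : M) = ![x, y, z] j) = d3 := by
      funext i j; exact propext (h3 i j)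
    unfold dat
    rw [e1, e2, e3]
    exact h
  · intro h
    exact ⟨⟨_, _, _⟩, ⟨⟨fun i a => Iff.rfl, fun i j c => Iff.rfl⟩, fun i j => Iff.rfl⟩, h⟩

theorem qf_map {L : FirstOrder.Language.{0, 0}} {n n' : ℕ} (e : Fin n → Fin n')
    (ψ : L.BoundedFormula Empty n) (h : ψ.IsQF) : ∃ χ : L.BoundedFormula Empty n', χ.IsQF ∧
      ∀ (M : Type) [L.Structure M] (v : Fin n' → M),
        χ.Realize default v ↔ ψ.Realize default (v ∘ e) := by
  have hs : ∀ (M : Type) (v : Fin n' → M), Sum.elim (default : Empty → M) v ∘ Sum.map id e =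
      Sum.elim (default : Empty → M) (v ∘ e) := by
    intro M v
    funext k
    rcases k with k | k
    · exact k.elim
    · rfl
  induction h with
  | falsum => exact ⟨⊥, BoundedFormula.isQF_bot, fun M _ v => Iff.rfl⟩
  | of_isAtomic h =>
    cases h with
    | equal t₁ t₂ =>
      refine ⟨(t₁.relabel (Sum.map id e)).bdEqual (t₂.relabel (Sum.map id e)),
        (BoundedFormula.IsAtomic.equal _ _).isQF, fun M _ v => ?_⟩
      rw [BoundedFormula.realize_bdEqual, BoundedFormula.realize_bdEqual,
        Term.realize_relabel, Term.realize_relabel, hs]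
    | rel R ts =>
      refine ⟨R.boundedFormula fun i => (ts i).relabel (Sum.map id e),
        (BoundedFormula.IsAtomic.rel _ _).isQF, fun M _ v => ?_⟩
      rw [BoundedFormula.realize_rel, BoundedFormula.realize_rel]
      simp only [Term.realize_relabel, hs]
  | imp h1 h2 ih1 ih2 =>
    obtain ⟨χ1, a1, b1⟩ := ih1
    obtain ⟨χ2, a2, b2⟩ := ih2
    refine ⟨χ1.imp χ2, a1.imp a2, fun M _ v => ?_⟩
    rw [BoundedFormula.realize_imp, BoundedFormula.realize_imp, b1, b2]

/-- The map `Fin (n + 1) → Fin (n' + 1)` that is `e` on the first ones and sends the last to the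
last. -/
def extE {n n' : ℕ} (e : Fin n → Fin n') : Fin (n + 1) → Fin (n' + 1) :=
  Fin.snoc (fun i => Fin.castSucc (e i)) (Fin.last n')

theorem snoc_extE {n n' : ℕ} (e : Fin n → Fin n') {M : Type} (v : Fin n' → M) (a : M) :
    (Fin.snoc v a : Fin (n' + 1) → M) ∘ extE e = Fin.snoc (v ∘ e) a := by
  funext k
  refine Fin.lastCases ?_ (fun i => ?_) k
  · simp [extE]
  · simp [extE]

theorem snoc_castSucc {n n' : ℕ} (e : Fin n → Fin n') {M : Type} (v : Fin n' → M) (a : M) :
    (Fin.snoc v a : Fin (n' + 1) → M) ∘ (fun i => Fin.castSucc (e i)) = v ∘ e := by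
  funext k
  simp

theorem word_lift {L : FirstOrder.Language.{0, 0}} {s w : List Bool} (hs : List.Sublist s w) :
    ∀ {n n' : ℕ} (e : Fin n → Fin n') (ψ : L.BoundedFormula Empty n), HasWord s ψ →
    ∃ χ : L.BoundedFormula Empty n', HasWord w χ ∧
      ∀ (M : Type) [L.Structure M] [Nonempty M] (v : Fin n' → M),
        χ.Realize default v ↔ ψ.Realize default (v ∘ e) := by
  induction hs with
  | slnil =>
    intro n n' e ψ h
    obtain ⟨χ, h1, h2⟩ := qf_map e ψ h
    exact ⟨χ, h1, fun M _ _ v => h2 M v⟩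
  | cons a hs ih =>
    intro n n' e ψ h
    obtain ⟨χ, h1, h2⟩ := ih (fun i => Fin.castSucc (e i)) ψ h
    cases a with
    | true =>
      refine ⟨χ.all, ⟨χ, rfl, h1⟩, fun M _ _ v => ?_⟩
      rw [BoundedFormula.realize_all]
      constructor
      · intro h
        obtain ⟨a⟩ := ‹Nonempty M›
        have := h a
        rwa [h2, snoc_castSucc] at this
      · intro h a
        rwa [h2, snoc_castSucc]
    | false =>
      refine ⟨χ.ex, ⟨χ, rfl, h1⟩, fun M _ _ v => ?_⟩
      rw [BoundedFormula.realize_ex]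
      constructor
      · rintro ⟨a, h⟩
        rwa [h2, snoc_castSucc] at h
      · intro h
        obtain ⟨a⟩ := ‹Nonempty M›
        refine ⟨a, ?_⟩
        rwa [h2, snoc_castSucc]
  | cons_cons a hs ih =>
    intro n n' e ψ h
    cases a with
    | true =>
      obtain ⟨ψ', rfl, h⟩ := h
      obtain ⟨χ, h1, h2⟩ := ih (extE e) ψ' h
      refine ⟨χ.all, ⟨χ, rfl, h1⟩, fun M _ _ v => ?_⟩
      rw [BoundedFormula.realize_all, BoundedFormula.realize_all]
      refine forall_congr' fun a => ?_
      rw [h2, snoc_extE]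
    | false =>
      obtain ⟨ψ', rfl, h⟩ := h
      obtain ⟨χ, h1, h2⟩ := ih (extE e) ψ' h
      refine ⟨χ.ex, ⟨χ, rfl, h1⟩, fun M _ _ v => ?_⟩
      rw [BoundedFormula.realize_ex, BoundedFormula.realize_ex]
      refine exists_congr fun a => ?_
      rw [h2, snoc_extE]

theorem snoc_three {M : Type} (v : Fin 0 → M) (x y z : M) :
    (Fin.snoc (Fin.snoc (Fin.snoc v x : Fin 1 → M) y : Fin 2 → M) z : Fin 3 → M) = ![x, y, z] := by
  funext k
  fin_cases k
  · rfl
  · rfl
  · rfl

theorem word_aae {U B : Type} [Finite U] [Finite B] (Φ : Dat U B → Prop) {w : List Bool}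
    (hw : List.Sublist [true, true, false] w) : ∃ φ : (LL U B).Sentence, HasWord w φ ∧
      ∀ (M : Type) [(LL U B).Structure M] [Nonempty M],
        φ.Realize M ↔ ∀ x y : M, ∃ z, Φ (dat (uOf U B M) (bOf U B M) x y z) := by
  obtain ⟨χ, h1, h2⟩ := exists_qf Φ
  obtain ⟨φ, h3, h4⟩ := word_lift hw (id : Fin 0 → Fin 0) (χ.ex.all.all)
    ⟨χ.ex.all, rfl, χ.ex, rfl, χ, rfl, h1⟩
  refine ⟨φ, h3, fun M _ _ => ?_⟩
  have := h4 M default
  unfold Sentence.Realize Formula.Realize
  rw [this, BoundedFormula.realize_all]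
  refine forall_congr' fun x => ?_
  rw [BoundedFormula.realize_all]
  refine forall_congr' fun y => ?_
  rw [BoundedFormula.realize_ex]
  refine exists_congr fun z => ?_
  rw [snoc_three, h2]

theorem word_aea {U B : Type} [Finite U] [Finite B] (Φ : Dat U B → Prop) {w : List Bool}
    (hw : List.Sublist [true, false, true] w) : ∃ φ : (LL U B).Sentence, HasWord w φ ∧
      ∀ (M : Type) [(LL U B).Structure M] [Nonempty M],
        φ.Realize M ↔ ∀ x : M, ∃ y, ∀ z, Φ (dat (uOf U B M) (bOf U B M) x y z) := by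
  obtain ⟨χ, h1, h2⟩ := exists_qf Φ
  obtain ⟨φ, h3, h4⟩ := word_lift hw (id : Fin 0 → Fin 0) (χ.all.ex.all)
    ⟨χ.all.ex, rfl, χ.all, rfl, χ, rfl, h1⟩
  refine ⟨φ, h3, fun M _ _ => ?_⟩
  have := h4 M default
  unfold Sentence.Realize Formula.Realize
  rw [this, BoundedFormula.realize_all]
  refine forall_congr' fun x => ?_
  rw [BoundedFormula.realize_ex]
  refine exists_congr fun y => ?_
  rw [BoundedFormula.realize_all]
  refine forall_congr' fun z => ?_
  rw [snoc_three, h2]

end Pool.Agent.Helper37.PX
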