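import Mathlib
import Pool.Agent.Helper37.PX.AAE
import Pool.Agent.Helper37.PX.AEA
import Pool.Agent.Helper37.PX.FoLocal
import Pool.Agent.Helper37.PX.QF
import Pool.Agent.Helper37.PX.Easy
import Pool.Agent.Helper72.WT.Relat
import Pool.Agent.Helper87.AU.Decode
import Pool.Agent.Helper72.TX.Inter

set_option autoImplicit false

/-!
# PX-S: hard words represent the whole question

`hard_word`: `exists_relational` (Helper72/WT/Relat), `fo_local` with `k0 = 3` (`m ^ k ≥ 5` for `m ≥ 2`), then `aae` + `word_aae` with `c = 4`, or `sol_two` + `aea` +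
`word_aea` with `c = 1`. `LL U B` has relation symbols of arity 1, 2 only, finitely many.
`hard_asser`: the complement of `Spec ψ` is a spectrum; `Pool.Agent.Helper87.AU.decode` (with `r + 1 = k`, `D = c`): `{m | 0 < m ∧ c * m ^ k ∉ Spec ψ}` is a spectrum; it
differs from the complement of `Spec φ` at most in `m = 1` (`c m ^ k = c m' ^ k → m = m'`): `isSpectrum_inter` (Helper72/TX/Inter) with `{m | 2 ≤ m}` and the union with `∅` or `{1}`
(both are spectra by `isSpectrum_of_periodic`).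
`hard_nonper`: `hard_word` for the empty language and the true sentence: `Spec ψ = {c m ^ k | m ≥ 2}` with `k ≥ 2` is not ultimately periodic (gaps grow).
-/

namespace Pool.Agent.Helper37.PX

open FirstOrder FirstOrder.Language Pool.Agent.Helper31.Spectra

theorem ll_fun (U B : Type) (n : ℕ) : IsEmpty ((LL U B).Functions n) :=
  inferInstanceAs (IsEmpty Empty)

theorem ll_rel (U B : Type) (n : ℕ) (hn : 2 < n) : IsEmpty ((LL U B).Relations n) := by
  refine ⟨fun R => ?_⟩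
  have R' : ULB U B n := R
  cases R' with
  | un a => omega
  | bi c => omega

theorem ll_fin (U B : Type) [Finite U] [Finite B] : Finite (Σ n, (LL U B).Relations n) := by
  refine Finite.of_surjective (α := U ⊕ B) (fun x => match x with
    | Sum.inl a => (⟨1, ULB.un a⟩ : Σ n, (LL U B).Relations n)
    | Sum.inr c => ⟨2, ULB.bi c⟩) ?_
  rintro ⟨n, R⟩
  cases R with
  | un a => exact ⟨Sum.inl a, rfl⟩
  | bi c => exact ⟨Sum.inr c, rfl⟩

theorem nonempty_of_pos {M : Type} {n : ℕ} (hn : 0 < n) (h : Nat.card M = n) : Nonempty M := by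
  by_contra hc
  rw [not_nonempty_iff] at hc
  rw [Nat.card_of_isEmpty] at h
  omega

theorem two_le_of_pow {m k t : ℕ} (h : 2 ≤ t) (h2 : t = m ^ k) (h0 : 0 < m) : 2 ≤ m := by
  by_contra hc
  have h1 : m = 1 := by omega
  subst h1
  rw [one_pow] at h2
  omega

theorem hard_word {w : List Bool} (hw : Hard w) {L : FirstOrder.Language.{0, 0}} (φ : L.Sentence)
    (hL : FinVoc L) : ∃ c k : ℕ, 1 ≤ c ∧ 2 ≤ k ∧ ∃ (L' : FirstOrder.Language.{0, 0}) (ψ : L'.Sentence),
      (∀ n, IsEmpty (L'.Functions n)) ∧ (∀ n, 2 < n → IsEmpty (L'.Relations n)) ∧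
      Finite (Σ n, L'.Relations n) ∧ HasWord w ψ ∧
      Spec L' ψ = {N | ∃ m ∈ Spec L φ, 2 ≤ m ∧ N = c * m ^ k} := by
  obtain ⟨L1, φ1, hF1, hR1, hS1⟩ := Pool.Agent.Helper72.WT.exists_relational
    (S := Spec L φ) ⟨L, φ, hL, rfl⟩
  obtain ⟨k, hk3, hk1, U, B, hU, hB, S, hS⟩ := fo_local hF1 hR1 φ1 3
  rw [hS1] at hS
  rcases hw with hw | hw
  · obtain ⟨U', B', hU', hB', Φ, hΦ⟩ := aae S
    obtain ⟨ψ, hψ, hψr⟩ := word_aae Φ hw
    refine ⟨4, k, by norm_num, by omega, LL U' B', ψ, ll_fun U' B', ll_rel U' B', ll_fin U' B',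
      hψ, ?_⟩
    ext N
    constructor
    · rintro ⟨hN, M, sM, hM, hr⟩
      have hne := nonempty_of_pos hN hM
      obtain ⟨n, hn5, hNn, hsol⟩ := (hΦ N hN).1 ⟨M, uOf U' B' M, bOf U' B' M, hM, (hψr M).1 hr⟩
      obtain ⟨m, hm, hmS⟩ := (hS n (by omega)).1 hsol
      exact ⟨m, hmS, two_le_of_pow (t := n) (by omega) hm hmS.1, by rw [hNn, hm]⟩
    · rintro ⟨m, hmS, hm2, hN⟩
      have h8 : 8 ≤ m ^ k := by
        calc 8 = 2 ^ 3 := by norm_num
          _ ≤ 2 ^ k := Nat.pow_le_pow_right (by norm_num) hk3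
          _ ≤ m ^ k := Nat.pow_le_pow_left hm2 k
      have hpos : 0 < N := by omega
      obtain ⟨M, u, b, hM, hr⟩ := (hΦ N hpos).2 ⟨m ^ k, by omega, hN,
        (hS _ (by omega)).2 ⟨m, rfl, hmS⟩⟩
      have hne := nonempty_of_pos hpos hM
      let sM : (LL U' B').Structure M := strOf u b
      exact ⟨hpos, M, sM, hM, (hψr M).2 hr⟩
  · obtain ⟨S', hS'⟩ := sol_two S
    obtain ⟨U', B', hU', hB', Φ, hΦ⟩ := aea S'
    obtain ⟨ψ, hψ, hψr⟩ := word_aea Φ hw
    refine ⟨1, k, le_rfl, by omega, LL U' B', ψ, ll_fun U' B', ll_rel U' B', ll_fin U' B',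
      hψ, ?_⟩
    ext N
    constructor
    · rintro ⟨hN, M, sM, hM, hr⟩
      have hne := nonempty_of_pos hN hM
      have hsol := (hΦ N hN).1 ⟨M, uOf U' B' M, bOf U' B' M, hM, (hψr M).1 hr⟩
      obtain ⟨hN2, hsol⟩ := (hS' N hN).1 hsol
      obtain ⟨m, hm, hmS⟩ := (hS N hN).1 hsol
      exact ⟨m, hmS, two_le_of_pow (t := N) hN2 hm hmS.1, by rw [hm, one_mul]⟩
    · rintro ⟨m, hmS, hm2, hN⟩
      have h8 : 8 ≤ m ^ k := by
        calc 8 = 2 ^ 3 := by norm_num
          _ ≤ 2 ^ k := Nat.pow_le_pow_right (by norm_num) hk3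
          _ ≤ m ^ k := Nat.pow_le_pow_left hm2 k
      rw [one_mul] at hN
      have hpos : 0 < N := by omega
      obtain ⟨M, u, b, hM, hr⟩ := (hΦ N hpos).2 ((hS' N hpos).2 ⟨by omega,
        (hS N hpos).2 ⟨m, hN, hmS⟩⟩)
      have hne := nonempty_of_pos hpos hM
      let sM : (LL U' B').Structure M := strOf u b
      exact ⟨hpos, M, sM, hM, (hψr M).2 hr⟩

theorem isSpectrum_two : IsSpectrum {m : ℕ | 2 ≤ m} := by
  refine isSpectrum_of_periodic _ ?_ 2 1 (by norm_num) ?_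
  · intro h
    have h' : 2 ≤ 0 := h
    omega
  · intro n hn
    constructor
    · intro _
      show 2 ≤ n + 1
      omega
    · intro _
      exact hn

theorem isSpectrum_one : IsSpectrum {m : ℕ | m = 1} := by
  refine isSpectrum_of_periodic _ ?_ 2 1 (by norm_num) ?_
  · intro h
    have h' : 0 = 1 := h
    omega
  · intro n hn
    constructor
    · intro h
      have h' : n = 1 := h
      omega
    · intro h
      have h' : n + 1 = 1 := h
      omega

theorem hard_asser {w : List Bool} (hw : Hard w)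
    (hyp : ∀ (L : FirstOrder.Language.{0, 0}) (φ : L.Sentence), (∀ n, IsEmpty (L.Functions n)) →
      (∀ n, 2 < n → IsEmpty (L.Relations n)) → Finite (Σ n, L.Relations n) → HasWord w φ →
      IsSpectrum {n | 0 < n ∧ n ∉ Spec L φ})
    {L : FirstOrder.Language.{0, 0}} (φ : L.Sentence) (hL : FinVoc L) :
    IsSpectrum {n | 0 < n ∧ n ∉ Spec L φ} := by
  obtain ⟨c, k, hc, hk, L', ψ, hF, hR, hfin, hword, hspec⟩ := hard_word hw φ hL
  obtain ⟨L2, χ, hL2, hχ⟩ := hyp L' ψ hF hR hfin hword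
  have hdec := Pool.Agent.Helper87.AU.decode hL2 χ (k - 1) c hc
  have hk' : k - 1 + 1 = k := by omega
  rw [hk', hχ, hspec] at hdec
  have hmain := Pool.Agent.Helper72.TX.isSpectrum_inter hdec isSpectrum_two
  have hinj : ∀ m m' : ℕ, c * m ^ k = c * m' ^ k → m = m' := by
    intro m m' h
    have h1 := Nat.eq_of_mul_eq_mul_left (by omega) h
    exact Nat.pow_left_injective (by omega) h1
  by_cases h1 : 1 ∈ Spec L φ
  · have e : {n | 0 < n ∧ n ∉ Spec L φ} =
        {m | 0 < m ∧ c * m ^ k ∈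
          {n | 0 < n ∧ n ∉ {N | ∃ m ∈ Spec L φ, 2 ≤ m ∧ N = c * m ^ k}}} ∩ {m : ℕ | 2 ≤ m} := by
      ext n
      constructor
      · rintro ⟨hn, hnS⟩
        have hn2 : 2 ≤ n := by
          by_contra hc2
          have : n = 1 := by omega
          subst this
          exact hnS h1
        refine ⟨⟨hn, Nat.mul_pos (by omega) (Nat.pow_pos hn), ?_⟩, hn2⟩
        rintro ⟨m, hmS, hm2, hm⟩
        rw [hinj _ _ hm] at hnS
        exact hnS hmS
      · rintro ⟨⟨hn, -, hnS⟩, hn2⟩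
        exact ⟨hn, fun h => hnS ⟨n, h, hn2, rfl⟩⟩
    rw [e]
    exact hmain
  · have e : {n | 0 < n ∧ n ∉ Spec L φ} =
        ({m | 0 < m ∧ c * m ^ k ∈
          {n | 0 < n ∧ n ∉ {N | ∃ m ∈ Spec L φ, 2 ≤ m ∧ N = c * m ^ k}}} ∩ {m : ℕ | 2 ≤ m}) ∪
          {m : ℕ | m = 1} := by
      ext n
      constructor
      · rintro ⟨hn, hnS⟩
        rcases Nat.lt_or_ge n 2 with hn2 | hn2
        · right
          show n = 1
          omega
        · left
          refine ⟨⟨hn, Nat.mul_pos (by omega) (Nat.pow_pos hn), ?_⟩, hn2⟩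
          rintro ⟨m, hmS, hm2, hm⟩
          rw [hinj _ _ hm] at hnS
          exact hnS hmS
      · rintro (⟨⟨hn, -, hnS⟩, hn2⟩ | hn)
        · exact ⟨hn, fun h => hnS ⟨n, h, hn2, rfl⟩⟩
        · have hn' : n = 1 := hn
          subst hn'
          exact ⟨by norm_num, h1⟩
    rw [e]
    exact hmain.union isSpectrum_one

theorem hard_nonper {w : List Bool} (hw : Hard w) :
    ∃ (L : FirstOrder.Language.{0, 0}) (φ : L.Sentence), (∀ n, IsEmpty (L.Functions n)) ∧
      (∀ n, 2 < n → IsEmpty (L.Relations n)) ∧ Finite (Σ n, L.Relations n) ∧ HasWord w φ ∧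
      ¬ ∃ N p : ℕ, 0 < p ∧ ∀ n, N ≤ n → (n ∈ Spec L φ ↔ n + p ∈ Spec L φ) := by
  have hV : FinVoc FirstOrder.Language.empty := by
    constructor
    · have : IsEmpty (Σ n, FirstOrder.Language.empty.Functions n) := ⟨fun z => isEmptyElim z.2⟩
      infer_instance
    · have : IsEmpty (Σ n, FirstOrder.Language.empty.Relations n) := ⟨fun z => isEmptyElim z.2⟩
      infer_instance
  obtain ⟨c, k, hc, hk, L', ψ, hF, hR, hfin, hword, hspec⟩ :=
    hard_word hw (L := FirstOrder.Language.empty) (⊤ : FirstOrder.Language.empty.Sentence) hV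
  refine ⟨L', ψ, hF, hR, hfin, hword, ?_⟩
  rw [hspec]
  rintro ⟨N, p, hp, h⟩
  have hall : ∀ m, 0 < m → m ∈ Spec FirstOrder.Language.empty
      (⊤ : FirstOrder.Language.empty.Sentence) := by
    intro m hm
    let s0 : FirstOrder.Language.empty.Structure (Fin m) := trivStr _ (⟨0, hm⟩ : Fin m)
    refine ⟨hm, Fin m, s0, by simp, ?_⟩
    exact id
  obtain ⟨j, rfl⟩ : ∃ j, k = j + 2 := ⟨k - 2, by omega⟩
  let m := N + p + 2
  have hm2 : 2 ≤ m := by omega
  have hmk : m ≤ m ^ (j + 2) := Nat.le_self_pow (by omega) m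
  have hNm : N ≤ c * m ^ (j + 2) := by
    calc N ≤ m := by omega
      _ ≤ m ^ (j + 2) := hmk
      _ ≤ c * m ^ (j + 2) := Nat.le_mul_of_pos_left _ (by omega)
  obtain ⟨m', -, hm', he⟩ := (h _ hNm).1 ⟨m, hall m (by omega), hm2, rfl⟩
  have hlt : m < m' := by
    by_contra hle
    have h1 : m' ^ (j + 2) ≤ m ^ (j + 2) := Nat.pow_le_pow_left (by omega) _
    have h2 := Nat.mul_le_mul_left c h1
    omega
  have h1 : (m + 1) ^ (j + 2) ≤ m' ^ (j + 2) := Nat.pow_le_pow_left hlt _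
  have h2 : m ^ (j + 2) + m ^ (j + 1) ≤ (m + 1) ^ (j + 2) := by
    have h3 : m ^ (j + 1) ≤ (m + 1) ^ (j + 1) := Nat.pow_le_pow_left (by omega) _
    calc m ^ (j + 2) + m ^ (j + 1) = m ^ (j + 1) * (m + 1) := by ring
      _ ≤ (m + 1) ^ (j + 1) * (m + 1) := Nat.mul_le_mul_right _ h3
      _ = (m + 1) ^ (j + 2) := by ring
  have h3 : m ≤ m ^ (j + 1) := Nat.le_self_pow (by omega) m
  have h4 : c * (m ^ (j + 2) + m) ≤ c * m' ^ (j + 2) := Nat.mul_le_mul_left c (by omega)
  have h5 : m ≤ c * m := Nat.le_mul_of_pos_left _ (by omega)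
  rw [Nat.mul_add] at h4
  omega

end Pool.Agent.Helper37.PX
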